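import Pool.Agent.Helper81K1.MP.Refl2

set_option autoImplicit false

/-!
# Partial summation and completion of the dual sum
-/

namespace Pool.Agent.Helper81K1.MP

open Finset MeasureTheory
open Pool.Agent.Helper523.UF (e e_norm e_add e_neg e_int e_nat e_zero e_nat_mul)

/-- partial summation -/
theorem abel (u v : ℕ → ℂ) (a b : ℕ) (hab : a < b) (M : ℝ)
    (hM : ∀ c, a < c → c ≤ b → ‖∑ l ∈ Ioc a c, u l‖ ≤ M) :
    ‖∑ l ∈ Ioc a b, u l * v l‖ ≤ M * (‖v b‖ + ∑ l ∈ Ico (a + 1) b, ‖v (l + 1) - v l‖) := by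
  have key : ∀ b, a + 1 ≤ b → ∑ l ∈ Ioc a b, u l * v l =
      (∑ l ∈ Ioc a b, u l) * v b - ∑ l ∈ Ico (a + 1) b, (∑ j ∈ Ioc a l, u j) * (v (l + 1) - v l) := by
    intro b hb
    induction b, hb using Nat.le_induction with
    | base =>
      have : Ioc a (a + 1) = {a + 1} := by
        ext x
        simp only [mem_Ioc, mem_singleton]
        omega
      rw [this]
      simp
    | succ b hb ih =>
      rw [← Finset.insert_Ioc_right_eq_Ioc_add_one (by omega), sum_insert (by simp), sum_insert (by simp), ih,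
        Finset.sum_Ico_succ_top hb]
      ring
  rw [key b hab]
  refine (norm_sub_le _ _).trans ?_
  rw [mul_add]
  apply add_le_add
  · rw [norm_mul]
    exact mul_le_mul_of_nonneg_right (hM b hab le_rfl) (norm_nonneg _)
  · rw [mul_sum]
    apply norm_sum_le_of_le
    intro l hl
    rw [mem_Ico] at hl
    rw [norm_mul]
    exact mul_le_mul_of_nonneg_right (hM l (by omega) (by omega)) (norm_nonneg _)

/-- orthogonality -/
theorem orth (M : ℕ) (hM : 1 ≤ M) (d : ℤ) (hd : |d| < M) :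
    ∑ r ∈ range M, e ((r : ℝ) * d / M) = if d = 0 then (M : ℂ) else 0 := by
  have hM0 : (M : ℝ) ≠ 0 := by
    have : (0 : ℝ) < M := by exact_mod_cast (by omega : 0 < M)
    exact this.ne'
  split_ifs with h
  · subst h
    simp [e_zero]
  · have hz : ∀ r ∈ range M, e ((r : ℝ) * d / M) = e ((d : ℝ) / M) ^ r := by
      intro r _
      rw [← e_nat_mul]
      congr 1
      ring
    rw [sum_congr rfl hz]
    have hne : e ((d : ℝ) / M) ≠ 1 := by
      intro hc
      unfold Pool.Agent.Helper523.UF.e at hc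
      rw [Complex.exp_eq_one_iff] at hc
      obtain ⟨n, hn⟩ := hc
      have h1 : (2 * Real.pi * ((d : ℝ) / M) : ℝ) = n * (2 * Real.pi) := by
        have h2 := congrArg Complex.im hn
        simpa using h2
      have h3 : (d : ℝ) / M = n := by
        have : (2 * Real.pi) ≠ 0 := by positivity
        apply mul_left_cancel₀ this
        rw [h1]
        ring
      rw [div_eq_iff hM0] at h3
      have h4 : d = n * M := by exact_mod_cast h3
      rcases eq_or_ne n 0 with hn0 | hn0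
      · rw [hn0, zero_mul] at h4
        exact h h4
      · have h5 : 1 ≤ |n| := Int.one_le_abs hn0
        rw [h4, abs_mul] at hd
        have h6 : |(M : ℤ)| = M := abs_of_nonneg (by positivity)
        rw [h6] at hd
        have : (1 : ℤ) * M ≤ |n| * M := mul_le_mul_of_nonneg_right h5 (by positivity)
        omega
    rw [geom_sum_eq hne]
    have h1 : e ((d : ℝ) / M) ^ M = 1 := by
      rw [← e_nat_mul]
      have : (M : ℝ) * ((d : ℝ) / M) = (d : ℝ) := by field_simp
      rw [this, e_int]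
    rw [h1, sub_self, zero_div]

/-- completion -/
theorem complete (f : ℕ → ℂ) (M' a c : ℕ) (hc : c ≤ M') :
    ∑ l ∈ Ioc a c, f l = ∑ r ∈ range (M' + 1), (((M' + 1 : ℕ) : ℂ)⁻¹ *
      ∑ j ∈ Ioc a c, e (-((r : ℝ) * j / (M' + 1 : ℕ)))) *
        ∑ l ∈ Icc 1 M', f l * e ((r : ℝ) * l / (M' + 1 : ℕ)) := by
  have hM0 : (((M' + 1 : ℕ) : ℂ)) ≠ 0 := by
    exact_mod_cast (by omega : M' + 1 ≠ 0)
  have h1 : ∀ l ∈ Icc 1 M', ∀ j ∈ Ioc a c, ∑ r ∈ range (M' + 1), e ((r : ℝ) * l / (M' + 1 : ℕ)) *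
      e (-((r : ℝ) * j / (M' + 1 : ℕ))) = if l = j then ((M' + 1 : ℕ) : ℂ) else 0 := by
    intro l hl j hj
    rw [mem_Icc] at hl
    rw [mem_Ioc] at hj
    have h2 := orth (M' + 1) (by omega) ((l : ℤ) - j) (by
      rw [abs_lt]
      constructor <;> omega)
    have h3 : (if (l : ℤ) - j = 0 then ((M' + 1 : ℕ) : ℂ) else 0) = if l = j then ((M' + 1 : ℕ) : ℂ) else 0 := by
      by_cases h : l = j
      · rw [if_pos h, if_pos (by omega)]
      · rw [if_neg h, if_neg (by omega)]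
    rw [h3] at h2
    rw [← h2]
    apply sum_congr rfl
    intro r _
    rw [← e_add]
    congr 1
    push_cast
    ring
  calc ∑ l ∈ Ioc a c, f l = ∑ j ∈ Ioc a c, ∑ l ∈ Icc 1 M', ((M' + 1 : ℕ) : ℂ)⁻¹ * (f l *
        (if l = j then ((M' + 1 : ℕ) : ℂ) else 0)) := by
        apply sum_congr rfl
        intro j hj
        rw [mem_Ioc] at hj
        rw [sum_eq_single_of_mem j (mem_Icc.2 ⟨by omega, by omega⟩)]
        · rw [if_pos rfl]
          field_simp
        · intro l _ hl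
          rw [if_neg hl, mul_zero, mul_zero]
    _ = ∑ j ∈ Ioc a c, ∑ l ∈ Icc 1 M', ∑ r ∈ range (M' + 1), ((M' + 1 : ℕ) : ℂ)⁻¹ * (f l *
        (e ((r : ℝ) * l / (M' + 1 : ℕ)) * e (-((r : ℝ) * j / (M' + 1 : ℕ))))) := by
        apply sum_congr rfl
        intro j hj
        apply sum_congr rfl
        intro l hl
        rw [← h1 l hl j hj, mul_sum, mul_sum]
    _ = ∑ r ∈ range (M' + 1), ∑ j ∈ Ioc a c, ∑ l ∈ Icc 1 M', ((M' + 1 : ℕ) : ℂ)⁻¹ * (f l *
        (e ((r : ℝ) * l / (M' + 1 : ℕ)) * e (-((r : ℝ) * j / (M' + 1 : ℕ))))) := by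
        rw [sum_comm]
        rw [sum_comm (s := range (M' + 1))]
        rw [sum_comm]
        apply sum_congr rfl
        intro j _
        rw [sum_comm]
    _ = _ := by
        apply sum_congr rfl
        intro r _
        rw [mul_sum, sum_comm]
        apply sum_congr rfl
        intro l _
        rw [mul_sum, sum_mul]
        apply sum_congr rfl
        intro j _
        ring

/-- the weights of the completion -/
noncomputable def wr (M : ℕ) (r : ℕ) : ℝ := 1 / (1 + (r : ℝ)) + 1 / ((M : ℝ) - r)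

theorem wr_nonneg (M r : ℕ) (hr : r < M) : 0 ≤ wr M r := by
  unfold wr
  have : (0 : ℝ) < (M : ℝ) - r := by
    have : (r : ℝ) < M := by exact_mod_cast hr
    linarith
  positivity

theorem wr_sum (M : ℕ) (hM : 1 ≤ M) : ∑ r ∈ range M, wr M r ≤ 2 * (1 + Real.log M) := by
  obtain ⟨M', rfl⟩ : ∃ M', M = M' + 1 := ⟨M - 1, by omega⟩
  unfold wr
  rw [sum_add_distrib]
  have h1 := harm M'
  have h2 : ∑ r ∈ range (M' + 1), (1 : ℝ) / (((M' + 1 : ℕ) : ℝ) - r) = ∑ r ∈ range (M' + 1), (1 : ℝ) / (1 + r) := by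
    rw [← Finset.sum_range_reflect]
    apply sum_congr rfl
    intro r hr
    rw [mem_range] at hr
    congr 1
    rw [Nat.cast_sub (by omega), Nat.cast_sub (by omega)]
    push_cast
    ring
  rw [h2]
  push_cast
  linarith

theorem kernel (M' a c : ℕ) (hac : a ≤ c) (hc : c ≤ M') (r : ℕ) (hr : r < M' + 1) :
    ‖((M' + 1 : ℕ) : ℂ)⁻¹ * ∑ j ∈ Ioc a c, e (-((r : ℝ) * j / (M' + 1 : ℕ)))‖ ≤ wr (M' + 1) r := by
  have hM0 : (0 : ℝ) < ((M' + 1 : ℕ) : ℝ) := by positivity
  have hrM : (r : ℝ) < ((M' + 1 : ℕ) : ℝ) := by exact_mod_cast hr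
  rw [norm_mul, norm_inv, Complex.norm_natCast]
  rcases Nat.eq_zero_or_pos r with h0 | h0
  · subst h0
    have h1 : ‖∑ j ∈ Ioc a c, e (-(((0 : ℕ) : ℝ) * j / (M' + 1 : ℕ)))‖ ≤ ((M' + 1 : ℕ) : ℝ) := by
      calc ‖∑ j ∈ Ioc a c, e (-(((0 : ℕ) : ℝ) * j / (M' + 1 : ℕ)))‖ ≤ ∑ j ∈ Ioc a c, (1 : ℝ) := by
            apply norm_sum_le_of_le
            intro j _
            rw [e_norm]
        _ ≤ ((M' + 1 : ℕ) : ℝ) := by
            rw [sum_const, Nat.card_Ioc, nsmul_eq_mul, mul_one]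
            exact_mod_cast (by omega : c - a ≤ M' + 1)
    calc (((M' + 1 : ℕ) : ℝ))⁻¹ * ‖∑ j ∈ Ioc a c, e (-(((0 : ℕ) : ℝ) * j / (M' + 1 : ℕ)))‖
        ≤ (((M' + 1 : ℕ) : ℝ))⁻¹ * ((M' + 1 : ℕ) : ℝ) := mul_le_mul_of_nonneg_left h1 (by positivity)
      _ = 1 := inv_mul_cancel₀ hM0.ne'
      _ ≤ _ := by
          unfold wr
          have : 0 ≤ 1 / (((M' + 1 : ℕ) : ℝ) - ((0 : ℕ) : ℝ)) := by
            rw [Nat.cast_zero, sub_zero]
            positivity
          have h2 : (1 : ℝ) / (1 + ((0 : ℕ) : ℝ)) = 1 := by norm_num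
          linarith
  · have hr1 : (1 : ℝ) ≤ r := by exact_mod_cast h0
    obtain ⟨x, hx⟩ : ∃ x : ℝ, x = (r : ℝ) / (M' + 1 : ℕ) := ⟨_, rfl⟩
    have hx0 : 0 < x := by rw [hx]; positivity
    have hx1 : x < 1 := by rw [hx, div_lt_one hM0]; exact hrM
    obtain ⟨z, hz⟩ : ∃ z : ℂ, z = e (-x) := ⟨_, rfl⟩
    have hzn : ‖z‖ = 1 := by rw [hz, e_norm]
    -- lower bound for the sine
    obtain ⟨m, hm⟩ : ∃ m : ℝ, m = min (r : ℝ) (((M' + 1 : ℕ) : ℝ) - r) := ⟨_, rfl⟩
    have hm0 : 0 < m := by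
      rw [hm]
      exact lt_min (by linarith) (by linarith)
    have hsin : 2 * (m / (M' + 1 : ℕ)) ≤ Real.sin (Real.pi * x) := by
      rcases le_total x (1 / 2) with h1 | h1
      · refine le_trans ?_ (H419R2.Saw.sin_ge hx0.le h1)
        apply mul_le_mul_of_nonneg_left _ (by norm_num)
        rw [hx, hm]
        exact div_le_div_of_nonneg_right (min_le_left _ _) hM0.le
      · have h2 := H419R2.Saw.sin_ge (x := 1 - x) (by linarith) (by linarith)
        have h3 : Real.sin (Real.pi * (1 - x)) = Real.sin (Real.pi * x) := by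
          rw [mul_sub, mul_one, Real.sin_pi_sub]
        rw [h3] at h2
        refine le_trans ?_ h2
        apply mul_le_mul_of_nonneg_left _ (by norm_num)
        have h4 : 1 - x = (((M' + 1 : ℕ) : ℝ) - r) / (M' + 1 : ℕ) := by
          rw [hx]
          field_simp
        rw [h4, hm]
        exact div_le_div_of_nonneg_right (min_le_right _ _) hM0.le
    have hz1 : 4 * (m / (M' + 1 : ℕ)) ≤ ‖z - 1‖ := by
      have h1 : ‖z - 1‖ = 2 * |Real.sin (Real.pi * x)| := by
        rw [hz]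
        unfold Pool.Agent.Helper523.UF.e
        have h2 : (((2 * Real.pi * -x : ℝ)) : ℂ) * Complex.I = Complex.I * ((2 * Real.pi * -x : ℝ) : ℂ) := by ring
        rw [h2, Complex.norm_exp_I_mul_ofReal_sub_one]
        have h3 : 2 * Real.pi * -x / 2 = -(Real.pi * x) := by ring
        rw [h3, Real.sin_neg, norm_mul, norm_neg, Real.norm_ofNat, Real.norm_eq_abs]
      rw [h1]
      have h4 := le_abs_self (Real.sin (Real.pi * x))
      linarith
    have hmM : 0 < m / (M' + 1 : ℕ) := by positivity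
    have hz10 : 0 < ‖z - 1‖ := by linarith
    have hzne : z ≠ 1 := by
      intro hc
      rw [hc, sub_self, norm_zero] at hz10
      exact lt_irrefl _ hz10
    have hsum : ∑ j ∈ Ioc a c, e (-((r : ℝ) * j / (M' + 1 : ℕ))) = (z ^ (c + 1) - z ^ (a + 1)) / (z - 1) := by
      rw [← geom_sum_Ico hzne (by omega : a + 1 ≤ c + 1)]
      have h1 : Ioc a c = Ico (a + 1) (c + 1) := by
        ext x
        simp only [mem_Ioc, mem_Ico]
        omega
      rw [h1]
      apply sum_congr rfl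
      intro j _
      rw [hz, ← e_nat_mul]
      congr 1
      rw [hx]
      ring
    rw [hsum, norm_div]
    have hnum : ‖z ^ (c + 1) - z ^ (a + 1)‖ ≤ 2 := by
      refine (norm_sub_le _ _).trans ?_
      rw [norm_pow, norm_pow, hzn, one_pow, one_pow]
      norm_num
    have h1 : (((M' + 1 : ℕ) : ℝ))⁻¹ * (‖z ^ (c + 1) - z ^ (a + 1)‖ / ‖z - 1‖) ≤ 1 / (2 * m) := by
      calc (((M' + 1 : ℕ) : ℝ))⁻¹ * (‖z ^ (c + 1) - z ^ (a + 1)‖ / ‖z - 1‖)
          ≤ (((M' + 1 : ℕ) : ℝ))⁻¹ * (2 / (4 * (m / (M' + 1 : ℕ)))) := by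
            apply mul_le_mul_of_nonneg_left _ (by positivity)
            exact div_le_div₀ (by norm_num) hnum (by positivity) hz1
        _ = 1 / (2 * m) := by
            field_simp
            norm_num
    refine h1.trans ?_
    unfold wr
    have hMr : 0 < ((M' + 1 : ℕ) : ℝ) - r := by linarith
    rcases min_choice (r : ℝ) (((M' + 1 : ℕ) : ℝ) - r) with h2 | h2
    · rw [hm, h2]
      have h3 : 1 / (2 * (r : ℝ)) ≤ 1 / (1 + (r : ℝ)) := by
        apply one_div_le_one_div_of_le (by positivity)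
        linarith
      have h4 : 0 ≤ 1 / (((M' + 1 : ℕ) : ℝ) - r) := by positivity
      linarith
    · rw [hm, h2]
      have h3 : 1 / (2 * (((M' + 1 : ℕ) : ℝ) - r)) ≤ 1 / (((M' + 1 : ℕ) : ℝ) - r) := by
        apply one_div_le_one_div_of_le hMr
        linarith
      have h4 : 0 ≤ 1 / (1 + (r : ℝ)) := by positivity
      linarith

end Pool.Agent.Helper81K1.MP
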