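import Pool.Agent.Helper81K1.MP.Var

set_option autoImplicit false

/-!
# The dual sum
-/

namespace Pool.Agent.Helper81K1.MP

open Finset MeasureTheory
open Pool.Agent.Helper523.UF (e e_norm e_add e_neg e_int e_nat e_zero e_comp_hasDerivAt e_continuous)

theorem blocks {G : Type*} [AddCommMonoid G] (f : ℕ → G) (k V : ℕ) :
    ∑ ν ∈ range V, ∑ h ∈ range k, f (h + k * ν) = ∑ l ∈ range (k * V), f l := by
  induction V with
  | zero => simp
  | succ V ih =>
    rw [sum_range_succ, ih, Nat.mul_succ, Finset.sum_range_add]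
    congr 1
    apply sum_congr rfl
    intro h _
    rw [add_comm]

theorem int_sum (g : ℤ → ℂ) (V : ℕ) :
    ∑ ν ∈ Icc (-(V : ℤ)) V, g ν = ∑ ν ∈ range (V + 1), g (ν : ℤ) + ∑ μ ∈ range V, g (-((μ : ℤ) + 1)) := by
  induction V with
  | zero => simp
  | succ V ih =>
    have h2 : Icc (-((V + 1 : ℕ) : ℤ)) ((V + 1 : ℕ) : ℤ) =
        insert (-((V + 1 : ℕ) : ℤ)) (insert ((V + 1 : ℕ) : ℤ) (Icc (-(V : ℤ)) V)) := by
      ext z
      simp only [mem_Icc, mem_insert]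
      push_cast
      omega
    rw [h2, sum_insert, sum_insert, ih, sum_range_succ (fun ν : ℕ => g (ν : ℤ)) (V + 1),
      sum_range_succ (fun μ : ℕ => g (-((μ : ℤ) + 1))) V]
    · push_cast
      ring
    · simp
    · simp only [mem_insert, mem_Icc]
      push_cast
      omega

/-- Cauchy-Schwarz -/
theorem cs (k : ℕ) (γ : ℕ → ℂ) (w : ℕ → ℝ) (hγ : ∑ h ∈ range k, ‖γ h‖ ^ 2 ≤ 1) (Q : ℝ)
    (hw : ∑ h ∈ range k, w h ^ 2 ≤ Q) : ∑ h ∈ range k, ‖γ h‖ * w h ≤ Real.sqrt Q := by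
  refine (Real.sum_mul_le_sqrt_mul_sqrt _ _ _).trans ?_
  have h1 : Real.sqrt (∑ h ∈ range k, ‖γ h‖ ^ 2) ≤ 1 := by
    rw [Real.sqrt_le_left (by norm_num)]
    linarith
  calc Real.sqrt (∑ h ∈ range k, ‖γ h‖ ^ 2) * Real.sqrt (∑ h ∈ range k, w h ^ 2)
      ≤ 1 * Real.sqrt Q := mul_le_mul h1 (Real.sqrt_le_sqrt hw) (Real.sqrt_nonneg _) (by norm_num)
    _ = _ := one_mul _

theorem cs1 (k : ℕ) (γ : ℕ → ℂ) (hγ : ∑ h ∈ range k, ‖γ h‖ ^ 2 ≤ 1) : ∑ h ∈ range k, ‖γ h‖ ≤ Real.sqrt k := by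
  have h := cs k γ (fun _ => 1) hγ k (by simp)
  simpa using h

/-- the weight of the first block -/
noncomputable def wb (A : ℝ) (k j : ℕ) : ℝ := if j = 0 then A else min A (k / j)

theorem wb_sq (A : ℝ) (hA : 0 ≤ A) (k : ℕ) (hk : 1 ≤ k) :
    ∑ j ∈ range k, wb A k j ^ 2 ≤ A ^ 2 + A * k * (1 + Real.log k) := by
  obtain ⟨k', rfl⟩ : ∃ k', k = k' + 1 := ⟨k - 1, by omega⟩
  rw [sum_range_succ']
  have h0 : wb A (k' + 1) 0 ^ 2 = A ^ 2 := by unfold wb; simp
  rw [h0, add_comm]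
  apply add_le_add le_rfl
  have h1 : ∀ j ∈ range k', wb A (k' + 1) (j + 1) ^ 2 ≤ A * ((k' + 1 : ℕ) : ℝ) * (1 / (1 + (j : ℝ))) := by
    intro j _
    unfold wb
    rw [if_neg (by omega), sq]
    have h2 : 0 ≤ ((k' + 1 : ℕ) : ℝ) / ((j + 1 : ℕ) : ℝ) := by positivity
    calc min A (((k' + 1 : ℕ) : ℝ) / ((j + 1 : ℕ) : ℝ)) * min A (((k' + 1 : ℕ) : ℝ) / ((j + 1 : ℕ) : ℝ))
        ≤ A * (((k' + 1 : ℕ) : ℝ) / ((j + 1 : ℕ) : ℝ)) :=
          mul_le_mul (min_le_left _ _) (min_le_right _ _) (le_min hA h2) hA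
      _ = _ := by
          push_cast
          ring
  refine (sum_le_sum h1).trans ?_
  rw [← mul_sum]
  apply mul_le_mul_of_nonneg_left _ (by positivity)
  rcases Nat.eq_zero_or_pos k' with hk' | hk'
  · subst hk'
    simp
  · obtain ⟨k'', rfl⟩ : ∃ k'', k' = k'' + 1 := ⟨k' - 1, by omega⟩
    refine (harm k'').trans ?_
    have : Real.log ((k'' : ℝ) + 1) ≤ Real.log ((k'' + 1 + 1 : ℕ) : ℝ) := by
      apply Real.log_le_log (by positivity)
      push_cast
      linarith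
    linarith

section
variable (N k : ℕ) (th t a b : ℝ)

/-- small frequencies -/
theorem J_small (hN : 1 ≤ N) (ht : 0 < t) (hNa : N ≤ a) (hab : a ≤ b) (hb : b ≤ 2 * N) (lam : ℝ)
    (hlam : lam ≤ t / (8 * Real.pi * N)) : ‖Jf t lam a b‖ ≤ 8 * N / t := by
  have hpi := Real.pi_pos
  have hN0 : (0 : ℝ) < N := by exact_mod_cast (by omega : 0 < N)
  have hb0 : 0 < b := by linarith
  have h1 := osc_pos t lam a b (t / (8 * Real.pi * N)) ht (by linarith) hab (by positivity) (by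
    have h2 : (2 * (N : ℝ))⁻¹ ≤ b⁻¹ := inv_anti₀ hb0 hb
    have h3 : t / (2 * Real.pi) * (2 * (N : ℝ))⁻¹ ≤ t / (2 * Real.pi) * b⁻¹ :=
      mul_le_mul_of_nonneg_left h2 (by positivity)
    have h4 : t / (2 * Real.pi) * (2 * (N : ℝ))⁻¹ = t / (8 * Real.pi * N) + t / (8 * Real.pi * N) := by
      field_simp
      ring
    linarith)
  refine h1.trans (le_of_eq ?_)
  field_simp

/-- negative frequencies -/
theorem J_neg (hN : 1 ≤ N) (ht : 0 < t) (hNa : N ≤ a) (hab : a ≤ b) (lam : ℝ)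
    (hlam : lam < 0) : ‖Jf t lam a b‖ ≤ 1 / (-lam) := by
  have hpi := Real.pi_gt_three
  have hN0 : (0 : ℝ) < N := by exact_mod_cast (by omega : 0 < N)
  have hb0 : 0 < b := by linarith
  have h1 := osc_pos t lam a b (-lam) ht (by linarith) hab (by linarith) (by
    have : 0 ≤ t / (2 * Real.pi) * b⁻¹ := by positivity
    linarith)
  refine h1.trans ?_
  apply one_div_le_one_div_of_le (by linarith)
  nlinarith

/-- large frequencies -/
theorem J_large (hN : 1 ≤ N) (ht : 0 < t) (hNa : N ≤ a) (hab : a ≤ b) (lam : ℝ)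
    (hlam : t / (Real.pi * N) ≤ lam) : ‖Jf t lam a b‖ ≤ 1 / lam ∧ ‖Jf t lam a b‖ ≤ 8 * N / t := by
  have hpi := Real.pi_gt_three
  have hN0 : (0 : ℝ) < N := by exact_mod_cast (by omega : 0 < N)
  have ha0 : 0 < a := by linarith
  have hlam0 : 0 < lam := lt_of_lt_of_le (by positivity) hlam
  have h1 := osc_neg t lam a b (lam / 2) ht ha0 hab (by linarith) (by
    have h2 : a⁻¹ ≤ (N : ℝ)⁻¹ := inv_anti₀ hN0 hNa
    have h3 : t / (2 * Real.pi) * a⁻¹ ≤ t / (2 * Real.pi) * (N : ℝ)⁻¹ :=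
      mul_le_mul_of_nonneg_left h2 (by positivity)
    have h4 : t / (2 * Real.pi) * (N : ℝ)⁻¹ = t / (Real.pi * N) / 2 := by
      field_simp
    linarith)
  have h5 : ‖Jf t lam a b‖ ≤ 1 / lam := by
    refine h1.trans ?_
    apply one_div_le_one_div_of_le hlam0
    nlinarith
  refine ⟨h5, h5.trans ?_⟩
  have h6 : 1 / lam ≤ 1 / (t / (Real.pi * N)) := one_div_le_one_div_of_le (by positivity) hlam
  refine h6.trans ?_
  rw [one_div_div]
  apply div_le_div_of_nonneg_right _ ht.le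
  have := Real.pi_lt_four
  nlinarith

/-- frequencies outside the main range -/
theorem J_out (hN : 1 ≤ N) (hk : 1 ≤ k) (hth0 : 0 ≤ th) (hth1 : th < 1) (ht : 0 < t) (hNa : N ≤ a) (hab : a ≤ b)
    (hb : b ≤ 2 * N) (L1 L2 : ℕ) (hL1 : L1 = ⌊k * t / (16 * Real.pi * N)⌋₊)
    (hL2 : L2 = ⌊k * t / (Real.pi * N)⌋₊) (l : ℕ) (hl : 1 ≤ l) (hout : ¬ (L1 < l ∧ l ≤ L2)) :
    ‖Jf t (la k th l) a b‖ ≤ wb (8 * N / t) k l := by
  have hpi := Real.pi_gt_three
  have hk0 : (0 : ℝ) < k := by exact_mod_cast (by omega : 0 < k)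
  have hN0 : (0 : ℝ) < N := by exact_mod_cast (by omega : 0 < N)
  have hl0 : (1 : ℝ) ≤ l := by exact_mod_cast hl
  unfold wb
  rw [if_neg (by omega), le_min_iff]
  rcases Nat.lt_or_ge L1 l with h1 | h1
  · have h2 : L2 < l := by
      by_contra hc
      exact hout ⟨h1, by omega⟩
    have h3 : k * t / (Real.pi * N) < l := by
      have h4 := Nat.lt_floor_add_one (k * t / (Real.pi * N))
      rw [← hL2] at h4
      have h5 : (L2 : ℝ) + 1 ≤ l := by exact_mod_cast h2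
      linarith
    have h6 : (l : ℝ) / k ≤ la k th l := by
      unfold la
      apply div_le_div_of_nonneg_right _ hk0.le
      linarith
    have h7 : t / (Real.pi * N) ≤ la k th l := by
      refine le_trans ?_ h6
      rw [le_div_iff₀ hk0]
      calc t / (Real.pi * N) * k = k * t / (Real.pi * N) := by ring
        _ ≤ l := h3.le
    obtain ⟨h8, h9⟩ := J_large N t a b hN ht hNa hab _ h7
    refine ⟨h9, h8.trans ?_⟩
    calc 1 / la k th l ≤ 1 / ((l : ℝ) / k) := one_div_le_one_div_of_le (by positivity) h6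
      _ = k / l := one_div_div _ _
  · have h2 : (l : ℝ) ≤ k * t / (16 * Real.pi * N) := by
      have h3 := Nat.floor_le (a := k * t / (16 * Real.pi * N)) (by positivity)
      rw [← hL1] at h3
      have h4 : (l : ℝ) ≤ L1 := by exact_mod_cast h1
      linarith
    have h5 : la k th l ≤ t / (8 * Real.pi * N) := by
      unfold la
      rw [div_le_iff₀ hk0]
      have h6 : (l : ℝ) + th ≤ 2 * (k * t / (16 * Real.pi * N)) := by linarith
      refine h6.trans (le_of_eq ?_)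
      field_simp
      ring
    have h7 := J_small N t a b hN ht hNa hab hb _ h5
    refine ⟨h7, h7.trans ?_⟩
    rw [div_le_div_iff₀ ht (by linarith)]
    rw [le_div_iff₀ (by positivity)] at h2
    have h8 : (l : ℝ) * N * 8 ≤ l * N * (16 * Real.pi) := mul_le_mul_of_nonneg_left (by linarith) (by positivity)
    linarith

end

end Pool.Agent.Helper81K1.MP
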