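import Pool.Agent.Helper81K1.MP.Per

set_option autoImplicit false

/-!
# Weights of bounded variation
-/

namespace Pool.Agent.Helper81K1.MP

open Finset MeasureTheory
open Pool.Agent.Helper523.UF (e e_norm e_add e_neg e_int e_nat e_zero e_nat_mul)

theorem abel2 (u g : ℕ → ℂ) (N b : ℕ) (hb : N ≤ b) : ∑ n ∈ Icc N b, u n * g n =
    (∑ n ∈ Icc N b, u n) * g b - ∑ m ∈ Ico N b, (∑ n ∈ Icc N m, u n) * (g (m + 1) - g m) := by
  induction b, hb using Nat.le_induction with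
  | base => simp
  | succ b hb ih =>
    rw [Finset.sum_Icc_succ_top (by omega), Finset.sum_Icc_succ_top (by omega), ih, Finset.sum_Ico_succ_top hb]
    ring

/-- power means -/
theorem power_mean (S : Finset ℕ) (c x : ℕ → ℝ) (hc : ∀ m ∈ S, 0 ≤ c m) (hx : ∀ m ∈ S, 0 ≤ x m) (Ω q : ℝ)
    (hΩ : ∑ m ∈ S, c m ≤ Ω) (hΩ0 : 0 < Ω) (hq : 1 ≤ q) (hpos : 0 < ∑ m ∈ S, c m) :
    (∑ m ∈ S, c m * x m) ^ q ≤ Ω ^ (q - 1) * ∑ m ∈ S, c m * x m ^ q := by
  obtain ⟨σ, hσ⟩ : ∃ σ : ℝ, σ = ∑ m ∈ S, c m := ⟨_, rfl⟩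
  rw [← hσ] at hΩ hpos
  have h1 := Real.rpow_arith_mean_le_arith_mean_rpow S (fun m => c m / σ) x
    (fun m hm => div_nonneg (hc m hm) hpos.le) (by rw [← sum_div, ← hσ, div_self hpos.ne']) hx hq
  have h2 : ∑ m ∈ S, c m * x m = σ * ∑ m ∈ S, c m / σ * x m := by
    rw [mul_sum]
    apply sum_congr rfl
    intro m _
    field_simp
  have h3 : ∑ m ∈ S, c m / σ * x m ^ q = σ⁻¹ * ∑ m ∈ S, c m * x m ^ q := by
    rw [mul_sum]
    apply sum_congr rfl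
    intro m _
    field_simp
  have h4 : 0 ≤ ∑ m ∈ S, c m / σ * x m := sum_nonneg fun m hm => mul_nonneg (div_nonneg (hc m hm) hpos.le) (hx m hm)
  have h5 : 0 ≤ ∑ m ∈ S, c m * x m ^ q := sum_nonneg fun m hm => mul_nonneg (hc m hm) (Real.rpow_nonneg (hx m hm) q)
  rw [h2, Real.mul_rpow hpos.le h4]
  calc σ ^ q * (∑ m ∈ S, c m / σ * x m) ^ q ≤ σ ^ q * (σ⁻¹ * ∑ m ∈ S, c m * x m ^ q) := by
        apply mul_le_mul_of_nonneg_left _ (by positivity)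
        rw [← h3]
        exact h1
    _ = σ ^ (q - 1) * ∑ m ∈ S, c m * x m ^ q := by
        rw [Real.rpow_sub hpos, Real.rpow_one]
        field_simp
    _ ≤ _ := by
        apply mul_le_mul_of_nonneg_right _ h5
        exact Real.rpow_le_rpow hpos.le hΩ (by linarith)

theorem exp_e (t : ℕ) (n : ℕ) : Complex.exp (Complex.I * (t : ℂ) * ((Real.log (n : ℝ) : ℝ) : ℂ)) =
    e ((t : ℝ) / (2 * Real.pi) * Real.log n) := by
  unfold Pool.Agent.Helper523.UF.e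
  congr 1
  have : (2 * Real.pi * ((t : ℝ) / (2 * Real.pi) * Real.log n) : ℝ) = t * Real.log n := by
    field_simp
  rw [this]
  push_cast
  ring

/-- from the sums over intervals to weights of bounded variation -/
theorem bv (q W B : ℝ) (hq : 2 ≤ q) (hW : 0 ≤ W) (N T : ℕ) (u : ℕ → ℕ → ℂ) (g : ℕ → ℂ)
    (hg1 : ∀ n, ‖g n‖ ≤ 1) (hgW : ∑ n ∈ Ico N (2 * N), ‖g (n + 1) - g n‖ ≤ W)
    (hB : ∀ m, N ≤ m → m ≤ 2 * N → ∑ t ∈ Icc 1 T, ‖∑ n ∈ Icc N m, u n t‖ ^ q ≤ B) :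
    ∑ t ∈ Icc 1 T, ‖∑ n ∈ Icc N (2 * N), u n t * g n‖ ^ q ≤ (1 + W) ^ q * B := by
  classical
  obtain ⟨c, hc⟩ : ∃ c : ℕ → ℝ, c = fun m => if m = 2 * N then 1 else ‖g (m + 1) - g m‖ := ⟨_, rfl⟩
  have hc0 : ∀ m, 0 ≤ c m := by
    intro m
    rw [hc]
    dsimp only
    split_ifs
    · norm_num
    · exact norm_nonneg _
  have hIcc : Icc N (2 * N) = insert (2 * N) (Ico N (2 * N)) := by
    ext x
    simp only [mem_Icc, mem_insert, mem_Ico]
    omega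
  have hsplit : ∀ x : ℕ → ℝ, ∑ m ∈ Icc N (2 * N), c m * x m = x (2 * N) +
      ∑ m ∈ Ico N (2 * N), ‖g (m + 1) - g m‖ * x m := by
    intro x
    rw [hIcc, sum_insert (by simp)]
    congr 1
    · rw [hc]
      simp
    · apply sum_congr rfl
      intro m hm
      rw [mem_Ico] at hm
      rw [hc]
      dsimp only
      rw [if_neg (by omega)]
  have hcs : ∑ m ∈ Icc N (2 * N), c m ≤ 1 + W := by
    have h1 := hsplit (fun _ => 1)
    simp only [mul_one] at h1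
    rw [h1]
    linarith
  have hcpos : 0 < ∑ m ∈ Icc N (2 * N), c m := by
    have h1 := hsplit (fun _ => 1)
    simp only [mul_one] at h1
    rw [h1]
    have : 0 ≤ ∑ m ∈ Ico N (2 * N), ‖g (m + 1) - g m‖ := sum_nonneg fun _ _ => norm_nonneg _
    linarith
  have hpt : ∀ t ∈ Icc 1 T, ‖∑ n ∈ Icc N (2 * N), u n t * g n‖ ^ q ≤
      (1 + W) ^ (q - 1) * ∑ m ∈ Icc N (2 * N), c m * ‖∑ n ∈ Icc N m, u n t‖ ^ q := by
    intro t _
    have h1 : ‖∑ n ∈ Icc N (2 * N), u n t * g n‖ ≤ ∑ m ∈ Icc N (2 * N), c m * ‖∑ n ∈ Icc N m, u n t‖ := by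
      rw [abel2 (fun n => u n t) g N (2 * N) (by omega), hsplit (fun m => ‖∑ n ∈ Icc N m, u n t‖)]
      refine (norm_sub_le _ _).trans (add_le_add ?_ ?_)
      · rw [norm_mul]
        exact mul_le_of_le_one_right (norm_nonneg _) (hg1 _)
      · apply norm_sum_le_of_le
        intro m _
        rw [norm_mul, mul_comm]
    refine (Real.rpow_le_rpow (norm_nonneg _) h1 (by linarith)).trans ?_
    exact power_mean _ c (fun m => ‖∑ n ∈ Icc N m, u n t‖) (fun m _ => hc0 m) (fun m _ => norm_nonneg _) (1 + W) q hcs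
      (by linarith) (by linarith) hcpos
  have hB0 : 0 ≤ B := (sum_nonneg fun _ _ => by positivity).trans (hB N le_rfl (by omega))
  calc ∑ t ∈ Icc 1 T, ‖∑ n ∈ Icc N (2 * N), u n t * g n‖ ^ q
      ≤ ∑ t ∈ Icc 1 T, (1 + W) ^ (q - 1) * ∑ m ∈ Icc N (2 * N), c m * ‖∑ n ∈ Icc N m, u n t‖ ^ q := sum_le_sum hpt
    _ = (1 + W) ^ (q - 1) * ∑ m ∈ Icc N (2 * N), c m * ∑ t ∈ Icc 1 T, ‖∑ n ∈ Icc N m, u n t‖ ^ q := by
        rw [← mul_sum, sum_comm]
        congr 1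
        apply sum_congr rfl
        intro m _
        rw [mul_sum]
    _ ≤ (1 + W) ^ (q - 1) * ∑ m ∈ Icc N (2 * N), c m * B := by
        apply mul_le_mul_of_nonneg_left _ (by positivity)
        apply sum_le_sum
        intro m hm
        rw [mem_Icc] at hm
        exact mul_le_mul_of_nonneg_left (hB m hm.1 hm.2) (hc0 m)
    _ = (1 + W) ^ (q - 1) * ((∑ m ∈ Icc N (2 * N), c m) * B) := by rw [← sum_mul]
    _ ≤ (1 + W) ^ (q - 1) * ((1 + W) * B) := by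
        apply mul_le_mul_of_nonneg_left _ (by positivity)
        exact mul_le_mul_of_nonneg_right hcs hB0
    _ = (1 + W) ^ q * B := by
        rw [Real.rpow_sub (by linarith), Real.rpow_one]
        field_simp

/-- periodic coefficients with a weight of bounded variation -/
theorem periodic (q ε W : ℝ) (hq : 2 ≤ q) (hε : 0 < ε) : ∃ K : ℝ, ∀ N T k : ℕ, 1 ≤ N → N ≤ T → 1 ≤ k →
    k ^ 2 * T ≤ N ^ 2 → ∀ p g : ℕ → ℂ, (∀ n, ‖p n‖ ≤ 1) → (∀ n, p (n + k) = p n) → (∀ n, ‖g n‖ ≤ 1) →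
    ∑ n ∈ Ico N (2 * N), ‖g (n + 1) - g n‖ ≤ W →
    ∑ t ∈ Icc 1 T, ‖∑ n ∈ Icc N (2 * N),
      p n * g n * Complex.exp (Complex.I * (t : ℂ) * ((Real.log (n : ℝ) : ℝ) : ℂ))‖ ^ q ≤
      K * (N : ℝ) ^ ε * ((N : ℝ) ^ q + (N : ℝ) ^ (q / 2) * (T : ℝ)) := by
  obtain ⟨K2, K4, hK2, hK4, hmom⟩ := PP_mom (ε / 2) (by positivity)
  obtain ⟨K, hK1, hK⟩ := total q (ε / 2) K2 K4 hq (by positivity) hK2 hK4
  refine ⟨(1 + W) ^ q * (3 ^ q * (1 + K)), ?_⟩
  intro N T k hN hNT hk hkT p g hp1 hp hg1 hgW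
  have hW : 0 ≤ W := (sum_nonneg fun _ _ => norm_nonneg _).trans hgW
  have hN1 : (1 : ℝ) ≤ N := by exact_mod_cast hN
  have hN0 : (0 : ℝ) < N := by linarith
  obtain ⟨γ, hγ, hbb⟩ := fourier k hk p hp1 hp
  have hbb1 : ∀ n, ‖bb k 0 γ n‖ ≤ 1 := fun n => by rw [hbb]; exact hp1 n
  obtain ⟨h2, h4⟩ := hmom N k T γ hN hk hkT hγ
  have hε2 : 2 * (ε / 2) = ε := by ring
  have hB : ∀ m, N ≤ m → m ≤ 2 * N → ∑ t ∈ Icc 1 T, ‖∑ n ∈ Icc N m,
      p n * Complex.exp (Complex.I * (t : ℂ) * ((Real.log (n : ℝ) : ℝ) : ℂ))‖ ^ q ≤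
      3 ^ q * (1 + K) * (N : ℝ) ^ ε * ((N : ℝ) ^ q + (N : ℝ) ^ (q / 2) * (T : ℝ)) := by
    intro m hm1 hm2
    have h1 := hK N k T N m 0 γ hN hk hNT hkT le_rfl hm1 hm2 le_rfl (by norm_num) hγ hbb1 h2 h4
    rw [hε2] at h1
    have hpt : ∀ t ∈ Icc 1 T, ‖∑ n ∈ Icc N m,
        p n * Complex.exp (Complex.I * (t : ℂ) * ((Real.log (n : ℝ) : ℝ) : ℂ))‖ ^ q ≤
        3 ^ q * (1 + ‖DA k 0 γ N m t‖ ^ q) := by
      intro t _
      have h5 : ∑ n ∈ Icc N m, p n * Complex.exp (Complex.I * (t : ℂ) * ((Real.log (n : ℝ) : ℝ) : ℂ)) =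
          p N * e ((t : ℝ) / (2 * Real.pi) * Real.log N) + DA k 0 γ N m t := by
        have h6 : Icc N m = insert N (Ioc N m) := by
          ext x
          simp only [mem_Icc, mem_insert, mem_Ioc]
          omega
        rw [h6, sum_insert (by simp), exp_e]
        congr 1
        unfold DA
        apply sum_congr rfl
        intro n _
        rw [exp_e, hbb]
      rw [h5]
      have h7 : ‖p N * e ((t : ℝ) / (2 * Real.pi) * Real.log N) + DA k 0 γ N m t‖ ≤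
          1 + ‖DA k 0 γ N m t‖ + 0 := by
        refine (norm_add_le _ _).trans ?_
        rw [norm_mul, e_norm, mul_one]
        linarith [hp1 N]
      refine (Real.rpow_le_rpow (norm_nonneg _) h7 (by linarith)).trans ?_
      refine (add3 q 1 _ 0 (by linarith) (by norm_num) (norm_nonneg _) le_rfl).trans (le_of_eq ?_)
      rw [Real.one_rpow, Real.zero_rpow (by linarith), add_zero]
    refine (sum_le_sum hpt).trans ?_
    rw [← mul_sum, sum_add_distrib, sum_const, Nat.card_Icc, Nat.add_sub_cancel, nsmul_eq_mul, mul_one]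
    have hA : 0 ≤ (N : ℝ) ^ q := by positivity
    have hNq : 1 ≤ (N : ℝ) ^ (q / 2) := Real.one_le_rpow hN1 (by linarith)
    have hNε : 1 ≤ (N : ℝ) ^ ε := Real.one_le_rpow hN1 hε.le
    have hT0 : (0 : ℝ) ≤ T := Nat.cast_nonneg _
    have h8 : (T : ℝ) ≤ (N : ℝ) ^ ε * ((N : ℝ) ^ q + (N : ℝ) ^ (q / 2) * (T : ℝ)) := by
      calc (T : ℝ) = 1 * (1 * T) := by ring
        _ ≤ (N : ℝ) ^ ε * ((N : ℝ) ^ (q / 2) * T) := by
            apply mul_le_mul hNε _ (by positivity) (by positivity)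
            exact mul_le_mul_of_nonneg_right hNq hT0
        _ ≤ _ := by
            apply mul_le_mul_of_nonneg_left _ (by positivity)
            linarith
    calc 3 ^ q * ((T : ℝ) + ∑ t ∈ Icc 1 T, ‖DA k 0 γ N m t‖ ^ q)
        ≤ 3 ^ q * ((N : ℝ) ^ ε * ((N : ℝ) ^ q + (N : ℝ) ^ (q / 2) * (T : ℝ)) +
          K * (N : ℝ) ^ ε * ((N : ℝ) ^ q + (N : ℝ) ^ (q / 2) * (T : ℝ))) :=
          mul_le_mul_of_nonneg_left (add_le_add h8 h1) (by positivity)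
      _ = _ := by ring
  have h9 := bv q W _ hq hW N T
    (fun n t => p n * Complex.exp (Complex.I * (t : ℂ) * ((Real.log (n : ℝ) : ℝ) : ℂ))) g hg1 hgW hB
  have h10 : ∑ t ∈ Icc 1 T, ‖∑ n ∈ Icc N (2 * N),
      p n * g n * Complex.exp (Complex.I * (t : ℂ) * ((Real.log (n : ℝ) : ℝ) : ℂ))‖ ^ q =
      ∑ t ∈ Icc 1 T, ‖∑ n ∈ Icc N (2 * N), (fun n t => p n * Complex.exp (Complex.I * (t : ℂ) *
        ((Real.log (n : ℝ) : ℝ) : ℂ))) n t * g n‖ ^ q := by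
    apply sum_congr rfl
    intro t _
    congr 2
    apply sum_congr rfl
    intro n _
    dsimp only
    ring
  rw [h10]
  refine h9.trans (le_of_eq ?_)
  ring

end Pool.Agent.Helper81K1.MP
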