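import Pool.Agent.Helper81K1.MP.Abel
import Pool.Agent.Helper81K1.MQ.Lq

set_option autoImplicit false

/-!
# The main term and its moments
-/

namespace Pool.Agent.Helper81K1.MP

open Finset MeasureTheory
open Pool.Agent.Helper523.UF (e e_norm e_add e_neg e_int e_nat e_zero e_nat_mul)

/-- the coefficients of the dual sum -/
noncomputable def uu (k : ℕ) (th : ℝ) (γ : ℕ → ℂ) (t : ℝ) (l : ℕ) : ℂ :=
  γ (l % k) * e (-(t / (2 * Real.pi) * Real.log (la k th l)))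

/-- the completed dual polynomials -/
noncomputable def PP (k : ℕ) (th : ℝ) (γ : ℕ → ℂ) (M' r : ℕ) (t : ℝ) : ℂ :=
  ∑ l ∈ Icc 1 M', uu k th γ t l * e ((r : ℝ) * l / (M' + 1 : ℕ))

theorem main_le (N k : ℕ) (th t a b : ℝ) (γ : ℕ → ℂ) (hN : 1 ≤ N) (hk : 1 ≤ k) (hth0 : 0 ≤ th) (hth1 : th < 1)
    (ht : 1 ≤ t) (hkt : k * Real.sqrt t ≤ N) (hkN : k ≤ N) (hNa : N ≤ a) (hab : a ≤ b) (hb : b ≤ 2 * N)
    (L1 L2 : ℕ) (hL1 : L1 = ⌊k * t / (16 * Real.pi * N)⌋₊) (hL2 : L2 = ⌊k * t / (Real.pi * N)⌋₊)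
    (M' : ℕ) (hM' : L2 ≤ M') :
    ‖∑ l ∈ Ioc L1 L2, γ (l % k) * Jf t (la k th l) a b‖ ≤
      6171 * (N / Real.sqrt t) * (1 + Real.log (t + 3)) *
        ∑ r ∈ range (M' + 1), wr (M' + 1) r * ‖PP k th γ M' r t‖ := by
  have hN0 : (0 : ℝ) < N := by exact_mod_cast (by omega : 0 < N)
  have hk0 : (0 : ℝ) < k := by exact_mod_cast (by omega : 0 < k)
  have hlog : 0 ≤ Real.log (t + 3) := Real.log_nonneg (by linarith)
  have hsum0 : 0 ≤ ∑ r ∈ range (M' + 1), wr (M' + 1) r * ‖PP k th γ M' r t‖ := by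
    apply sum_nonneg
    intro r hr
    exact mul_nonneg (wr_nonneg _ _ (mem_range.1 hr)) (norm_nonneg _)
  rcases Nat.lt_or_ge L1 L2 with hL | hL
  swap
  · rw [Ioc_eq_empty (by omega), sum_empty, norm_zero]
    positivity
  have h1 : ∑ l ∈ Ioc L1 L2, γ (l % k) * Jf t (la k th l) a b = ∑ l ∈ Ioc L1 L2, uu k th γ t l * vf k th t a b l := by
    apply sum_congr rfl
    intro l hl
    rw [mem_Ioc] at hl
    have hl0 : (0 : ℝ) < l := by exact_mod_cast (by omega : 0 < l)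
    have hla : 0 < la k th l := by unfold la; positivity
    have h2 := scale t (la k th l) a b hla (by linarith) hab
    have h3 : Jf t (la k th l) a b = e (-(t / (2 * Real.pi) * Real.log (la k th l))) *
        ((((la k th l)⁻¹ : ℝ) : ℂ) * Jf t 1 (la k th l * a) (la k th l * b)) := by
      rw [← h2, e_neg]
      have h4 : e (t / (2 * Real.pi) * Real.log (la k th l)) ≠ 0 := by
        intro hc
        have := e_norm (t / (2 * Real.pi) * Real.log (la k th l))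
        rw [hc, norm_zero] at this
        exact zero_ne_one this
      rw [mul_comm (Jf t (la k th l) a b) (e _), inv_mul_cancel_left₀ h4]
    rw [h3]
    unfold uu vf Wf
    ring
  rw [h1]
  obtain ⟨U, hU⟩ : ∃ U : ℝ, U = ∑ r ∈ range (M' + 1), wr (M' + 1) r * ‖PP k th γ M' r t‖ := ⟨_, rfl⟩
  have h2 := abel (uu k th γ t) (vf k th t a b) L1 L2 hL U (by
    intro c hc1 hc2
    rw [complete (uu k th γ t) M' L1 c (by omega), hU]
    apply norm_sum_le_of_le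
    intro r hr
    rw [norm_mul]
    exact mul_le_mul_of_nonneg_right (kernel M' L1 c (by omega) (by omega) r (mem_range.1 hr)) (norm_nonneg _))
  refine h2.trans ?_
  have h3 := tv N k th t a b hN hk hth0 hth1 ht hkt hkN hNa hab hb L1 L2 hL1 hL2 hL
  rw [← hU]
  calc U * (‖vf k th t a b L2‖ + ∑ l ∈ Ico (L1 + 1) L2, ‖vf k th t a b (l + 1) - vf k th t a b l‖)
      ≤ U * (6171 * (N / Real.sqrt t) * (1 + Real.log (t + 3))) := by
        apply mul_le_mul_of_nonneg_left h3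
        rw [hU]
        exact hsum0
    _ = _ := by ring

theorem jensen2 (S : Finset ℕ) (w x : ℕ → ℝ) (hw : ∀ r ∈ S, 0 ≤ w r) :
    (∑ r ∈ S, w r * x r) ^ 2 ≤ (∑ r ∈ S, w r) * ∑ r ∈ S, w r * x r ^ 2 := by
  have h1 := Finset.sum_mul_sq_le_sq_mul_sq S (fun r => Real.sqrt (w r)) (fun r => Real.sqrt (w r) * x r)
  have e1 : ∑ r ∈ S, Real.sqrt (w r) * (Real.sqrt (w r) * x r) = ∑ r ∈ S, w r * x r := by
    apply sum_congr rfl
    intro r hr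
    rw [← mul_assoc, Real.mul_self_sqrt (hw r hr)]
  have e2 : ∑ r ∈ S, Real.sqrt (w r) ^ 2 = ∑ r ∈ S, w r := by
    apply sum_congr rfl
    intro r hr
    rw [Real.sq_sqrt (hw r hr)]
  have e3 : ∑ r ∈ S, (Real.sqrt (w r) * x r) ^ 2 = ∑ r ∈ S, w r * x r ^ 2 := by
    apply sum_congr rfl
    intro r hr
    rw [mul_pow, Real.sq_sqrt (hw r hr)]
  rw [e1, e2, e3] at h1
  exact h1

theorem jensen4 (S : Finset ℕ) (w x : ℕ → ℝ) (hw : ∀ r ∈ S, 0 ≤ w r) :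
    (∑ r ∈ S, w r * x r) ^ 4 ≤ (∑ r ∈ S, w r) ^ 3 * ∑ r ∈ S, w r * x r ^ 4 := by
  have hw0 : 0 ≤ ∑ r ∈ S, w r := sum_nonneg hw
  have h1 := jensen2 S w x hw
  have h2 := jensen2 S w (fun r => x r ^ 2) hw
  have h3 : 0 ≤ ∑ r ∈ S, w r * x r ^ 2 := sum_nonneg fun r hr => mul_nonneg (hw r hr) (sq_nonneg _)
  calc (∑ r ∈ S, w r * x r) ^ 4 = ((∑ r ∈ S, w r * x r) ^ 2) ^ 2 := by ring
    _ ≤ ((∑ r ∈ S, w r) * ∑ r ∈ S, w r * x r ^ 2) ^ 2 := pow_le_pow_left₀ (sq_nonneg _) h1 2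
    _ = (∑ r ∈ S, w r) ^ 2 * (∑ r ∈ S, w r * x r ^ 2) ^ 2 := by ring
    _ ≤ (∑ r ∈ S, w r) ^ 2 * ((∑ r ∈ S, w r) * ∑ r ∈ S, w r * (x r ^ 2) ^ 2) :=
        mul_le_mul_of_nonneg_left h2 (sq_nonneg _)
    _ = (∑ r ∈ S, w r) ^ 3 * ∑ r ∈ S, w r * x r ^ 4 := by
        have e5 : ∑ r ∈ S, w r * (x r ^ 2) ^ 2 = ∑ r ∈ S, w r * x r ^ 4 := sum_congr rfl fun r _ => by ring
        rw [e5]
        ring

/-- moments of a weighted sum of polynomials -/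
theorem weighted (T : Finset ℕ) (S : Finset ℕ) (w : ℕ → ℝ) (P : ℕ → ℕ → ℝ) (hw : ∀ r ∈ S, 0 ≤ w r) (Ω c X2 X4 : ℝ)
    (hP0 : ∀ r t, 0 ≤ P r t) (F : ℕ → ℝ) (hF0 : ∀ t, 0 ≤ F t) (hc : 0 ≤ c) (hX2 : 0 ≤ X2) (hX4 : 0 ≤ X4)
    (hF : ∀ t ∈ T, F t ≤ c * ∑ r ∈ S, w r * P r t) (hΩ : ∑ r ∈ S, w r ≤ Ω)
    (h2 : ∀ r ∈ S, ∑ t ∈ T, P r t ^ 2 ≤ X2) (h4 : ∀ r ∈ S, ∑ t ∈ T, P r t ^ 4 ≤ X4) :
    ∑ t ∈ T, F t ^ 2 ≤ c ^ 2 * Ω ^ 2 * X2 ∧ ∑ t ∈ T, F t ^ 4 ≤ c ^ 4 * Ω ^ 4 * X4 := by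
  have hw0 : 0 ≤ ∑ r ∈ S, w r := sum_nonneg hw
  have hΩ0 : 0 ≤ Ω := hw0.trans hΩ
  constructor
  · calc ∑ t ∈ T, F t ^ 2 ≤ ∑ t ∈ T, c ^ 2 * ((∑ r ∈ S, w r) * ∑ r ∈ S, w r * P r t ^ 2) := by
          apply sum_le_sum
          intro t ht
          calc F t ^ 2 ≤ (c * ∑ r ∈ S, w r * P r t) ^ 2 := pow_le_pow_left₀ (hF0 t) (hF t ht) 2
            _ = c ^ 2 * (∑ r ∈ S, w r * P r t) ^ 2 := by ring
            _ ≤ _ := mul_le_mul_of_nonneg_left (jensen2 S w (fun r => P r t) hw) (sq_nonneg _)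
      _ = c ^ 2 * (∑ r ∈ S, w r) * ∑ r ∈ S, w r * ∑ t ∈ T, P r t ^ 2 := by
          rw [← mul_sum, ← mul_sum, sum_comm, ← mul_assoc]
          congr 1
          apply sum_congr rfl
          intro r _
          rw [mul_sum]
      _ ≤ c ^ 2 * (∑ r ∈ S, w r) * ∑ r ∈ S, w r * X2 := by
          apply mul_le_mul_of_nonneg_left _ (by positivity)
          apply sum_le_sum
          intro r hr
          exact mul_le_mul_of_nonneg_left (h2 r hr) (hw r hr)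
      _ = c ^ 2 * (∑ r ∈ S, w r) ^ 2 * X2 := by
          rw [← sum_mul]
          ring
      _ ≤ c ^ 2 * Ω ^ 2 * X2 := by
          apply mul_le_mul_of_nonneg_right _ hX2
          apply mul_le_mul_of_nonneg_left _ (sq_nonneg _)
          exact pow_le_pow_left₀ hw0 hΩ 2
  · calc ∑ t ∈ T, F t ^ 4 ≤ ∑ t ∈ T, c ^ 4 * ((∑ r ∈ S, w r) ^ 3 * ∑ r ∈ S, w r * P r t ^ 4) := by
          apply sum_le_sum
          intro t ht
          calc F t ^ 4 ≤ (c * ∑ r ∈ S, w r * P r t) ^ 4 := pow_le_pow_left₀ (hF0 t) (hF t ht) 4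
            _ = c ^ 4 * (∑ r ∈ S, w r * P r t) ^ 4 := by ring
            _ ≤ _ := mul_le_mul_of_nonneg_left (jensen4 S w (fun r => P r t) hw) (by positivity)
      _ = c ^ 4 * (∑ r ∈ S, w r) ^ 3 * ∑ r ∈ S, w r * ∑ t ∈ T, P r t ^ 4 := by
          rw [← mul_sum, ← mul_sum, sum_comm, ← mul_assoc]
          congr 1
          apply sum_congr rfl
          intro r _
          rw [mul_sum]
      _ ≤ c ^ 4 * (∑ r ∈ S, w r) ^ 3 * ∑ r ∈ S, w r * X4 := by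
          apply mul_le_mul_of_nonneg_left _ (by positivity)
          apply sum_le_sum
          intro r hr
          exact mul_le_mul_of_nonneg_left (h4 r hr) (hw r hr)
      _ = c ^ 4 * (∑ r ∈ S, w r) ^ 4 * X4 := by
          rw [← sum_mul]
          ring
      _ ≤ c ^ 4 * Ω ^ 4 * X4 := by
          apply mul_le_mul_of_nonneg_right _ hX4
          apply mul_le_mul_of_nonneg_left _ (by positivity)
          exact pow_le_pow_left₀ hw0 hΩ 4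

/-- the moments of a Dirichlet polynomial -/
theorem polymom (δ : ℝ) (hδ : 0 < δ) (κ : ℕ) : ∃ K : ℝ, 0 < K ∧ ∀ (M T0 : ℕ) (a : ℕ → ℂ), 1 ≤ M → 1 ≤ T0 →
    ∑ t ∈ Ico T0 (2 * T0), ‖Pool.Agent.TH705.DL.DP M a t‖ ^ (2 * κ) ≤
      K * (M : ℝ) ^ δ * (T0 + (M : ℝ) ^ κ) * (∑ n ∈ Icc 1 M, ‖a n‖ ^ 2) ^ κ := by
  obtain ⟨K1, hK1, h⟩ := Pool.Agent.Y959.Smp.consts δ hδ κ
  refine ⟨K1, hK1, fun M T0 a hM hT0 => ?_⟩
  obtain ⟨D, hD, hD2⟩ := h M hM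
  have h1 := Pool.Agent.Y959.Smp.momentL M hM a κ D hD T0 hT0 T0
  have h2 : ∑ t ∈ Ico T0 (2 * T0), ‖Pool.Agent.TH705.DL.DP M a t‖ ^ (2 * κ) =
      ∑ u : Fin T0, ‖Pool.Agent.TH705.DL.DP M a (T0 + (u : ℕ))‖ ^ (2 * κ) := by
    rw [Fin.sum_univ_eq_sum_range (fun u => ‖Pool.Agent.TH705.DL.DP M a (T0 + (u : ℕ))‖ ^ (2 * κ)) T0,
      sum_Ico_eq_sum_range]
    have e1 : 2 * T0 - T0 = T0 := by omega
    rw [e1]
    apply sum_congr rfl
    intro u _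
    push_cast
    rfl
  rw [h2]
  refine h1.trans ?_
  have h3 := hD2 (T0 : ℝ) (Nat.cast_nonneg _)
  calc (2 + Real.log ((M : ℝ) ^ κ) ^ 2) * (T0 + 4 * (M : ℝ) ^ κ * (1 + Real.log ((M : ℝ) ^ κ))) *
        (D ^ κ * (∑ n ∈ Icc 1 M, ‖a n‖ ^ 2) ^ κ)
      = ((2 + Real.log ((M : ℝ) ^ κ) ^ 2) * (T0 + 4 * (M : ℝ) ^ κ * (1 + Real.log ((M : ℝ) ^ κ))) * D ^ κ) *
        (∑ n ∈ Icc 1 M, ‖a n‖ ^ 2) ^ κ := by ring
    _ ≤ _ := by
        apply mul_le_mul_of_nonneg_right h3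
        exact pow_nonneg (sum_nonneg fun _ _ => by positivity) _

/-- the dual polynomials without a shift -/
theorem PP_norm (k M' r : ℕ) (hk : 1 ≤ k) (γ : ℕ → ℂ) (t : ℝ) :
    ‖PP k 0 γ M' r t‖ = ‖Pool.Agent.TH705.DL.DP M'
      (fun l => starRingEnd ℂ (γ (l % k) * e ((r : ℝ) * l / (M' + 1 : ℕ)))) t‖ := by
  have hk0 : (0 : ℝ) < k := by exact_mod_cast (by omega : 0 < k)
  have h1 : PP k 0 γ M' r t = e (t / (2 * Real.pi) * Real.log k) * starRingEnd ℂ (Pool.Agent.TH705.DL.DP M'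
      (fun l => starRingEnd ℂ (γ (l % k) * e ((r : ℝ) * l / (M' + 1 : ℕ)))) t) := by
    unfold PP Pool.Agent.TH705.DL.DP
    rw [map_sum, mul_sum]
    apply sum_congr rfl
    intro l hl
    rw [mem_Icc] at hl
    have hl0 : (0 : ℝ) < l := by exact_mod_cast (by omega : 0 < l)
    rw [map_mul, Complex.conj_conj]
    have h2 : starRingEnd ℂ (Pool.Agent.TH705.DL.ph t l) = e (-(t / (2 * Real.pi) * Real.log l)) := by
      unfold Pool.Agent.TH705.DL.ph Pool.Agent.Helper523.UF.e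
      rw [← Complex.exp_conj]
      congr 1
      simp only [map_mul, Complex.conj_I, Complex.conj_ofReal]
      push_cast
      field_simp
    rw [h2]
    unfold uu la
    rw [add_zero, Real.log_div hl0.ne' hk0.ne']
    have h3 : e (-(t / (2 * Real.pi) * (Real.log l - Real.log k))) =
        e (t / (2 * Real.pi) * Real.log k) * e (-(t / (2 * Real.pi) * Real.log l)) := by
      rw [← e_add]
      congr 1
      ring
    rw [h3]
    ring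
  rw [h1, norm_mul, e_norm, one_mul, RCLike.norm_conj]

theorem coef_sum (k M' : ℕ) (hk : 1 ≤ k) (γ : ℕ → ℂ) (hγ : ∑ h ∈ range k, ‖γ h‖ ^ 2 ≤ 1) :
    ∑ l ∈ Icc 1 M', ‖γ (l % k)‖ ^ 2 ≤ (M' : ℝ) / k + 1 := by
  have hsub : Icc 1 M' ⊆ range (k * (M' / k + 1)) := by
    intro l hl
    rw [mem_Icc] at hl
    rw [mem_range]
    have := Nat.lt_mul_div_succ M' (show 0 < k by omega)
    omega
  calc ∑ l ∈ Icc 1 M', ‖γ (l % k)‖ ^ 2 ≤ ∑ l ∈ range (k * (M' / k + 1)), ‖γ (l % k)‖ ^ 2 :=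
        sum_le_sum_of_subset_of_nonneg hsub fun _ _ _ => by positivity
    _ = ∑ ν ∈ range (M' / k + 1), ∑ h ∈ range k, ‖γ ((h + k * ν) % k)‖ ^ 2 :=
        (blocks (fun l => ‖γ (l % k)‖ ^ 2) k (M' / k + 1)).symm
    _ ≤ ∑ ν ∈ range (M' / k + 1), (1 : ℝ) := by
        apply sum_le_sum
        intro ν _
        refine le_trans (le_of_eq ?_) hγ
        apply sum_congr rfl
        intro h hh
        rw [Nat.add_mul_mod_self_left, Nat.mod_eq_of_lt (mem_range.1 hh)]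
    _ = ((M' / k : ℕ) : ℝ) + 1 := by
        rw [sum_const, card_range, nsmul_eq_mul, mul_one]
        push_cast
        rfl
    _ ≤ _ := by
        have := Nat.cast_div_le (α := ℝ) (m := M') (n := k)
        linarith

end Pool.Agent.Helper81K1.MP
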