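import Pool.Agent.Helper81K1.MP.Main1

set_option autoImplicit false

/-!
# The moments of the dual sum over a dyadic block
-/

namespace Pool.Agent.Helper81K1.MP

open Finset MeasureTheory
open Pool.Agent.Helper523.UF (e e_norm e_add e_neg e_int e_nat e_zero e_nat_mul)

/-- the main term -/
noncomputable def SS (N k : ℕ) (th : ℝ) (γ : ℕ → ℂ) (a b : ℕ) (t : ℕ) : ℂ :=
  ∑ l ∈ Ioc ⌊(k : ℝ) * t / (16 * Real.pi * N)⌋₊ ⌊(k : ℝ) * t / (Real.pi * N)⌋₊,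
    γ (l % k) * Jf t (la k th l) a b

theorem log_small (η : ℝ) (hη : 0 < η) : ∃ C : ℝ, 1 ≤ C ∧ ∀ N : ℕ, 1 ≤ N →
    1 + Real.log (5 * (N : ℝ) ^ 2) ≤ C * (N : ℝ) ^ η := by
  refine ⟨3 + 2 / η, by have : 0 < 2 / η := by positivity
                        linarith, fun N hN => ?_⟩
  have hN1 : (1 : ℝ) ≤ N := by exact_mod_cast hN
  have hN0 : (0 : ℝ) < N := by linarith
  have h1 : Real.log (5 * (N : ℝ) ^ 2) = Real.log 5 + 2 * Real.log N := by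
    rw [Real.log_mul (by norm_num) (by positivity), Real.log_pow]
    push_cast
    ring
  have h5 : Real.log 5 ≤ 2 := by
    rw [Real.log_le_iff_le_exp (by norm_num)]
    have h2 := Real.exp_one_gt_d9
    have h3 : Real.exp 2 = Real.exp 1 * Real.exp 1 := by rw [← Real.exp_add]; norm_num
    rw [h3]
    nlinarith
  have h2 : Real.log N ≤ (N : ℝ) ^ η / η := Real.log_le_rpow_div hN0.le hη
  have h3 : 1 ≤ (N : ℝ) ^ η := Real.one_le_rpow hN1 hη.le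
  rw [h1]
  have h4 : (3 + 2 / η) * (N : ℝ) ^ η = 3 * (N : ℝ) ^ η + 2 * ((N : ℝ) ^ η / η) := by ring
  rw [h4]
  linarith

/-- the block, from the moments of the completed polynomials -/
theorem block (δ K2 K4 : ℝ) (hδ : 0 < δ) (hK2 : 0 ≤ K2) (hK4 : 0 ≤ K4) : ∃ K : ℝ, 1 ≤ K ∧
    ∀ (N k T0 T a b : ℕ) (th : ℝ) (γ : ℕ → ℂ), 1 ≤ N → 1 ≤ k → N ≤ T → k ^ 2 * T ≤ N ^ 2 → 1 ≤ T0 → T0 ≤ T →
    N ≤ a → a ≤ b → b ≤ 2 * N → 0 ≤ th → th < 1 →
    (∀ r, ∑ t ∈ Ico T0 (2 * T0), ‖PP k th γ (⌊2 * (k : ℝ) * T0 / (Real.pi * N)⌋₊ + 1) r t‖ ^ 2 ≤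
      K2 * (N : ℝ) ^ (2 * (δ / 10)) * T0 * ((T0 : ℝ) / N + 2)) →
    (∀ r, ∑ t ∈ Ico T0 (2 * T0), ‖PP k th γ (⌊2 * (k : ℝ) * T0 / (Real.pi * N)⌋₊ + 1) r t‖ ^ 4 ≤
      K4 * (N : ℝ) ^ (2 * (δ / 10)) * T0 * ((T0 : ℝ) / N + 2) ^ 2) →
    ∑ t ∈ (Ico T0 (2 * T0)).filter (fun t => t ≤ T), ‖SS N k th γ a b t‖ ^ 2 ≤
      K * (N : ℝ) ^ δ * ((N : ℝ) ^ 2 * ((T0 : ℝ) / N + 2)) ∧
    ∑ t ∈ (Ico T0 (2 * T0)).filter (fun t => t ≤ T), ‖SS N k th γ a b t‖ ^ 4 ≤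
      K * (N : ℝ) ^ δ * ((N : ℝ) ^ 4 / T0 * ((T0 : ℝ) / N + 2) ^ 2) := by
  obtain ⟨C, hC1, hC⟩ := log_small (δ / 10) (by positivity)
  refine ⟨6171 ^ 4 * 16 * (K2 + K4) * C ^ 8 + 1, by
    have : 0 ≤ 6171 ^ 4 * 16 * (K2 + K4) * C ^ 8 := by positivity
    linarith, ?_⟩
  intro N k T0 T a b th γ hN hk hNT hkT hT0 hT0T hNa hab hb hth0 hth1 hP2 hP4
  have hpi := Real.pi_pos
  have hpi3 := Real.pi_gt_three
  have hN1 : (1 : ℝ) ≤ N := by exact_mod_cast hN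
  have hN0 : (0 : ℝ) < N := by linarith
  have hk0 : (0 : ℝ) < k := by exact_mod_cast (by omega : 0 < k)
  have hk1 : (1 : ℝ) ≤ k := by exact_mod_cast hk
  have hT01 : (1 : ℝ) ≤ T0 := by exact_mod_cast hT0
  have hT00 : (0 : ℝ) < T0 := by linarith
  have hTN : (T : ℝ) ≤ (N : ℝ) ^ 2 := by
    have h1 : T ≤ N ^ 2 := (Nat.le_mul_of_pos_left T (by positivity)).trans hkT
    exact_mod_cast h1
  have hT0T' : (T0 : ℝ) ≤ T := by exact_mod_cast hT0T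
  have hkT0 : (k : ℝ) ^ 2 * T0 ≤ (N : ℝ) ^ 2 := by
    have : (k : ℝ) ^ 2 * T ≤ (N : ℝ) ^ 2 := by exact_mod_cast hkT
    nlinarith [sq_nonneg (k : ℝ)]
  have hkN : k ≤ N := by
    have h1 : k ^ 2 * 1 ≤ k ^ 2 * T := Nat.mul_le_mul_left _ (by omega)
    nlinarith
  obtain ⟨M', hM'⟩ : ∃ M' : ℕ, M' = ⌊2 * (k : ℝ) * T0 / (Real.pi * N)⌋₊ + 1 := ⟨_, rfl⟩
  rw [← hM'] at hP2 hP4
  -- bounds for `M'`
  have hM1 : (M' : ℝ) ≤ k * T0 / N + 1 := by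
    rw [hM']
    push_cast
    have h1 := Nat.floor_le (a := 2 * (k : ℝ) * T0 / (Real.pi * N)) (by positivity)
    have h2 : 2 * (k : ℝ) * T0 / (Real.pi * N) ≤ k * T0 / N := by
      rw [div_le_div_iff₀ (by positivity) hN0]
      have h3 : 0 ≤ (k : ℝ) * T0 * N := by positivity
      nlinarith
    linarith
  have hsq : ((k : ℝ) * T0 / N) ^ 2 ≤ T0 := by
    rw [div_pow, div_le_iff₀ (by positivity)]
    nlinarith
  have hx0 : 0 ≤ (k : ℝ) * T0 / N := by positivity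
  have hM2 : (M' : ℝ) ≤ 2 * T0 := by nlinarith
  obtain ⟨Lg, hLg⟩ : ∃ Lg : ℝ, Lg = 1 + Real.log (5 * (N : ℝ) ^ 2) := ⟨_, rfl⟩
  have hLg1 : 1 ≤ Lg := by
    rw [hLg]
    have : 0 ≤ Real.log (5 * (N : ℝ) ^ 2) := Real.log_nonneg (by nlinarith)
    linarith
  have hLgC : Lg ≤ C * (N : ℝ) ^ (δ / 10) := by rw [hLg]; exact hC N hN
  have hM'5 : ((M' + 1 : ℕ) : ℝ) ≤ 5 * (N : ℝ) ^ 2 := by
    push_cast
    linarith
  have hΩ : ∑ r ∈ range (M' + 1), wr (M' + 1) r ≤ 2 * Lg := by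
    refine (wr_sum (M' + 1) (by omega)).trans ?_
    rw [hLg]
    have : Real.log ((M' + 1 : ℕ) : ℝ) ≤ Real.log (5 * (N : ℝ) ^ 2) := Real.log_le_log (by positivity) hM'5
    linarith
  have hsT0 : 0 < Real.sqrt T0 := Real.sqrt_pos.2 hT00
  have hF : ∀ t ∈ (Ico T0 (2 * T0)).filter (fun t => t ≤ T), ‖SS N k th γ a b t‖ ≤
      (6171 * (N / Real.sqrt T0) * Lg) * ∑ r ∈ range (M' + 1), wr (M' + 1) r * ‖PP k th γ M' r t‖ := by
    intro t ht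
    rw [mem_filter, mem_Ico] at ht
    have ht1 : (1 : ℝ) ≤ t := by exact_mod_cast (by omega : 1 ≤ t)
    have htT0 : (T0 : ℝ) ≤ t := by exact_mod_cast ht.1.1
    have htT0' : (t : ℝ) ≤ 2 * T0 := by exact_mod_cast ht.1.2.le
    have hkt : (k : ℝ) * Real.sqrt t ≤ N := by
      have h1 : (k : ℝ) ^ 2 * t ≤ (N : ℝ) ^ 2 := by
        have h2 : k ^ 2 * t ≤ N ^ 2 := (Nat.mul_le_mul_left _ ht.2).trans hkT
        exact_mod_cast h2
      have h3 : ((k : ℝ) * Real.sqrt t) ^ 2 ≤ (N : ℝ) ^ 2 := by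
        rw [mul_pow, Real.sq_sqrt (by linarith)]
        exact h1
      exact abs_le_of_sq_le_sq' h3 hN0.le |>.2
    have hm := main_le N k th t a b γ hN hk hth0 hth1 ht1 hkt hkN (by exact_mod_cast hNa)
      (by exact_mod_cast hab) (by exact_mod_cast hb) _ _ rfl rfl M' (by
        rw [hM']
        have : ⌊(k : ℝ) * t / (Real.pi * N)⌋₊ ≤ ⌊2 * (k : ℝ) * T0 / (Real.pi * N)⌋₊ := by
          apply Nat.floor_le_floor
          apply div_le_div_of_nonneg_right _ (by positivity)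
          nlinarith
        omega)
    unfold SS
    refine hm.trans ?_
    apply mul_le_mul_of_nonneg_right
    · have h1 : Real.sqrt T0 ≤ Real.sqrt t := Real.sqrt_le_sqrt htT0
      have h2 : (N : ℝ) / Real.sqrt t ≤ N / Real.sqrt T0 := div_le_div_of_nonneg_left hN0.le hsT0 h1
      have h3 : 1 + Real.log (t + 3) ≤ Lg := by
        rw [hLg]
        have : Real.log (t + 3) ≤ Real.log (5 * (N : ℝ) ^ 2) := by
          apply Real.log_le_log (by positivity)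
          have : (t : ℝ) ≤ T := by exact_mod_cast ht.2
          nlinarith
        linarith
      apply mul_le_mul _ h3 _ (by positivity)
      · exact mul_le_mul_of_nonneg_left h2 (by norm_num)
      · have : 0 ≤ Real.log ((t : ℝ) + 3) := Real.log_nonneg (by linarith)
        linarith
    · apply sum_nonneg
      intro r hr
      exact mul_nonneg (wr_nonneg _ _ (mem_range.1 hr)) (norm_nonneg _)
  have hNe : (N : ℝ) ^ (δ / 10) ≥ 1 := Real.one_le_rpow hN1 (by positivity)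
  have hw := weighted ((Ico T0 (2 * T0)).filter (fun t => t ≤ T)) (range (M' + 1)) (wr (M' + 1))
    (fun r t => ‖PP k th γ M' r t‖) (fun r hr => wr_nonneg _ _ (mem_range.1 hr)) (2 * Lg)
    (6171 * (N / Real.sqrt T0) * Lg) (K2 * (N : ℝ) ^ (2 * (δ / 10)) * T0 * ((T0 : ℝ) / N + 2))
    (K4 * (N : ℝ) ^ (2 * (δ / 10)) * T0 * ((T0 : ℝ) / N + 2) ^ 2) (fun _ _ => norm_nonneg _)
    (fun t => ‖SS N k th γ a b t‖) (fun _ => norm_nonneg _) (by positivity) (by positivity) (by positivity)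
    hF hΩ (fun r _ => (sum_le_sum_of_subset_of_nonneg (filter_subset _ _) fun _ _ _ => by positivity).trans (hP2 r))
    (fun r _ => (sum_le_sum_of_subset_of_nonneg (filter_subset _ _) fun _ _ _ => by positivity).trans (hP4 r))
  have hN2 : (N : ℝ) ^ (2 * (δ / 10)) = ((N : ℝ) ^ (δ / 10)) ^ 2 := by
    rw [← Real.rpow_natCast, ← Real.rpow_mul hN0.le]
    congr 1
    push_cast
    ring
  have hN10 : (N : ℝ) ^ δ = ((N : ℝ) ^ (δ / 10)) ^ 10 := by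
    rw [← Real.rpow_natCast, ← Real.rpow_mul hN0.le]
    congr 1
    push_cast
    ring
  obtain ⟨y, hy⟩ : ∃ y : ℝ, y = (N : ℝ) ^ (δ / 10) := ⟨_, rfl⟩
  rw [hN2, ← hy] at hw
  rw [← hy] at hLgC hNe
  rw [hN10, ← hy]
  have hss : Real.sqrt T0 ^ 2 = T0 := Real.sq_sqrt hT00.le
  have hss4 : Real.sqrt T0 ^ 4 = (T0 : ℝ) ^ 2 := by
    have : Real.sqrt T0 ^ 4 = (Real.sqrt T0 ^ 2) ^ 2 := by ring
    rw [this, hss]
  have hL0 : 0 ≤ Lg := by linarith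
  have hL8 : Lg ^ 8 ≤ (C * y) ^ 8 := pow_le_pow_left₀ hL0 hLgC 8
  have hL4 : Lg ^ 4 ≤ Lg ^ 8 := pow_le_pow_right₀ hLg1 (by norm_num)
  have hR0 : 0 ≤ (T0 : ℝ) / N + 2 := by positivity
  constructor
  · refine hw.1.trans ?_
    have e1 : (6171 * (N / Real.sqrt T0) * Lg) ^ 2 * (2 * Lg) ^ 2 * (K2 * y ^ 2 * T0 * ((T0 : ℝ) / N + 2)) =
        (6171 ^ 2 * 4 * K2 * Lg ^ 4 * y ^ 2) * ((N : ℝ) ^ 2 * ((T0 : ℝ) / N + 2)) := by
      rw [mul_pow, mul_pow, div_pow, hss]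
      field_simp
      ring
    rw [e1]
    apply mul_le_mul_of_nonneg_right _ (by positivity)
    calc 6171 ^ 2 * 4 * K2 * Lg ^ 4 * y ^ 2 ≤ 6171 ^ 2 * 4 * K2 * (C * y) ^ 8 * y ^ 2 := by
          apply mul_le_mul_of_nonneg_right _ (sq_nonneg _)
          apply mul_le_mul_of_nonneg_left (hL4.trans hL8) (by positivity)
      _ = (6171 ^ 2 * 4 * K2 * C ^ 8) * y ^ 10 := by ring
      _ ≤ (6171 ^ 4 * 16 * (K2 + K4) * C ^ 8 + 1) * y ^ 10 := by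
          apply mul_le_mul_of_nonneg_right _ (by positivity)
          have h1 : 0 ≤ K2 * C ^ 8 := by positivity
          have h2 : 0 ≤ K4 * C ^ 8 := by positivity
          nlinarith
  · refine hw.2.trans ?_
    have e1 : (6171 * (N / Real.sqrt T0) * Lg) ^ 4 * (2 * Lg) ^ 4 * (K4 * y ^ 2 * T0 * ((T0 : ℝ) / N + 2) ^ 2) =
        (6171 ^ 4 * 16 * K4 * Lg ^ 8 * y ^ 2) * ((N : ℝ) ^ 4 / T0 * ((T0 : ℝ) / N + 2) ^ 2) := by
      rw [mul_pow, mul_pow, div_pow, hss4]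
      field_simp
      ring
    rw [e1]
    apply mul_le_mul_of_nonneg_right _ (by positivity)
    calc 6171 ^ 4 * 16 * K4 * Lg ^ 8 * y ^ 2 ≤ 6171 ^ 4 * 16 * K4 * (C * y) ^ 8 * y ^ 2 := by
          apply mul_le_mul_of_nonneg_right _ (sq_nonneg _)
          apply mul_le_mul_of_nonneg_left hL8 (by positivity)
      _ = (6171 ^ 4 * 16 * K4 * C ^ 8) * y ^ 10 := by ring
      _ ≤ (6171 ^ 4 * 16 * (K2 + K4) * C ^ 8 + 1) * y ^ 10 := by
          apply mul_le_mul_of_nonneg_right _ (by positivity)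
          have h1 : 0 ≤ K2 * C ^ 8 := by positivity
          nlinarith

end Pool.Agent.Helper81K1.MP
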