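import Pool.Agent.Helper81K1.MP.Main2

set_option autoImplicit false

/-!
# The inequality for exponents between 2 and 4
-/

namespace Pool.Agent.Helper81K1.MP

open Finset MeasureTheory
open Pool.Agent.Helper523.UF (e e_norm e_add e_neg e_int e_nat e_zero e_nat_mul)

theorem interp2 (X Y x y G μ : ℝ) (hμ0 : 0 ≤ μ) (hμ1 : μ ≤ 1) (hX0 : 0 ≤ X) (hY0 : 0 ≤ Y) (hG : 0 < G) (hx : 0 ≤ x)
    (hy : 0 ≤ y) (hX : X ≤ G * x) (hY : Y ≤ G * y) : X ^ (1 - μ) * Y ^ μ ≤ G * (x ^ (1 - μ) * y ^ μ) := by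
  calc X ^ (1 - μ) * Y ^ μ ≤ (G * x) ^ (1 - μ) * (G * y) ^ μ :=
        mul_le_mul (Real.rpow_le_rpow hX0 hX (by linarith)) (Real.rpow_le_rpow hY0 hY hμ0) (by positivity)
          (by positivity)
    _ = (G ^ (1 - μ) * G ^ μ) * (x ^ (1 - μ) * y ^ μ) := by
        rw [Real.mul_rpow hG.le hx, Real.mul_rpow hG.le hy]
        ring
    _ = _ := by
        rw [← Real.rpow_add hG, sub_add_cancel, Real.rpow_one]

/-- interpolation in one block -/
theorem block_q (q : ℝ) (hq2 : 2 ≤ q) (hq4 : q ≤ 4) (S : Finset ℕ) (F : ℕ → ℝ) (hF : ∀ t, 0 ≤ F t) (N T0 : ℕ)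
    (hN : 1 ≤ N) (hT0 : 1 ≤ T0) (G : ℝ) (hG : 0 < G)
    (h2 : ∑ t ∈ S, F t ^ 2 ≤ G * ((N : ℝ) ^ 2 * ((T0 : ℝ) / N + 2)))
    (h4 : ∑ t ∈ S, F t ^ 4 ≤ G * ((N : ℝ) ^ 4 / T0 * ((T0 : ℝ) / N + 2) ^ 2)) :
    ∑ t ∈ S, F t ^ q ≤ 9 * G * ((N : ℝ) ^ q + (N : ℝ) ^ (q / 2) * T0) := by
  have hN1 : (1 : ℝ) ≤ N := by exact_mod_cast hN
  have hN0 : (0 : ℝ) < N := by linarith
  have hT01 : (1 : ℝ) ≤ T0 := by exact_mod_cast hT0
  have hT00 : (0 : ℝ) < T0 := by linarith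
  obtain ⟨μ, hμ⟩ : ∃ μ : ℝ, μ = (q - 2) / 2 := ⟨_, rfl⟩
  have hμ0 : 0 ≤ μ := by rw [hμ]; linarith
  have hμ1 : μ ≤ 1 := by rw [hμ]; linarith
  have hqμ : (1 - μ) * 2 + μ * 4 = q := by rw [hμ]; ring
  have hh := Pool.Agent.Helper81K1.MQ.holder S F hF 2 4 μ (by norm_num) (by norm_num) hμ0 hμ1 (by rw [hqμ]; linarith)
  rw [hqμ] at hh
  have e2 : ∑ t ∈ S, F t ^ (2 : ℝ) = ∑ t ∈ S, F t ^ 2 := by
    apply sum_congr rfl
    intro t _
    exact_mod_cast Real.rpow_natCast (F t) 2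
  have e4 : ∑ t ∈ S, F t ^ (4 : ℝ) = ∑ t ∈ S, F t ^ 4 := by
    apply sum_congr rfl
    intro t _
    exact_mod_cast Real.rpow_natCast (F t) 4
  rw [e2, e4] at hh
  have hX0 : 0 ≤ ∑ t ∈ S, F t ^ 2 := sum_nonneg fun t _ => sq_nonneg _
  have hY0 : 0 ≤ ∑ t ∈ S, F t ^ 4 := sum_nonneg fun t _ => by positivity
  refine hh.trans ?_
  rcases le_total (N : ℝ) T0 with hc | hc
  · have hr : (T0 : ℝ) / N + 2 ≤ 3 * (T0 / N) := by
      have : 1 ≤ (T0 : ℝ) / N := by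
        rw [le_div_iff₀ hN0]
        linarith
      linarith
    have hX : ∑ t ∈ S, F t ^ 2 ≤ (9 * G) * (N * T0) := by
      refine h2.trans ?_
      calc G * ((N : ℝ) ^ 2 * ((T0 : ℝ) / N + 2)) ≤ G * ((N : ℝ) ^ 2 * (3 * (T0 / N))) := by
            apply mul_le_mul_of_nonneg_left _ hG.le
            exact mul_le_mul_of_nonneg_left hr (by positivity)
        _ = 3 * G * (N * T0) := by
            field_simp
        _ ≤ _ := by
            apply mul_le_mul_of_nonneg_right _ (by positivity)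
            linarith
    have hY : ∑ t ∈ S, F t ^ 4 ≤ (9 * G) * (N ^ 2 * T0) := by
      refine h4.trans ?_
      calc G * ((N : ℝ) ^ 4 / T0 * ((T0 : ℝ) / N + 2) ^ 2) ≤ G * ((N : ℝ) ^ 4 / T0 * (3 * (T0 / N)) ^ 2) := by
            apply mul_le_mul_of_nonneg_left _ hG.le
            apply mul_le_mul_of_nonneg_left _ (by positivity)
            exact pow_le_pow_left₀ (by positivity) hr 2
        _ = (9 * G) * (N ^ 2 * T0) := by
            field_simp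
            ring
    refine (interp2 _ _ _ _ (9 * G) μ hμ0 hμ1 hX0 hY0 (by positivity) (by positivity) (by positivity) hX hY).trans ?_
    apply mul_le_mul_of_nonneg_left _ (by positivity)
    have e5 : ((N : ℝ) * T0) ^ (1 - μ) * ((N : ℝ) ^ 2 * T0) ^ μ = (N : ℝ) ^ (q / 2) * T0 := by
      rw [Real.mul_rpow hN0.le hT00.le, Real.mul_rpow (by positivity) hT00.le, ← Real.rpow_natCast (N : ℝ) 2,
        ← Real.rpow_mul hN0.le]
      have e6 : (N : ℝ) ^ (1 - μ) * (T0 : ℝ) ^ (1 - μ) * ((N : ℝ) ^ (((2 : ℕ) : ℝ) * μ) * (T0 : ℝ) ^ μ) =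
          ((N : ℝ) ^ (1 - μ) * (N : ℝ) ^ (((2 : ℕ) : ℝ) * μ)) * ((T0 : ℝ) ^ (1 - μ) * (T0 : ℝ) ^ μ) := by ring
      rw [e6, ← Real.rpow_add hN0, ← Real.rpow_add hT00, sub_add_cancel, Real.rpow_one]
      congr 2
      rw [hμ]
      push_cast
      ring
    rw [e5]
    have : 0 ≤ (N : ℝ) ^ q := by positivity
    linarith
  · have hr : (T0 : ℝ) / N + 2 ≤ 3 := by
      have : (T0 : ℝ) / N ≤ 1 := by
        rw [div_le_one hN0]
        exact hc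
      linarith
    have hX : ∑ t ∈ S, F t ^ 2 ≤ (9 * G) * (N ^ 2) := by
      refine h2.trans ?_
      calc G * ((N : ℝ) ^ 2 * ((T0 : ℝ) / N + 2)) ≤ G * ((N : ℝ) ^ 2 * 3) := by
            apply mul_le_mul_of_nonneg_left _ hG.le
            exact mul_le_mul_of_nonneg_left hr (by positivity)
        _ = 3 * G * (N ^ 2) := by ring
        _ ≤ _ := by
            apply mul_le_mul_of_nonneg_right _ (by positivity)
            linarith
    have hY : ∑ t ∈ S, F t ^ 4 ≤ (9 * G) * (N ^ 4) := by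
      refine h4.trans ?_
      calc G * ((N : ℝ) ^ 4 / T0 * ((T0 : ℝ) / N + 2) ^ 2) ≤ G * ((N : ℝ) ^ 4 * 3 ^ 2) := by
            apply mul_le_mul_of_nonneg_left _ hG.le
            apply mul_le_mul _ (pow_le_pow_left₀ (by positivity) hr 2) (by positivity) (by positivity)
            exact div_le_self (by positivity) hT01
        _ = (9 * G) * (N ^ 4) := by ring
    refine (interp2 _ _ _ _ (9 * G) μ hμ0 hμ1 hX0 hY0 (by positivity) (by positivity) (by positivity) hX hY).trans ?_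
    apply mul_le_mul_of_nonneg_left _ (by positivity)
    have e5 : ((N : ℝ) ^ 2) ^ (1 - μ) * ((N : ℝ) ^ 4) ^ μ = (N : ℝ) ^ q := by
      rw [← Real.rpow_natCast (N : ℝ) 2, ← Real.rpow_natCast (N : ℝ) 4, ← Real.rpow_mul hN0.le,
        ← Real.rpow_mul hN0.le, ← Real.rpow_add hN0]
      congr 1
      push_cast
      linarith
    rw [e5]
    have : 0 ≤ (N : ℝ) ^ (q / 2) * T0 := by positivity
    linarith

/-- dyadic decomposition -/
theorem dyadic (T : ℕ) (F : ℕ → ℝ) (hF : ∀ t, 0 ≤ F t) :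
    ∑ t ∈ Icc 1 T, F t ≤ ∑ j ∈ range (Nat.log 2 T + 1),
      ∑ t ∈ (Ico (2 ^ j) (2 * 2 ^ j)).filter (fun t => t ≤ T), F t := by
  rw [← Finset.sum_fiberwise_of_maps_to (s := Icc 1 T) (t := range (Nat.log 2 T + 1)) (g := fun t => Nat.log 2 t)]
  · apply sum_le_sum
    intro j _
    apply sum_le_sum_of_subset_of_nonneg
    · intro t ht
      rw [mem_filter, mem_Icc] at ht
      obtain ⟨⟨h1, h2⟩, h3⟩ := ht
      rw [mem_filter, mem_Ico]
      refine ⟨⟨?_, ?_⟩, h2⟩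
      · rw [← h3]
        exact Nat.pow_log_le_self 2 (by omega)
      · have := Nat.lt_pow_succ_log_self (b := 2) (by norm_num) t
        rw [h3, pow_succ] at this
        omega
    · intro t _ _
      exact hF t
  · intro t ht
    rw [mem_Icc] at ht
    rw [mem_range]
    have := Nat.log_mono_right (b := 2) ht.2
    omega

theorem J_le (N T : ℕ) (hN : 1 ≤ N) (hT : 1 ≤ T) (hTN : T ≤ N ^ 2) :
    ((Nat.log 2 T + 1 : ℕ) : ℝ) ≤ 2 * (1 + Real.log (5 * (N : ℝ) ^ 2)) := by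
  have hN1 : (1 : ℝ) ≤ N := by exact_mod_cast hN
  have hN0 : (0 : ℝ) < N := by linarith
  have h1 : 2 ^ (Nat.log 2 T) ≤ N ^ 2 := (Nat.pow_log_le_self 2 (by omega)).trans hTN
  have h2 : ((2 : ℝ)) ^ (Nat.log 2 T) ≤ (N : ℝ) ^ 2 := by exact_mod_cast h1
  have h3 : (Nat.log 2 T : ℝ) * Real.log 2 ≤ 2 * Real.log N := by
    have := Real.log_le_log (by positivity) h2
    rw [Real.log_pow, Real.log_pow] at this
    push_cast at this
    exact this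
  have h4 : Real.log (5 * (N : ℝ) ^ 2) = Real.log 5 + 2 * Real.log N := by
    rw [Real.log_mul (by norm_num) (by positivity), Real.log_pow]
    push_cast
    ring
  have h5 : 0 ≤ Real.log 5 := Real.log_nonneg (by norm_num)
  have h6 : 0.6931471803 < Real.log 2 := Real.log_two_gt_d9
  have h7 : (0 : ℝ) ≤ Nat.log 2 T := Nat.cast_nonneg _
  rw [h4]
  push_cast
  nlinarith

/-- the main terms -/
theorem main_q (q δ K2 K4 : ℝ) (hq2 : 2 ≤ q) (hq4 : q ≤ 4) (hδ : 0 < δ) (hK2 : 0 ≤ K2) (hK4 : 0 ≤ K4) :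
    ∃ K : ℝ, 1 ≤ K ∧
    ∀ (N k T a b : ℕ) (th : ℝ) (γ : ℕ → ℂ), 1 ≤ N → 1 ≤ k → N ≤ T → k ^ 2 * T ≤ N ^ 2 →
    N ≤ a → a ≤ b → b ≤ 2 * N → 0 ≤ th → th < 1 →
    (∀ T0, 1 ≤ T0 → T0 ≤ T → ∀ r,
      ∑ t ∈ Ico T0 (2 * T0), ‖PP k th γ (⌊2 * (k : ℝ) * T0 / (Real.pi * N)⌋₊ + 1) r t‖ ^ 2 ≤
      K2 * (N : ℝ) ^ (2 * (δ / 10)) * T0 * ((T0 : ℝ) / N + 2)) →
    (∀ T0, 1 ≤ T0 → T0 ≤ T → ∀ r,
      ∑ t ∈ Ico T0 (2 * T0), ‖PP k th γ (⌊2 * (k : ℝ) * T0 / (Real.pi * N)⌋₊ + 1) r t‖ ^ 4 ≤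
      K4 * (N : ℝ) ^ (2 * (δ / 10)) * T0 * ((T0 : ℝ) / N + 2) ^ 2) →
    ∑ t ∈ Icc 1 T, ‖SS N k th γ a b t‖ ^ q ≤
      K * (N : ℝ) ^ (2 * δ) * ((N : ℝ) ^ q + (N : ℝ) ^ (q / 2) * T) := by
  obtain ⟨K, hK1, hK⟩ := block δ K2 K4 hδ hK2 hK4
  obtain ⟨C, hC1, hC⟩ := log_small δ hδ
  refine ⟨18 * K * C, by nlinarith, ?_⟩
  intro N k T a b th γ hN hk hNT hkT hNa hab hb hth0 hth1 hP2 hP4
  have hN1 : (1 : ℝ) ≤ N := by exact_mod_cast hN
  have hN0 : (0 : ℝ) < N := by linarith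
  have hTN : T ≤ N ^ 2 := (Nat.le_mul_of_pos_left T (by positivity)).trans hkT
  have hb1 := dyadic T (fun t => ‖SS N k th γ a b t‖ ^ q) (fun t => by positivity)
  refine hb1.trans ?_
  calc ∑ j ∈ range (Nat.log 2 T + 1), ∑ t ∈ (Ico (2 ^ j) (2 * 2 ^ j)).filter (fun t => t ≤ T),
        ‖SS N k th γ a b t‖ ^ q
      ≤ ∑ j ∈ range (Nat.log 2 T + 1), 9 * (K * (N : ℝ) ^ δ) * ((N : ℝ) ^ q + (N : ℝ) ^ (q / 2) * T) := by
        apply sum_le_sum
        intro j hj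
        rw [mem_range] at hj
        have hjT : 2 ^ j ≤ T := (Nat.pow_le_pow_right (by norm_num) (by omega)).trans
          (Nat.pow_log_le_self 2 (by omega))
        have hj1 : 1 ≤ 2 ^ j := Nat.one_le_pow _ _ (by norm_num)
        have h1 := hK N k (2 ^ j) T a b th γ hN hk hNT hkT hj1 hjT hNa hab hb hth0 hth1 (hP2 _ hj1 hjT)
          (hP4 _ hj1 hjT)
        have h2 := block_q q hq2 hq4 ((Ico (2 ^ j) (2 * 2 ^ j)).filter (fun t => t ≤ T))
          (fun t => ‖SS N k th γ a b t‖) (fun _ => norm_nonneg _) N (2 ^ j) hN hj1 (K * (N : ℝ) ^ δ)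
          (by positivity) h1.1 h1.2
        refine h2.trans ?_
        apply mul_le_mul_of_nonneg_left _ (by positivity)
        have : (((2 ^ j : ℕ)) : ℝ) ≤ T := by exact_mod_cast hjT
        have h3 : (N : ℝ) ^ (q / 2) * ((2 ^ j : ℕ) : ℝ) ≤ (N : ℝ) ^ (q / 2) * T :=
          mul_le_mul_of_nonneg_left this (by positivity)
        linarith
    _ = ((Nat.log 2 T + 1 : ℕ) : ℝ) * (9 * (K * (N : ℝ) ^ δ) * ((N : ℝ) ^ q + (N : ℝ) ^ (q / 2) * T)) := by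
        rw [sum_const, card_range, nsmul_eq_mul]
    _ ≤ (2 * (C * (N : ℝ) ^ δ)) * (9 * (K * (N : ℝ) ^ δ) * ((N : ℝ) ^ q + (N : ℝ) ^ (q / 2) * T)) := by
        apply mul_le_mul_of_nonneg_right _ (by positivity)
        refine (J_le N T hN (by omega) hTN).trans ?_
        have := hC N hN
        linarith
    _ = _ := by
        have e1 : (N : ℝ) ^ (2 * δ) = (N : ℝ) ^ δ * (N : ℝ) ^ δ := by
          rw [← Real.rpow_add hN0]
          congr 1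
          ring
        rw [e1]
        ring

end Pool.Agent.Helper81K1.MP
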