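import Pool.Agent.Helper81K1.MP.Main3

set_option autoImplicit false

/-!
# The inequality for the sums over an interval
-/

namespace Pool.Agent.Helper81K1.MP

open Finset MeasureTheory
open Pool.Agent.Helper523.UF (e e_norm e_add e_neg e_int e_nat e_zero e_nat_mul)

theorem add3 (q x y z : ℝ) (hq : 0 ≤ q) (hx : 0 ≤ x) (hy : 0 ≤ y) (hz : 0 ≤ z) :
    (x + y + z) ^ q ≤ 3 ^ q * (x ^ q + y ^ q + z ^ q) := by
  obtain ⟨m, hm⟩ : ∃ m, m = max x (max y z) := ⟨_, rfl⟩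
  have h1 : x ≤ m := by rw [hm]; exact le_max_left _ _
  have h2 : y ≤ m := by rw [hm]; exact (le_max_left _ _).trans (le_max_right _ _)
  have h3 : z ≤ m := by rw [hm]; exact (le_max_right _ _).trans (le_max_right _ _)
  have h4 : m ^ q ≤ x ^ q + y ^ q + z ^ q := by
    have hx' : 0 ≤ x ^ q := Real.rpow_nonneg hx q
    have hy' : 0 ≤ y ^ q := Real.rpow_nonneg hy q
    have hz' : 0 ≤ z ^ q := Real.rpow_nonneg hz q
    rw [hm]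
    rcases max_choice x (max y z) with h | h
    · rw [h]; linarith
    · rw [h]
      rcases max_choice y z with h' | h'
      · rw [h']; linarith
      · rw [h']; linarith
  calc (x + y + z) ^ q ≤ (3 * m) ^ q := Real.rpow_le_rpow (by linarith) (by linarith) hq
    _ = 3 ^ q * m ^ q := Real.mul_rpow (by norm_num) (by linarith)
    _ ≤ _ := mul_le_mul_of_nonneg_left h4 (by positivity)

/-- the polynomial -/
noncomputable def DA (k : ℕ) (th : ℝ) (γ : ℕ → ℂ) (a b : ℕ) (t : ℝ) : ℂ :=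
  ∑ n ∈ Ioc a b, bb k th γ n * e (t / (2 * Real.pi) * Real.log n)

theorem DA_le (N k : ℕ) (th : ℝ) (γ : ℕ → ℂ) (a b : ℕ) (t : ℝ) (hNa : N ≤ a) (hab : a ≤ b) (hb : b ≤ 2 * N)
    (hbb : ∀ n, ‖bb k th γ n‖ ≤ 1) : ‖DA k th γ a b t‖ ≤ N := by
  unfold DA
  calc ‖∑ n ∈ Ioc a b, bb k th γ n * e (t / (2 * Real.pi) * Real.log n)‖ ≤ ∑ n ∈ Ioc a b, (1 : ℝ) := by
        apply norm_sum_le_of_le
        intro n _
        rw [norm_mul, e_norm, mul_one]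
        exact hbb n
    _ ≤ N := by
        rw [sum_const, Nat.card_Ioc, nsmul_eq_mul, mul_one]
        exact_mod_cast (by omega : b - a ≤ N)

theorem sum_inv (T : ℕ) (hT : 1 ≤ T) : ∑ t ∈ Icc 1 T, 1 / (t : ℝ) ≤ 1 + Real.log T := by
  obtain ⟨T', rfl⟩ : ∃ T', T = T' + 1 := ⟨T - 1, by omega⟩
  rw [← Ico_add_one_right_eq_Icc, sum_Ico_eq_sum_range, Nat.add_sub_cancel]
  refine le_trans (le_of_eq ?_) (harm T' |>.trans (le_of_eq ?_))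
  · apply sum_congr rfl
    intro j _
    push_cast
    rfl
  · push_cast
    rfl

/-- exponents between 2 and 4 -/
theorem total_q (q δ K2 K4 : ℝ) (hq2 : 2 ≤ q) (hq4 : q ≤ 4) (hδ : 0 < δ) (hK2 : 0 ≤ K2) (hK4 : 0 ≤ K4) :
    ∃ K : ℝ, 1 ≤ K ∧
    ∀ (N k T a b : ℕ) (th : ℝ) (γ : ℕ → ℂ), 1 ≤ N → 1 ≤ k → N ≤ T → k ^ 2 * T ≤ N ^ 2 →
    N ≤ a → a ≤ b → b ≤ 2 * N → 0 ≤ th → th < 1 → ∑ h ∈ range k, ‖γ h‖ ^ 2 ≤ 1 → (∀ n, ‖bb k th γ n‖ ≤ 1) →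
    (∀ T0, 1 ≤ T0 → T0 ≤ T → ∀ r,
      ∑ t ∈ Ico T0 (2 * T0), ‖PP k th γ (⌊2 * (k : ℝ) * T0 / (Real.pi * N)⌋₊ + 1) r t‖ ^ 2 ≤
      K2 * (N : ℝ) ^ (2 * (δ / 10)) * T0 * ((T0 : ℝ) / N + 2)) →
    (∀ T0, 1 ≤ T0 → T0 ≤ T → ∀ r,
      ∑ t ∈ Ico T0 (2 * T0), ‖PP k th γ (⌊2 * (k : ℝ) * T0 / (Real.pi * N)⌋₊ + 1) r t‖ ^ 4 ≤
      K4 * (N : ℝ) ^ (2 * (δ / 10)) * T0 * ((T0 : ℝ) / N + 2) ^ 2) →
    ∑ t ∈ Icc 1 T, ‖DA k th γ a b t‖ ^ q ≤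
      K * (N : ℝ) ^ (2 * δ) * ((N : ℝ) ^ q + (N : ℝ) ^ (q / 2) * T) := by
  obtain ⟨K, hK1, hK⟩ := main_q q δ K2 K4 hq2 hq4 hδ hK2 hK4
  obtain ⟨C, hC1, hC⟩ := log_small (2 * δ) (by positivity)
  have h3q : 1 ≤ (3 : ℝ) ^ q := Real.one_le_rpow (by norm_num) (by linarith)
  refine ⟨3 ^ q * (K + 68 ^ q + 34 ^ q * C), by
    have h1 : 0 ≤ (68 : ℝ) ^ q := by positivity
    have h2 : 0 ≤ (34 : ℝ) ^ q * C := by positivity
    nlinarith, ?_⟩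
  intro N k T a b th γ hN hk hNT hkT hNa hab hb hth0 hth1 hγ hbb hP2 hP4
  have hN1 : (1 : ℝ) ≤ N := by exact_mod_cast hN
  have hN0 : (0 : ℝ) < N := by linarith
  have hT1 : 1 ≤ T := by omega
  have hTN : T ≤ N ^ 2 := (Nat.le_mul_of_pos_left T (by positivity)).trans hkT
  have hk2 : k ^ 2 ≤ N := by
    have h1 : k ^ 2 * N ≤ N * N := (Nat.mul_le_mul_left _ hNT).trans (by rw [← sq]; exact hkT)
    exact Nat.le_of_mul_le_mul_right h1 (by omega)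
  have hNδ : 1 ≤ (N : ℝ) ^ (2 * δ) := Real.one_le_rpow hN1 (by positivity)
  have hpt : ∀ t ∈ Icc 1 T, ‖DA k th γ a b t‖ ^ q ≤ 3 ^ q * (‖SS N k th γ a b t‖ ^ q + 68 ^ q * (N : ℝ) ^ (q / 2) +
      34 ^ q * (N : ℝ) ^ q * (1 / (t : ℝ))) := by
    intro t ht
    rw [mem_Icc] at ht
    have ht1 : (1 : ℝ) ≤ t := by exact_mod_cast ht.1
    have ht0 : (0 : ℝ) < t := by linarith
    have htN : (t : ℝ) ≤ (N : ℝ) ^ 2 := by exact_mod_cast ht.2.trans hTN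
    have hr := refl N k th t a b γ hN hk hk2 hth0 hth1 ht1 htN hNa hab hb hγ hbb _ _ rfl rfl
    have h1 : ‖DA k th γ a b t‖ ≤ ‖SS N k th γ a b t‖ + 68 * Real.sqrt N + 34 * (N / Real.sqrt t) := by
      have h2 : DA k th γ a b t = SS N k th γ a b t + (DA k th γ a b t - SS N k th γ a b t) := by ring
      rw [h2]
      refine (norm_add_le _ _).trans ?_
      have h3 : ‖DA k th γ a b t - SS N k th γ a b t‖ ≤ 68 * Real.sqrt N + 34 * (N / Real.sqrt t) := hr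
      linarith
    refine (Real.rpow_le_rpow (norm_nonneg _) h1 (by linarith)).trans ?_
    refine (add3 q _ _ _ (by linarith) (norm_nonneg _) (by positivity) (by positivity)).trans ?_
    apply mul_le_mul_of_nonneg_left _ (by positivity)
    have h4 : (68 * Real.sqrt N) ^ q = 68 ^ q * (N : ℝ) ^ (q / 2) := by
      rw [Real.mul_rpow (by norm_num) (Real.sqrt_nonneg _), Real.sqrt_eq_rpow, ← Real.rpow_mul hN0.le]
      congr 2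
      ring
    have h5 : (34 * ((N : ℝ) / Real.sqrt t)) ^ q ≤ 34 ^ q * (N : ℝ) ^ q * (1 / (t : ℝ)) := by
      rw [Real.mul_rpow (by norm_num) (by positivity), Real.div_rpow hN0.le (Real.sqrt_nonneg _), mul_assoc]
      apply mul_le_mul_of_nonneg_left _ (by positivity)
      rw [div_eq_mul_one_div]
      apply mul_le_mul_of_nonneg_left _ (by positivity)
      apply one_div_le_one_div_of_le ht0
      calc (t : ℝ) = Real.sqrt t ^ (2 : ℝ) := by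
            rw [Real.rpow_two, Real.sq_sqrt ht0.le]
        _ ≤ Real.sqrt t ^ q := Real.rpow_le_rpow_of_exponent_le (Real.one_le_sqrt.2 ht1) hq2
    rw [h4]
    linarith
  refine (sum_le_sum hpt).trans ?_
  rw [← mul_sum, sum_add_distrib, sum_add_distrib, sum_const, Nat.card_Icc, Nat.add_sub_cancel, nsmul_eq_mul,
    ← mul_sum]
  have h1 := hK N k T a b th γ hN hk hNT hkT hNa hab hb hth0 hth1 hP2 hP4
  have h2 := sum_inv T hT1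
  have h3 : 1 + Real.log T ≤ C * (N : ℝ) ^ (2 * δ) := by
    refine le_trans ?_ (hC N hN)
    have : Real.log T ≤ Real.log (5 * (N : ℝ) ^ 2) := by
      apply Real.log_le_log (by exact_mod_cast hT1)
      have : (T : ℝ) ≤ (N : ℝ) ^ 2 := by exact_mod_cast hTN
      nlinarith
    linarith
  have h4 : 34 ^ q * (N : ℝ) ^ q * ∑ t ∈ Icc 1 T, 1 / (t : ℝ) ≤ 34 ^ q * (N : ℝ) ^ q * (C * (N : ℝ) ^ (2 * δ)) :=
    mul_le_mul_of_nonneg_left (h2.trans h3) (by positivity)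
  have hA : 0 ≤ (N : ℝ) ^ q := by positivity
  have hB : 0 ≤ (N : ℝ) ^ (q / 2) * T := by positivity
  have h5 : (T : ℝ) * (68 ^ q * (N : ℝ) ^ (q / 2)) ≤ 68 ^ q * (N : ℝ) ^ (2 * δ) * ((N : ℝ) ^ q + (N : ℝ) ^ (q / 2) * T) := by
    calc (T : ℝ) * (68 ^ q * (N : ℝ) ^ (q / 2)) = 68 ^ q * 1 * ((N : ℝ) ^ (q / 2) * T) := by ring
      _ ≤ 68 ^ q * (N : ℝ) ^ (2 * δ) * ((N : ℝ) ^ q + (N : ℝ) ^ (q / 2) * T) := by
          apply mul_le_mul _ (by linarith) hB (by positivity)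
          exact mul_le_mul_of_nonneg_left hNδ (by positivity)
  have h6 : 34 ^ q * (N : ℝ) ^ q * (C * (N : ℝ) ^ (2 * δ)) ≤
      34 ^ q * C * (N : ℝ) ^ (2 * δ) * ((N : ℝ) ^ q + (N : ℝ) ^ (q / 2) * T) := by
    have : 34 ^ q * (N : ℝ) ^ q * (C * (N : ℝ) ^ (2 * δ)) = 34 ^ q * C * (N : ℝ) ^ (2 * δ) * (N : ℝ) ^ q := by ring
    rw [this]
    exact mul_le_mul_of_nonneg_left (by linarith) (by positivity)
  calc 3 ^ q * (∑ t ∈ Icc 1 T, ‖SS N k th γ a b t‖ ^ q + T * (68 ^ q * (N : ℝ) ^ (q / 2)) +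
        34 ^ q * (N : ℝ) ^ q * ∑ t ∈ Icc 1 T, 1 / (t : ℝ))
      ≤ 3 ^ q * (K * (N : ℝ) ^ (2 * δ) * ((N : ℝ) ^ q + (N : ℝ) ^ (q / 2) * T) +
        68 ^ q * (N : ℝ) ^ (2 * δ) * ((N : ℝ) ^ q + (N : ℝ) ^ (q / 2) * T) +
        34 ^ q * C * (N : ℝ) ^ (2 * δ) * ((N : ℝ) ^ q + (N : ℝ) ^ (q / 2) * T)) := by
        apply mul_le_mul_of_nonneg_left _ (by positivity)
        linarith
    _ = _ := by ring

/-- all exponents -/
theorem total (q δ K2 K4 : ℝ) (hq2 : 2 ≤ q) (hδ : 0 < δ) (hK2 : 0 ≤ K2) (hK4 : 0 ≤ K4) :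
    ∃ K : ℝ, 1 ≤ K ∧
    ∀ (N k T a b : ℕ) (th : ℝ) (γ : ℕ → ℂ), 1 ≤ N → 1 ≤ k → N ≤ T → k ^ 2 * T ≤ N ^ 2 →
    N ≤ a → a ≤ b → b ≤ 2 * N → 0 ≤ th → th < 1 → ∑ h ∈ range k, ‖γ h‖ ^ 2 ≤ 1 → (∀ n, ‖bb k th γ n‖ ≤ 1) →
    (∀ T0, 1 ≤ T0 → T0 ≤ T → ∀ r,
      ∑ t ∈ Ico T0 (2 * T0), ‖PP k th γ (⌊2 * (k : ℝ) * T0 / (Real.pi * N)⌋₊ + 1) r t‖ ^ 2 ≤
      K2 * (N : ℝ) ^ (2 * (δ / 10)) * T0 * ((T0 : ℝ) / N + 2)) →
    (∀ T0, 1 ≤ T0 → T0 ≤ T → ∀ r,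
      ∑ t ∈ Ico T0 (2 * T0), ‖PP k th γ (⌊2 * (k : ℝ) * T0 / (Real.pi * N)⌋₊ + 1) r t‖ ^ 4 ≤
      K4 * (N : ℝ) ^ (2 * (δ / 10)) * T0 * ((T0 : ℝ) / N + 2) ^ 2) →
    ∑ t ∈ Icc 1 T, ‖DA k th γ a b t‖ ^ q ≤
      K * (N : ℝ) ^ (2 * δ) * ((N : ℝ) ^ q + (N : ℝ) ^ (q / 2) * T) := by
  rcases le_total q 4 with hq4 | hq4
  · exact total_q q δ K2 K4 hq2 hq4 hδ hK2 hK4
  obtain ⟨K, hK1, hK⟩ := total_q 4 δ K2 K4 (by norm_num) le_rfl hδ hK2 hK4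
  refine ⟨2 * K, by linarith, ?_⟩
  intro N k T a b th γ hN hk hNT hkT hNa hab hb hth0 hth1 hγ hbb hP2 hP4
  have hN1 : (1 : ℝ) ≤ N := by exact_mod_cast hN
  have hN0 : (0 : ℝ) < N := by linarith
  have hTN : T ≤ N ^ 2 := (Nat.le_mul_of_pos_left T (by positivity)).trans hkT
  have hTN' : (T : ℝ) ≤ (N : ℝ) ^ 2 := by exact_mod_cast hTN
  have h1 := hK N k T a b th γ hN hk hNT hkT hNa hab hb hth0 hth1 hγ hbb hP2 hP4
  have hpt : ∀ t ∈ Icc 1 T, ‖DA k th γ a b t‖ ^ q ≤ (N : ℝ) ^ (q - 4) * ‖DA k th γ a b t‖ ^ (4 : ℝ) := by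
    intro t _
    have h2 := DA_le N k th γ a b t hNa hab hb hbb
    rcases (norm_nonneg (DA k th γ a b t)).lt_or_eq with h3 | h3
    · have e1 : q = (q - 4) + 4 := by ring
      conv_lhs => rw [e1]
      rw [Real.rpow_add h3]
      apply mul_le_mul_of_nonneg_right _ (by positivity)
      exact Real.rpow_le_rpow h3.le h2 (by linarith)
    · rw [← h3, Real.zero_rpow (by linarith), Real.zero_rpow (by norm_num), mul_zero]
  calc ∑ t ∈ Icc 1 T, ‖DA k th γ a b t‖ ^ q ≤ ∑ t ∈ Icc 1 T, (N : ℝ) ^ (q - 4) * ‖DA k th γ a b t‖ ^ (4 : ℝ) :=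
        sum_le_sum hpt
    _ = (N : ℝ) ^ (q - 4) * ∑ t ∈ Icc 1 T, ‖DA k th γ a b t‖ ^ (4 : ℝ) := by rw [mul_sum]
    _ ≤ (N : ℝ) ^ (q - 4) * (K * (N : ℝ) ^ (2 * δ) * ((N : ℝ) ^ (4 : ℝ) + (N : ℝ) ^ ((4 : ℝ) / 2) * T)) :=
        mul_le_mul_of_nonneg_left h1 (by positivity)
    _ ≤ (N : ℝ) ^ (q - 4) * (K * (N : ℝ) ^ (2 * δ) * (2 * (N : ℝ) ^ (4 : ℝ))) := by
        apply mul_le_mul_of_nonneg_left _ (by positivity)
        apply mul_le_mul_of_nonneg_left _ (by positivity)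
        have h4 : (N : ℝ) ^ ((4 : ℝ) / 2) * T ≤ (N : ℝ) ^ (4 : ℝ) := by
          have h5 : (N : ℝ) ^ (4 : ℝ) = (N : ℝ) ^ ((4 : ℝ) / 2) * (N : ℝ) ^ 2 := by
            rw [← Real.rpow_natCast (N : ℝ) 2, ← Real.rpow_add hN0]
            norm_num
          rw [h5]
          exact mul_le_mul_of_nonneg_left hTN' (by positivity)
        linarith
    _ = 2 * K * (N : ℝ) ^ (2 * δ) * (N : ℝ) ^ q := by
        have e2 : (N : ℝ) ^ q = (N : ℝ) ^ (q - 4) * (N : ℝ) ^ (4 : ℝ) := by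
          rw [← Real.rpow_add hN0]
          congr 1
          ring
        rw [e2]
        ring
    _ ≤ _ := by
        apply mul_le_mul_of_nonneg_left _ (by positivity)
        have : 0 ≤ (N : ℝ) ^ (q / 2) * T := by positivity
        linarith

end Pool.Agent.Helper81K1.MP
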