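import Pool.Agent.Helper81K1.MP.Poi

set_option autoImplicit false

/-!
# The oscillatory integrals
-/

namespace Pool.Agent.Helper81K1.MP

open Finset MeasureTheory
open Pool.Agent.Helper523.UF (e e_norm e_add e_neg e_int e_nat e_zero e_comp_hasDerivAt e_continuous
  first_deriv norm_int_neg second_deriv norm_int_trivial)

/-- the phase -/
noncomputable def Ph (t lam x : ℝ) : ℝ := t / (2 * Real.pi) * Real.log x - lam * x

/-- the integral of `x ^ {it} e(-lam x)` -/
noncomputable def Jf (t lam a b : ℝ) : ℂ := ∫ x in a..b, e (Ph t lam x)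

theorem Ph_deriv (t lam x : ℝ) (hx : 0 < x) : HasDerivAt (Ph t lam) (t / (2 * Real.pi) * x⁻¹ - lam) x := by
  unfold Ph
  have h1 := (Real.hasDerivAt_log hx.ne').const_mul (t / (2 * Real.pi))
  have h2 : HasDerivAt (fun x : ℝ => lam * x) lam x := by
    simpa using (hasDerivAt_id x).const_mul lam
  exact h1.sub h2

theorem Ph_deriv2 (t lam x : ℝ) (hx : 0 < x) :
    HasDerivAt (fun x => t / (2 * Real.pi) * x⁻¹ - lam) (t / (2 * Real.pi) * (-(x ^ 2)⁻¹)) x := by
  have h1 := (hasDerivAt_inv hx.ne').const_mul (t / (2 * Real.pi))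
  exact h1.sub_const lam

theorem cont2 (t a b : ℝ) (ha : 0 < a) :
    ContinuousOn (fun x : ℝ => t / (2 * Real.pi) * (-(x ^ 2)⁻¹)) (Set.Icc a b) := by
  apply ContinuousOn.mul continuousOn_const
  apply ContinuousOn.neg
  apply ContinuousOn.inv₀ (by fun_prop)
  intro x hx
  have : 0 < x := lt_of_lt_of_le ha hx.1
  positivity

/-- the derivative of the phase is large and positive -/
theorem osc_pos (t lam a b Y : ℝ) (ht : 0 < t) (ha : 0 < a) (hab : a ≤ b) (hY : 0 < Y)
    (h : Y ≤ t / (2 * Real.pi) * b⁻¹ - lam) : ‖Jf t lam a b‖ ≤ 1 / (Real.pi * Y) := by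
  have hpi := Real.pi_pos
  unfold Jf
  apply first_deriv hab hY (Ph t lam) (fun x => t / (2 * Real.pi) * x⁻¹ - lam)
    (fun x => t / (2 * Real.pi) * (-(x ^ 2)⁻¹))
  · intro x hx
    exact Ph_deriv t lam x (lt_of_lt_of_le ha hx.1)
  · intro x hx
    exact Ph_deriv2 t lam x (lt_of_lt_of_le ha hx.1)
  · exact cont2 t a b ha
  · intro x hx
    have hx0 : 0 < x := lt_of_lt_of_le ha hx.1
    have h1 : b⁻¹ ≤ x⁻¹ := inv_anti₀ hx0 hx.2
    have h2 : t / (2 * Real.pi) * b⁻¹ ≤ t / (2 * Real.pi) * x⁻¹ := mul_le_mul_of_nonneg_left h1 (by positivity)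
    linarith
  · right
    intro x hx
    have hx0 : 0 < x := lt_of_lt_of_le ha hx.1
    have : 0 ≤ t / (2 * Real.pi) * (x ^ 2)⁻¹ := by positivity
    linarith

/-- the derivative of the phase is large and negative -/
theorem osc_neg (t lam a b Y : ℝ) (ht : 0 < t) (ha : 0 < a) (hab : a ≤ b) (hY : 0 < Y)
    (h : t / (2 * Real.pi) * a⁻¹ - lam ≤ -Y) : ‖Jf t lam a b‖ ≤ 1 / (Real.pi * Y) := by
  have hpi := Real.pi_pos
  unfold Jf
  rw [norm_int_neg]
  apply first_deriv hab hY (fun x => -(Ph t lam x)) (fun x => -(t / (2 * Real.pi) * x⁻¹ - lam))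
    (fun x => -(t / (2 * Real.pi) * (-(x ^ 2)⁻¹)))
  · intro x hx
    exact (Ph_deriv t lam x (lt_of_lt_of_le ha hx.1)).neg
  · intro x hx
    exact (Ph_deriv2 t lam x (lt_of_lt_of_le ha hx.1)).neg
  · exact (cont2 t a b ha).neg
  · intro x hx
    have hx0 : 0 < x := lt_of_lt_of_le ha hx.1
    have h1 : x⁻¹ ≤ a⁻¹ := inv_anti₀ ha hx.1
    have h2 : t / (2 * Real.pi) * x⁻¹ ≤ t / (2 * Real.pi) * a⁻¹ := mul_le_mul_of_nonneg_left h1 (by positivity)
    linarith
  · left
    intro x hx
    have hx0 : 0 < x := lt_of_lt_of_le ha hx.1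
    have : 0 ≤ t / (2 * Real.pi) * (x ^ 2)⁻¹ := by positivity
    linarith

/-- the second derivative test -/
theorem osc2 (t lam a b R : ℝ) (ht : 0 < t) (ha : 0 < a) (hab : a ≤ b) (hbR : b ≤ R) :
    ‖Jf t lam a b‖ ≤ 8 * R / Real.sqrt t := by
  have hpi := Real.pi_pos
  have hR : 0 < R := by linarith
  unfold Jf
  rw [norm_int_neg]
  have h1 := second_deriv (μ := t / (2 * Real.pi * R ^ 2)) hab (by positivity) (fun x => -(Ph t lam x))
    (fun x => -(t / (2 * Real.pi) * x⁻¹ - lam)) (fun x => -(t / (2 * Real.pi) * (-(x ^ 2)⁻¹)))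
    (fun x hx => (Ph_deriv t lam x (lt_of_lt_of_le ha hx.1)).neg)
    (fun x hx => (Ph_deriv2 t lam x (lt_of_lt_of_le ha hx.1)).neg)
    (cont2 t a b ha).neg (fun x hx => by
      have hx0 : 0 < x := lt_of_lt_of_le ha hx.1
      have h2 : (R ^ 2)⁻¹ ≤ (x ^ 2)⁻¹ := by
        apply inv_anti₀ (by positivity)
        exact pow_le_pow_left₀ hx0.le (by linarith [hx.2]) 2
      have h3 : t / (2 * Real.pi) * (R ^ 2)⁻¹ ≤ t / (2 * Real.pi) * (x ^ 2)⁻¹ :=
        mul_le_mul_of_nonneg_left h2 (by positivity)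
      have h4 : t / (2 * Real.pi * R ^ 2) = t / (2 * Real.pi) * (R ^ 2)⁻¹ := by
        field_simp
      rw [h4]
      linarith)
  refine h1.trans ?_
  have hst : 0 < Real.sqrt t := Real.sqrt_pos.2 ht
  have h5 : Real.sqrt t / (8 / 3 * R) ≤ Real.sqrt (t / (2 * Real.pi * R ^ 2)) := by
    apply Real.le_sqrt_of_sq_le
    rw [div_pow, Real.sq_sqrt ht.le, mul_pow]
    apply div_le_div_of_nonneg_left ht.le (by positivity)
    have : Real.pi < 3.15 := Real.pi_lt_d2
    have hR2 : 0 < R ^ 2 := by positivity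
    nlinarith
  calc 3 / Real.sqrt (t / (2 * Real.pi * R ^ 2)) ≤ 3 / (Real.sqrt t / (8 / 3 * R)) := by
        apply div_le_div_of_nonneg_left (by norm_num) (by positivity) h5
    _ = 8 * R / Real.sqrt t := by
        field_simp

/-- a test at distance `D` from the stationary point -/
theorem osc_far (t a b D R : ℝ) (ht : 0 < t) (ha : 0 < a) (hab : a ≤ b) (hbR : b ≤ R) (hD : 0 < D)
    (h : t / (2 * Real.pi) + D ≤ a ∨ b ≤ t / (2 * Real.pi) - D) :
    ‖Jf t 1 a b‖ ≤ R / (Real.pi * D) := by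
  have hpi := Real.pi_pos
  have hR : 0 < R := by linarith
  have e1 : R / (Real.pi * D) = 1 / (Real.pi * (D / R)) := by field_simp
  rw [e1]
  have hb : 0 < b := by linarith
  rcases h with h | h
  · apply osc_neg t 1 a b (D / R) ht ha hab (by positivity)
    have h1 : t / (2 * Real.pi) * a⁻¹ - 1 = -((a - t / (2 * Real.pi)) / a) := by
      field_simp
      ring
    rw [h1, neg_le_neg_iff]
    calc D / R ≤ D / a := div_le_div_of_nonneg_left hD.le ha (by linarith)
      _ ≤ (a - t / (2 * Real.pi)) / a := by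
          apply div_le_div_of_nonneg_right _ ha.le
          linarith
  · apply osc_pos t 1 a b (D / R) ht ha hab (by positivity)
    have h1 : t / (2 * Real.pi) * b⁻¹ - 1 = (t / (2 * Real.pi) - b) / b := by
      field_simp
    rw [h1]
    calc D / R ≤ D / b := div_le_div_of_nonneg_left hD.le hb (by linarith)
      _ ≤ (t / (2 * Real.pi) - b) / b := by
          apply div_le_div_of_nonneg_right _ hb.le
          linarith

/-- scaling -/
theorem scale (t lam a b : ℝ) (hl : 0 < lam) (ha : 0 < a) (hab : a ≤ b) :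
    Jf t lam a b * e (t / (2 * Real.pi) * Real.log lam) = (lam⁻¹ : ℝ) * Jf t 1 (lam * a) (lam * b) := by
  unfold Jf
  have h1 := intervalIntegral.integral_comp_mul_left (a := a) (b := b) (fun y => e (Ph t 1 y)) hl.ne'
  rw [← intervalIntegral.integral_mul_const]
  have h2 : ∫ x in a..b, e (Ph t lam x) * e (t / (2 * Real.pi) * Real.log lam) =
      ∫ x in a..b, e (Ph t 1 (lam * x)) := by
    apply intervalIntegral.integral_congr
    intro x hx
    rw [Set.uIcc_of_le hab] at hx
    have hx0 : 0 < x := lt_of_lt_of_le ha hx.1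
    dsimp only
    rw [← e_add]
    congr 1
    unfold Ph
    rw [Real.log_mul hl.ne' hx0.ne']
    ring
  rw [h2, h1, Complex.real_smul]

/-- additivity -/
theorem Jf_add (t lam a b c : ℝ) (ha : 0 < a) (hb : 0 < b) (hc : 0 < c) :
    Jf t lam a b + Jf t lam b c = Jf t lam a c := by
  have hi : ∀ u v : ℝ, 0 < u → 0 < v → IntervalIntegrable (fun x => e (Ph t lam x)) volume u v := by
    intro u v hu hv
    apply ContinuousOn.intervalIntegrable
    apply e_continuous.comp_continuousOn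
    intro x hx
    have hx0 : 0 < x := lt_of_lt_of_le (lt_min hu hv) hx.1
    exact (Ph_deriv t lam x hx0).continuousAt.continuousWithinAt
  unfold Jf
  exact intervalIntegral.integral_add_adjacent_intervals (hi a b ha hb) (hi b c hb hc)

end Pool.Agent.Helper81K1.MP
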