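import Pool.Agent.Helper81K1.MP.Main4

set_option autoImplicit false

/-!
# Periodic coefficients
-/

namespace Pool.Agent.Helper81K1.MP

open Finset MeasureTheory
open Pool.Agent.Helper523.UF (e e_norm e_add e_neg e_int e_nat e_zero e_nat_mul)

/-- bounds for the length of the dual sum -/
theorem length_bd (N k T0 : ℕ) (hN : 1 ≤ N) (hk : 1 ≤ k) (hT0 : 1 ≤ T0) (hkT : (k : ℝ) ^ 2 * T0 ≤ (N : ℝ) ^ 2)
    (M' : ℕ) (hM' : M' = ⌊2 * (k : ℝ) * T0 / (Real.pi * N)⌋₊ + 1) :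
    (M' : ℝ) ≤ k * T0 / N + 1 ∧ (M' : ℝ) ≤ 2 * T0 ∧ (M' : ℝ) ^ 2 ≤ 4 * T0 ∧ (M' : ℝ) / k + 1 ≤ T0 / N + 2 := by
  have hpi := Real.pi_pos
  have hpi3 := Real.pi_gt_three
  have hN1 : (1 : ℝ) ≤ N := by exact_mod_cast hN
  have hN0 : (0 : ℝ) < N := by linarith
  have hk1 : (1 : ℝ) ≤ k := by exact_mod_cast hk
  have hk0 : (0 : ℝ) < k := by linarith
  have hT01 : (1 : ℝ) ≤ T0 := by exact_mod_cast hT0
  have hT00 : (0 : ℝ) < T0 := by linarith
  have hM1 : (M' : ℝ) ≤ k * T0 / N + 1 := by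
    rw [hM']
    push_cast
    have h1 := Nat.floor_le (a := 2 * (k : ℝ) * T0 / (Real.pi * N)) (by positivity)
    have h2 : 2 * (k : ℝ) * T0 / (Real.pi * N) ≤ k * T0 / N := by
      rw [div_le_div_iff₀ (by positivity) hN0]
      have h3 : 0 ≤ (k : ℝ) * T0 * N := by positivity
      nlinarith
    linarith
  have hsq : ((k : ℝ) * T0 / N) ^ 2 ≤ T0 := by
    rw [div_pow, div_le_iff₀ (by positivity)]
    nlinarith
  have hx0 : 0 ≤ (k : ℝ) * T0 / N := by positivity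
  have hM0 : (0 : ℝ) ≤ M' := Nat.cast_nonneg _
  have hM2 : (M' : ℝ) ^ 2 ≤ 4 * T0 := by
    have h1 : (M' : ℝ) ^ 2 ≤ (k * T0 / N + 1) ^ 2 := pow_le_pow_left₀ hM0 hM1 2
    nlinarith [sq_nonneg ((k : ℝ) * T0 / N - 1)]
  refine ⟨hM1, by nlinarith, hM2, ?_⟩
  have h1 : (M' : ℝ) / k ≤ (k * T0 / N + 1) / k := div_le_div_of_nonneg_right hM1 hk0.le
  have h2 : (k * T0 / N + 1) / k = (T0 : ℝ) / N + 1 / k := by
    field_simp
  have h3 : 1 / (k : ℝ) ≤ 1 := by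
    rw [div_le_one hk0]
    exact hk1
  linarith

theorem PP_mom (δ : ℝ) (hδ : 0 < δ) : ∃ K2 K4 : ℝ, 0 ≤ K2 ∧ 0 ≤ K4 ∧ ∀ (N k T : ℕ) (γ : ℕ → ℂ), 1 ≤ N → 1 ≤ k →
    k ^ 2 * T ≤ N ^ 2 → ∑ h ∈ range k, ‖γ h‖ ^ 2 ≤ 1 →
    (∀ T0, 1 ≤ T0 → T0 ≤ T → ∀ r,
      ∑ t ∈ Ico T0 (2 * T0), ‖PP k 0 γ (⌊2 * (k : ℝ) * T0 / (Real.pi * N)⌋₊ + 1) r t‖ ^ 2 ≤
      K2 * (N : ℝ) ^ (2 * (δ / 10)) * T0 * ((T0 : ℝ) / N + 2)) ∧
    (∀ T0, 1 ≤ T0 → T0 ≤ T → ∀ r,
      ∑ t ∈ Ico T0 (2 * T0), ‖PP k 0 γ (⌊2 * (k : ℝ) * T0 / (Real.pi * N)⌋₊ + 1) r t‖ ^ 4 ≤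
      K4 * (N : ℝ) ^ (2 * (δ / 10)) * T0 * ((T0 : ℝ) / N + 2) ^ 2) := by
  obtain ⟨C1, hC1, h1⟩ := polymom (δ / 10) (by positivity) 1
  obtain ⟨C2, hC2, h2⟩ := polymom (δ / 10) (by positivity) 2
  refine ⟨C1 * 2 ^ (δ / 10) * 3, C2 * 2 ^ (δ / 10) * 5, by positivity, by positivity, ?_⟩
  intro N k T γ hN hk hkT hγ
  have hN1 : (1 : ℝ) ≤ N := by exact_mod_cast hN
  have hN0 : (0 : ℝ) < N := by linarith
  have hTN : T ≤ N ^ 2 := (Nat.le_mul_of_pos_left T (by positivity)).trans hkT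
  have key : ∀ T0, 1 ≤ T0 → T0 ≤ T → ∀ r, ∀ κ : ℕ, ∀ Cκ : ℝ, 0 < Cκ → (κ = 1 ∨ κ = 2) →
      (∀ (M T0 : ℕ) (a : ℕ → ℂ), 1 ≤ M → 1 ≤ T0 →
        ∑ t ∈ Ico T0 (2 * T0), ‖Pool.Agent.TH705.DL.DP M a t‖ ^ (2 * κ) ≤
        Cκ * (M : ℝ) ^ (δ / 10) * (T0 + (M : ℝ) ^ κ) * (∑ n ∈ Icc 1 M, ‖a n‖ ^ 2) ^ κ) →
      ∑ t ∈ Ico T0 (2 * T0), ‖PP k 0 γ (⌊2 * (k : ℝ) * T0 / (Real.pi * N)⌋₊ + 1) r t‖ ^ (2 * κ) ≤
        Cκ * 2 ^ (δ / 10) * (2 * κ + 1) * (N : ℝ) ^ (2 * (δ / 10)) * T0 * ((T0 : ℝ) / N + 2) ^ κ := by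
    intro T0 hT0 hT0T r κ Cκ hCκ hκ hh
    have hT01 : (1 : ℝ) ≤ T0 := by exact_mod_cast hT0
    have hT00 : (0 : ℝ) < T0 := by linarith
    obtain ⟨M', hM'⟩ : ∃ M' : ℕ, M' = ⌊2 * (k : ℝ) * T0 / (Real.pi * N)⌋₊ + 1 := ⟨_, rfl⟩
    rw [← hM']
    have hkT0 : (k : ℝ) ^ 2 * T0 ≤ (N : ℝ) ^ 2 := by
      have : k ^ 2 * T0 ≤ N ^ 2 := (Nat.mul_le_mul_left _ hT0T).trans hkT
      exact_mod_cast this
    obtain ⟨_, hM2, hM3, hM4⟩ := length_bd N k T0 hN hk hT0 hkT0 M' hM'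
    have h3 := hh M' T0 (fun l => starRingEnd ℂ (γ (l % k) * e ((r : ℝ) * l / (M' + 1 : ℕ)))) (by omega) hT0
    have h4 : ∑ t ∈ Ico T0 (2 * T0), ‖PP k 0 γ M' r t‖ ^ (2 * κ) = ∑ t ∈ Ico T0 (2 * T0),
        ‖Pool.Agent.TH705.DL.DP M' (fun l => starRingEnd ℂ (γ (l % k) * e ((r : ℝ) * l / (M' + 1 : ℕ)))) t‖ ^
          (2 * κ) := by
      apply sum_congr rfl
      intro t _
      rw [PP_norm k M' r hk γ t]
    rw [h4]
    refine h3.trans ?_
    have h5 : ∑ n ∈ Icc 1 M', ‖starRingEnd ℂ (γ (n % k) * e ((r : ℝ) * n / (M' + 1 : ℕ)))‖ ^ 2 ≤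
        (T0 : ℝ) / N + 2 := by
      refine le_trans (le_of_eq ?_) ((coef_sum k M' hk γ hγ).trans hM4)
      apply sum_congr rfl
      intro n _
      rw [RCLike.norm_conj, norm_mul, e_norm, mul_one]
    have h6 : (M' : ℝ) ^ (δ / 10) ≤ 2 ^ (δ / 10) * (N : ℝ) ^ (2 * (δ / 10)) := by
      have h7 : (M' : ℝ) ≤ 2 * (N : ℝ) ^ 2 := by
        have : (T0 : ℝ) ≤ (N : ℝ) ^ 2 := by exact_mod_cast hT0T.trans hTN
        linarith
      calc (M' : ℝ) ^ (δ / 10) ≤ (2 * (N : ℝ) ^ 2) ^ (δ / 10) :=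
            Real.rpow_le_rpow (Nat.cast_nonneg _) h7 (by positivity)
        _ = 2 ^ (δ / 10) * (N : ℝ) ^ (2 * (δ / 10)) := by
            rw [Real.mul_rpow (by norm_num) (by positivity), ← Real.rpow_natCast (N : ℝ) 2, ← Real.rpow_mul hN0.le]
            push_cast
            rfl
    have h7 : (T0 : ℝ) + (M' : ℝ) ^ κ ≤ (2 * κ + 1) * T0 := by
      rcases hκ with rfl | rfl
      · rw [pow_one]
        push_cast
        linarith
      · push_cast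
        linarith
    calc Cκ * (M' : ℝ) ^ (δ / 10) * (T0 + (M' : ℝ) ^ κ) *
          (∑ n ∈ Icc 1 M', ‖starRingEnd ℂ (γ (n % k) * e ((r : ℝ) * n / (M' + 1 : ℕ)))‖ ^ 2) ^ κ
        ≤ Cκ * (2 ^ (δ / 10) * (N : ℝ) ^ (2 * (δ / 10))) * ((2 * κ + 1) * T0) * ((T0 : ℝ) / N + 2) ^ κ := by
          apply mul_le_mul _ (pow_le_pow_left₀ (sum_nonneg fun _ _ => by positivity) h5 κ)
            (pow_nonneg (sum_nonneg fun _ _ => by positivity) _) (by positivity)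
          apply mul_le_mul _ h7 (by positivity) (by positivity)
          exact mul_le_mul_of_nonneg_left h6 hCκ.le
      _ = _ := by ring
  constructor
  · intro T0 hT0 hT0T r
    have h3 := key T0 hT0 hT0T r 1 C1 hC1 (Or.inl rfl) h1
    rw [mul_one, pow_one] at h3
    refine h3.trans (le_of_eq ?_)
    push_cast
    ring
  · intro T0 hT0 hT0T r
    have h3 := key T0 hT0 hT0T r 2 C2 hC2 (Or.inr rfl) h2
    refine h3.trans (le_of_eq ?_)
    push_cast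
    ring

/-- finite Fourier expansion -/
theorem fourier (k : ℕ) (hk : 1 ≤ k) (p : ℕ → ℂ) (hp1 : ∀ n, ‖p n‖ ≤ 1) (hp : ∀ n, p (n + k) = p n) :
    ∃ γ : ℕ → ℂ, ∑ h ∈ range k, ‖γ h‖ ^ 2 ≤ 1 ∧ ∀ n, bb k 0 γ n = p n := by
  have hk0 : (0 : ℝ) < k := by exact_mod_cast (by omega : 0 < k)
  have hkC : (k : ℂ) ≠ 0 := by exact_mod_cast (by omega : k ≠ 0)
  have hpmod : ∀ n, p (n % k) = p n := by
    intro n
    have h1 : ∀ j, p (n % k + k * j) = p (n % k) := by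
      intro j
      induction j with
      | zero => simp
      | succ j ih => rw [Nat.mul_succ, ← add_assoc, hp, ih]
    have h2 := h1 (n / k)
    rw [Nat.mod_add_div] at h2
    exact h2.symm
  have horth : ∀ m ∈ range k, ∀ m' ∈ range k, ∑ h ∈ range k, e ((h : ℝ) * m / k) * e (-((h : ℝ) * m' / k)) =
      if m = m' then (k : ℂ) else 0 := by
    intro m hm m' hm'
    rw [mem_range] at hm hm'
    have h2 := orth k hk ((m : ℤ) - m') (by
      rw [abs_lt]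
      constructor <;> omega)
    have h3 : (if (m : ℤ) - m' = 0 then (k : ℂ) else 0) = if m = m' then (k : ℂ) else 0 := by
      by_cases h : m = m'
      · rw [if_pos h, if_pos (by omega)]
      · rw [if_neg h, if_neg (by omega)]
    rw [h3] at h2
    rw [← h2]
    apply sum_congr rfl
    intro r _
    rw [← e_add]
    congr 1
    push_cast
    ring
  obtain ⟨γ, hγ⟩ : ∃ γ : ℕ → ℂ, γ = fun h : ℕ => (k : ℂ)⁻¹ * ∑ m ∈ range k, p m * e ((h : ℝ) * m / k) := ⟨_, rfl⟩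
  refine ⟨γ, ?_, ?_⟩
  · have h1 : ((∑ h ∈ range k, ‖γ h‖ ^ 2 : ℝ) : ℂ) = (k : ℂ)⁻¹ * ((∑ m ∈ range k, ‖p m‖ ^ 2 : ℝ) : ℂ) := by
      push_cast
      calc ∑ h ∈ range k, (‖γ h‖ : ℂ) ^ 2 = ∑ h ∈ range k, ∑ m ∈ range k, ∑ m' ∈ range k,
            (k : ℂ)⁻¹ * (k : ℂ)⁻¹ * (p m * starRingEnd ℂ (p m')) * (e ((h : ℝ) * m / k) * e (-((h : ℝ) * m' / k))) := by
            apply sum_congr rfl
            intro h _
            rw [← Complex.mul_conj', hγ]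
            dsimp only
            rw [map_mul, map_sum, map_inv₀, Complex.conj_natCast]
            have : ∀ x y z w : ℂ, x * y * (z * w) = x * z * (y * w) := fun x y z w => by ring
            rw [this, sum_mul_sum, mul_sum]
            apply sum_congr rfl
            intro m _
            rw [mul_sum]
            apply sum_congr rfl
            intro m' _
            rw [map_mul]
            have h2 : starRingEnd ℂ (e ((h : ℝ) * m' / k)) = e (-((h : ℝ) * m' / k)) := by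
              unfold Pool.Agent.Helper523.UF.e
              rw [← Complex.exp_conj]
              congr 1
              simp only [map_mul, Complex.conj_I, Complex.conj_ofReal]
              push_cast
              ring
            rw [h2]
            ring
        _ = ∑ m ∈ range k, ∑ m' ∈ range k, (k : ℂ)⁻¹ * (k : ℂ)⁻¹ * (p m * starRingEnd ℂ (p m')) *
            (if m = m' then (k : ℂ) else 0) := by
            rw [sum_comm]
            apply sum_congr rfl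
            intro m hm
            rw [sum_comm]
            apply sum_congr rfl
            intro m' hm'
            rw [← horth m hm m' hm', mul_sum]
        _ = ∑ m ∈ range k, (k : ℂ)⁻¹ * (‖p m‖ : ℂ) ^ 2 := by
            apply sum_congr rfl
            intro m hm
            rw [sum_eq_single_of_mem m hm]
            · rw [if_pos rfl, ← Complex.mul_conj']
              field_simp
            · intro m' _ hne
              rw [if_neg (Ne.symm hne), mul_zero]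
        _ = _ := by rw [mul_sum]
    have h2 : ∑ h ∈ range k, ‖γ h‖ ^ 2 = (k : ℝ)⁻¹ * ∑ m ∈ range k, ‖p m‖ ^ 2 := by
      apply Complex.ofReal_injective
      rw [h1]
      push_cast
      rfl
    rw [h2]
    have h3 : ∑ m ∈ range k, ‖p m‖ ^ 2 ≤ k := by
      calc ∑ m ∈ range k, ‖p m‖ ^ 2 ≤ ∑ m ∈ range k, (1 : ℝ) := by
            apply sum_le_sum
            intro m _
            exact pow_le_one₀ (norm_nonneg _) (hp1 m)
        _ = k := by simp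
    calc (k : ℝ)⁻¹ * ∑ m ∈ range k, ‖p m‖ ^ 2 ≤ (k : ℝ)⁻¹ * k := mul_le_mul_of_nonneg_left h3 (by positivity)
      _ = 1 := inv_mul_cancel₀ hk0.ne'
  · intro n
    unfold bb
    have h1 : ∀ h ∈ range k, γ h * e (-(la k 0 h * n)) =
        ∑ m ∈ range k, (k : ℂ)⁻¹ * p m * (e ((h : ℝ) * m / k) * e (-((h : ℝ) * ((n % k : ℕ) : ℝ) / k))) := by
      intro h _
      have h2 : e (-(la k 0 h * n)) = e (-((h : ℝ) * ((n % k : ℕ) : ℝ) / k)) := by
        obtain ⟨d, hd⟩ : ∃ d : ℕ, d = n / k := ⟨_, rfl⟩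
        have h3 : -(la k 0 h * n) = -((h : ℝ) * ((n % k : ℕ) : ℝ) / k) + ((-((h : ℤ) * (d : ℤ)) : ℤ) : ℝ) := by
          have h4 : (n : ℝ) = ((n % k : ℕ) : ℝ) + k * (d : ℝ) := by
            rw [hd]
            exact_mod_cast (Nat.mod_add_div n k).symm
          unfold la
          rw [h4]
          push_cast
          field_simp
          ring
        rw [h3, e_add, e_int, mul_one]
      rw [h2, hγ]
      dsimp only
      rw [mul_sum, sum_mul]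
      apply sum_congr rfl
      intro m _
      ring
    rw [sum_congr rfl h1, sum_comm]
    have hmn : n % k ∈ range k := mem_range.2 (Nat.mod_lt _ (by omega))
    rw [sum_eq_single_of_mem (n % k) hmn]
    · rw [← mul_sum, horth _ hmn _ hmn, if_pos rfl, hpmod]
      field_simp
    · intro m hm hne
      rw [← mul_sum, horth m hm _ hmn, if_neg hne, mul_zero]

end Pool.Agent.Helper81K1.MP
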