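import Pool.Agent.H419R2.Saw
import Pool.Agent.Helper523.UF.StatPhase

set_option autoImplicit false

/-!
# Truncated Poisson summation
-/

namespace Pool.Agent.Helper81K1.MP

open Finset MeasureTheory
open Pool.Agent.Helper523.UF (e e_norm e_add e_neg e_int e_nat e_zero e_comp_hasDerivAt e_continuous)
open H419R2.Saw (B)

/-- the sawtooth away from the integers -/
theorem saw_near (V : ℕ) (δ x : ℝ) (hδ : 0 < δ) (h0 : δ ≤ x) (h1 : x ≤ 1 - δ) :
    |x - 1 / 2 + B V x| ≤ 1 / ((2 * V + 1) * Real.pi * δ) := by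
  have hpi := Real.pi_pos
  have hV : (0 : ℝ) ≤ V := Nat.cast_nonneg V
  rcases le_total x (1 / 2) with hx | hx
  · have h := H419R2.Saw.key V (x := x) (by linarith) hx
    have e1 : x - 1 / 2 + B V x = B V x - (1 / 2 - x) := by ring
    rw [e1]
    refine h.trans ?_
    apply one_div_le_one_div_of_le (by positivity)
    exact mul_le_mul_of_nonneg_left h0 (by positivity)
  · have h := H419R2.Saw.key V (x := 1 - x) (by linarith) (by linarith)
    have e2 : B V (1 - x) = - B V x := by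
      have h3 := H419R2.Saw.B_add_int V (-x) 1
      have e3 : -x + ((1 : ℤ) : ℝ) = 1 - x := by push_cast; ring
      rw [e3] at h3
      rw [h3, H419R2.Saw.B_neg]
    rw [e2] at h
    have e1 : x - 1 / 2 + B V x = -(-B V x - (1 / 2 - (1 - x))) := by ring
    rw [e1, abs_neg]
    refine h.trans ?_
    apply one_div_le_one_div_of_le (by positivity)
    exact mul_le_mul_of_nonneg_left (by linarith) (by positivity)

/-- the kernel -/
noncomputable def dk (V : ℕ) (x : ℝ) : ℝ := 1 + ∑ n ∈ Finset.Icc 1 V, 2 * Real.cos (2 * Real.pi * (n : ℝ) * x)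

theorem dk_cont (V : ℕ) : Continuous (dk V) := by
  unfold dk
  fun_prop

theorem unit (V : ℕ) (δ M : ℝ) (hδ : 0 < δ) (hδ1 : δ ≤ 1 / 2) (n : ℕ) (F F' : ℝ → ℂ)
    (hF : ∀ x ∈ Set.Icc (n : ℝ) (n + 1), HasDerivAt F (F' x) x) (hFc : ContinuousOn F' (Set.Icc (n : ℝ) (n + 1)))
    (hM : ∀ x ∈ Set.Icc (n : ℝ) (n + 1), ‖F' x‖ ≤ M) :
    ‖(F n + F (n + 1)) / 2 - ∫ x in (n : ℝ)..(n + 1), F x * (dk V x : ℂ)‖ ≤
      M * (3 * δ + 1 / ((2 * V + 1) * Real.pi * δ)) := by
  have hpi := Real.pi_pos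
  have hV : (0 : ℝ) ≤ V := Nat.cast_nonneg V
  have hM0 : 0 ≤ M := (norm_nonneg _).trans (hM n ⟨le_rfl, by linarith⟩)
  obtain ⟨u, hu⟩ : ∃ u : ℝ → ℝ, u = fun x => x - n - 1 / 2 + B V x := ⟨_, rfl⟩
  have hud : ∀ x, HasDerivAt u (dk V x) x := by
    intro x
    rw [hu]
    have h1 : HasDerivAt (fun x : ℝ => x - n - 1 / 2) 1 x := by
      simpa using ((hasDerivAt_id x).sub_const (n : ℝ)).sub_const (1 / 2)
    exact h1.add (H419R2.Saw.hasDerivAt_B V x)
  have huc : Continuous u := continuous_iff_continuousAt.2 fun x => (hud x).continuousAt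
  have hn : u n = -1 / 2 := by
    rw [hu]
    have := H419R2.Saw.B_int V n
    simp only [Int.cast_natCast] at this
    simp only [this]
    ring
  have hn1 : u (n + 1) = 1 / 2 := by
    rw [hu]
    have := H419R2.Saw.B_int V (n + 1)
    push_cast at this
    simp only [this]
    ring
  have hint : ∫ x in (n : ℝ)..(n + 1), F x * (dk V x : ℂ) =
      F (n + 1) * (u (n + 1) : ℂ) - F n * (u n : ℂ) - ∫ x in (n : ℝ)..(n + 1), F' x * (u x : ℂ) := by
    apply intervalIntegral.integral_mul_deriv_eq_deriv_mul (u := F) (v := fun x => (u x : ℂ)) (u' := F')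
      (v' := fun x => (dk V x : ℂ))
    · intro x hx
      rw [Set.uIcc_of_le (by linarith)] at hx
      exact hF x hx
    · intro x _
      exact (hud x).ofReal_comp
    · apply ContinuousOn.intervalIntegrable
      rw [Set.uIcc_of_le (by linarith)]
      exact hFc
    · apply Continuous.intervalIntegrable
      exact Complex.continuous_ofReal.comp (dk_cont V)
  rw [hint, hn, hn1]
  have e1 : (F n + F (n + 1)) / 2 - (F (n + 1) * (((1 / 2 : ℝ)) : ℂ) - F n * ((-1 / 2 : ℝ) : ℂ) -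
      ∫ x in (n : ℝ)..(n + 1), F' x * (u x : ℂ)) = ∫ x in (n : ℝ)..(n + 1), F' x * (u x : ℂ) := by
    push_cast
    ring
  rw [e1]
  have hcont : ContinuousOn (fun x => F' x * (u x : ℂ)) (Set.Icc (n : ℝ) (n + 1)) :=
    hFc.mul (Complex.continuous_ofReal.comp huc).continuousOn
  have hii : ∀ a b : ℝ, (n : ℝ) ≤ a → a ≤ b → b ≤ n + 1 →
      IntervalIntegrable (fun x => F' x * (u x : ℂ)) volume a b := by
    intro a b h1 h2 h3
    apply ContinuousOn.intervalIntegrable
    rw [Set.uIcc_of_le h2]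
    exact hcont.mono (Set.Icc_subset_Icc h1 h3)
  have hsplit : ∫ x in (n : ℝ)..(n + 1), F' x * (u x : ℂ) =
      (∫ x in (n : ℝ)..(n + δ), F' x * (u x : ℂ)) + (∫ x in (n + δ : ℝ)..(n + 1 - δ), F' x * (u x : ℂ)) +
        ∫ x in (n + 1 - δ : ℝ)..(n + 1), F' x * (u x : ℂ) := by
    rw [intervalIntegral.integral_add_adjacent_intervals (hii _ _ (by linarith) (by linarith) (by linarith))
      (hii _ _ (by linarith) (by linarith) (by linarith)),
      intervalIntegral.integral_add_adjacent_intervals (hii _ _ (by linarith) (by linarith) (by linarith))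
      (hii _ _ (by linarith) (by linarith) (by linarith))]
  have hub : ∀ x ∈ Set.Icc (n : ℝ) (n + 1), |u x| ≤ 3 / 2 := by
    intro x hx
    have h1 := H419R2.Saw.B_abs V x
    rw [hu]
    rw [abs_le] at h1 ⊢
    constructor <;> linarith [h1.1, h1.2, hx.1, hx.2]
  have humid : ∀ x ∈ Set.Icc (n + δ : ℝ) (n + 1 - δ), |u x| ≤ 1 / ((2 * V + 1) * Real.pi * δ) := by
    intro x hx
    have h1 := saw_near V δ (x - n) hδ (by linarith [hx.1]) (by linarith [hx.2])
    have h2 : B V (x - n) = B V x := by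
      have h3 := H419R2.Saw.B_add_int V (x - n) n
      simp only [Int.cast_natCast, sub_add_cancel] at h3
      exact h3.symm
    rw [h2] at h1
    rw [hu]
    exact h1
  have b1 : ‖∫ x in (n : ℝ)..(n + δ), F' x * (u x : ℂ)‖ ≤ (M * (3 / 2)) * |(n + δ : ℝ) - n| := by
    apply intervalIntegral.norm_integral_le_of_norm_le_const
    intro x hx
    rw [Set.uIoc_of_le (by linarith)] at hx
    have hx' : x ∈ Set.Icc (n : ℝ) (n + 1) := ⟨hx.1.le, by linarith [hx.2]⟩
    rw [norm_mul, Complex.norm_real, Real.norm_eq_abs]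
    exact mul_le_mul (hM x hx') (hub x hx') (abs_nonneg _) hM0
  have b3 : ‖∫ x in (n + 1 - δ : ℝ)..(n + 1), F' x * (u x : ℂ)‖ ≤ (M * (3 / 2)) * |(n + 1 : ℝ) - (n + 1 - δ)| := by
    apply intervalIntegral.norm_integral_le_of_norm_le_const
    intro x hx
    rw [Set.uIoc_of_le (by linarith)] at hx
    have hx' : x ∈ Set.Icc (n : ℝ) (n + 1) := ⟨by linarith [hx.1], hx.2⟩
    rw [norm_mul, Complex.norm_real, Real.norm_eq_abs]
    exact mul_le_mul (hM x hx') (hub x hx') (abs_nonneg _) hM0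
  have b2 : ‖∫ x in (n + δ : ℝ)..(n + 1 - δ), F' x * (u x : ℂ)‖ ≤
      (M * (1 / ((2 * V + 1) * Real.pi * δ))) * |(n + 1 - δ : ℝ) - (n + δ)| := by
    apply intervalIntegral.norm_integral_le_of_norm_le_const
    intro x hx
    rw [Set.uIoc_of_le (by linarith)] at hx
    have hx' : x ∈ Set.Icc (n : ℝ) (n + 1) := ⟨by linarith [hx.1], by linarith [hx.2]⟩
    rw [norm_mul, Complex.norm_real, Real.norm_eq_abs]
    exact mul_le_mul (hM x hx') (humid x ⟨hx.1.le, hx.2⟩) (abs_nonneg _) hM0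
  have a1 : |(n + δ : ℝ) - n| = δ := by
    rw [add_sub_cancel_left, abs_of_pos hδ]
  have a3 : |(n + 1 : ℝ) - (n + 1 - δ)| = δ := by
    rw [sub_sub_cancel, abs_of_pos hδ]
  have a2 : |(n + 1 - δ : ℝ) - (n + δ)| ≤ 1 := by
    rw [abs_le]
    constructor <;> linarith
  rw [a1] at b1
  rw [a3] at b3
  have hw : 0 ≤ M * (1 / ((2 * V + 1) * Real.pi * δ)) := by positivity
  have b2' := b2.trans (mul_le_mul_of_nonneg_left a2 hw)
  rw [hsplit]
  refine (norm_add_le _ _).trans ((add_le_add (norm_add_le _ _) le_rfl).trans ?_)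
  linarith

/-- the trapezoidal sum -/
theorem trap (F : ℕ → ℂ) (a b : ℕ) (hab : a ≤ b) :
    ∑ n ∈ Ico a b, (F n + F (n + 1)) / 2 = ∑ n ∈ Ioc a b, F n + (F a - F b) / 2 := by
  induction b, hab using Nat.le_induction with
  | base => simp
  | succ b hab ih =>
    rw [Finset.sum_Ico_succ_top hab, ih, ← Finset.insert_Ioc_right_eq_Ioc_add_one hab,
      sum_insert (by simp)]
    ring

theorem dk_eq (V : ℕ) (x : ℝ) : ((dk V x : ℝ) : ℂ) = ∑ ν ∈ Icc (-(V : ℤ)) V, e (-((ν : ℝ) * x)) := by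
  induction V with
  | zero => simp [dk, e_zero]
  | succ V ih =>
    have h1 : dk (V + 1) x = dk V x + 2 * Real.cos (2 * Real.pi * ((V + 1 : ℕ) : ℝ) * x) := by
      unfold dk
      rw [Finset.sum_Icc_succ_top (by omega)]
      ring
    have h2 : Icc (-((V + 1 : ℕ) : ℤ)) ((V + 1 : ℕ) : ℤ) =
        insert (-((V + 1 : ℕ) : ℤ)) (insert ((V + 1 : ℕ) : ℤ) (Icc (-(V : ℤ)) V)) := by
      ext z
      simp only [mem_Icc, mem_insert]
      push_cast
      omega
    rw [h1, h2, sum_insert, sum_insert, ← ih]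
    · have h3 : ((2 * Real.cos (2 * Real.pi * ((V + 1 : ℕ) : ℝ) * x) : ℝ) : ℂ) =
          e (-(((-((V + 1 : ℕ) : ℤ) : ℤ) : ℝ) * x)) + e (-((((V + 1 : ℕ) : ℤ) : ℝ) * x)) := by
        unfold Pool.Agent.Helper523.UF.e
        rw [Complex.ofReal_mul, Complex.ofReal_cos, Complex.ofReal_ofNat, Complex.two_cos]
        congr 2
        · push_cast
          ring
        · push_cast
          ring
      push_cast at h3 ⊢
      rw [h3]
      ring
    · simp
    · simp only [mem_insert, mem_Icc]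
      push_cast
      omega

/-- truncated Poisson summation -/
theorem poisson (V : ℕ) (δ M : ℝ) (hδ : 0 < δ) (hδ1 : δ ≤ 1 / 2) (a b : ℕ) (hab : a ≤ b) (F F' : ℝ → ℂ)
    (hF : ∀ x ∈ Set.Icc (a : ℝ) b, HasDerivAt F (F' x) x) (hFc : ContinuousOn F' (Set.Icc (a : ℝ) b))
    (hM : ∀ x ∈ Set.Icc (a : ℝ) b, ‖F' x‖ ≤ M) :
    ‖∑ n ∈ Ioc a b, F n - ∑ ν ∈ Icc (-(V : ℤ)) V, ∫ x in (a : ℝ)..b, F x * e (-((ν : ℝ) * x))‖ ≤
      (‖F a‖ + ‖F b‖) / 2 + (b - a) * (M * (3 * δ + 1 / ((2 * V + 1) * Real.pi * δ))) := by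
  have hFcont : ContinuousOn F (Set.Icc (a : ℝ) b) := fun x hx => (hF x hx).continuousAt.continuousWithinAt
  have hab' : (a : ℝ) ≤ b := by exact_mod_cast hab
  have hdkc : Continuous (fun x : ℝ => ((dk V x : ℝ) : ℂ)) := Complex.continuous_ofReal.comp (dk_cont V)
  have h1 : ∑ ν ∈ Icc (-(V : ℤ)) V, ∫ x in (a : ℝ)..b, F x * e (-((ν : ℝ) * x)) =
      ∫ x in (a : ℝ)..b, F x * (dk V x : ℂ) := by
    rw [← intervalIntegral.integral_finsetSum]
    · apply intervalIntegral.integral_congr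
      intro x _
      dsimp only
      rw [← mul_sum, dk_eq]
    · intro ν _
      apply ContinuousOn.intervalIntegrable
      rw [Set.uIcc_of_le hab']
      apply hFcont.mul
      apply Continuous.continuousOn
      have : Continuous (fun x : ℝ => -((ν : ℝ) * x)) := by fun_prop
      exact e_continuous.comp this
  have h2 : ∫ x in (a : ℝ)..b, F x * (dk V x : ℂ) = ∑ n ∈ Ico a b, ∫ x in (n : ℝ)..(n + 1), F x * (dk V x : ℂ) := by
    have h3 := intervalIntegral.sum_integral_adjacent_intervals_Ico (μ := volume)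
      (f := fun x : ℝ => F x * (dk V x : ℂ)) (a := fun n : ℕ => (n : ℝ)) (m := a) (n := b) hab (by
        intro n hn
        apply ContinuousOn.intervalIntegrable
        rw [Set.uIcc_of_le (by push_cast; linarith)]
        apply (hFcont.mul hdkc.continuousOn).mono
        apply Set.Icc_subset_Icc
        · exact_mod_cast hn.1
        · exact_mod_cast hn.2)
    rw [← h3]
    apply sum_congr rfl
    intro n _
    push_cast
    rfl
  have h4 := trap (fun n : ℕ => F n) a b hab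
  rw [h1, h2]
  have h5 : ∑ n ∈ Ioc a b, F n - ∑ n ∈ Ico a b, ∫ x in (n : ℝ)..(n + 1), F x * (dk V x : ℂ) =
      (F b - F a) / 2 + ∑ n ∈ Ico a b, ((F n + F (n + 1)) / 2 - ∫ x in (n : ℝ)..(n + 1), F x * (dk V x : ℂ)) := by
    rw [sum_sub_distrib]
    have h6 : ∑ n ∈ Ico a b, (F n + F (n + 1)) / 2 = ∑ n ∈ Ico a b, (F (n : ℕ) + F ((n + 1 : ℕ) : ℝ)) / 2 := by
      apply sum_congr rfl
      intro n _
      push_cast
      rfl
    rw [h6, h4]
    ring
  rw [h5]
  refine (norm_add_le _ _).trans (add_le_add ?_ ?_)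
  · rw [norm_div, Complex.norm_ofNat]
    have := norm_sub_le (F b) (F a)
    linarith
  · calc ‖∑ n ∈ Ico a b, ((F n + F (n + 1)) / 2 - ∫ x in (n : ℝ)..(n + 1), F x * (dk V x : ℂ))‖
        ≤ ∑ n ∈ Ico a b, M * (3 * δ + 1 / ((2 * V + 1) * Real.pi * δ)) := by
          apply norm_sum_le_of_le
          intro n hn
          rw [mem_Ico] at hn
          have hsub : Set.Icc (n : ℝ) (n + 1) ⊆ Set.Icc (a : ℝ) b := by
            apply Set.Icc_subset_Icc
            · exact_mod_cast hn.1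
            · exact_mod_cast hn.2
          exact unit V δ M hδ hδ1 n F F' (fun x hx => hF x (hsub hx)) (hFc.mono hsub) (fun x hx => hM x (hsub hx))
      _ = _ := by
          rw [sum_const, Nat.card_Ico, nsmul_eq_mul, Nat.cast_sub hab]

end Pool.Agent.Helper81K1.MP
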