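import Pool.Agent.Helper81K1.MP.Dual

set_option autoImplicit false

/-!
# The reflection formula
-/

namespace Pool.Agent.Helper81K1.MP

open Finset MeasureTheory
open Pool.Agent.Helper523.UF (e e_norm e_add e_neg e_int e_nat e_zero e_comp_hasDerivAt e_continuous)

theorem la_block (k : ℕ) (hk : 1 ≤ k) (th : ℝ) (h ν : ℕ) : la k th (h + k * ν) = la k th h + ν := by
  have hk0 : (k : ℝ) ≠ 0 := by
    have : (0 : ℝ) < k := by exact_mod_cast (by omega : 0 < k)
    exact this.ne'
  unfold la
  push_cast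
  field_simp
  ring

theorem la_lt (k : ℕ) (hk : 1 ≤ k) (th : ℝ) (hth1 : th < 1) (h : ℕ) (hh : h < k) : la k th h < 1 := by
  have hk0 : (0 : ℝ) < k := by exact_mod_cast (by omega : 0 < k)
  unfold la
  rw [div_lt_one hk0]
  have : (h : ℝ) + 1 ≤ k := by exact_mod_cast hh
  linarith

theorem la_nonneg (k : ℕ) (th : ℝ) (hth0 : 0 ≤ th) (h : ℕ) : 0 ≤ la k th h := by
  unfold la
  positivity

section
variable (N k : ℕ) (th t : ℝ) (γ : ℕ → ℂ)

/-- the function of the Poisson summation formula -/
noncomputable def FF (x : ℝ) : ℂ := ∑ h ∈ range k, γ h * e (Ph t (la k th h) x)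

/-- its derivative -/
noncomputable def FF' (x : ℝ) : ℂ :=
  ∑ h ∈ range k, γ h * (2 * Real.pi * Complex.I * ((t / (2 * Real.pi) * x⁻¹ - la k th h : ℝ) : ℂ) *
    e (Ph t (la k th h) x))

theorem FF_deriv (x : ℝ) (hx : 0 < x) : HasDerivAt (FF k th t γ) (FF' k th t γ x) x := by
  unfold FF FF'
  apply HasDerivAt.fun_sum
  intro h _
  exact (e_comp_hasDerivAt (Ph_deriv t (la k th h) x hx)).const_mul (γ h)

theorem FF'_cont (a b : ℝ) (ha : 0 < a) : ContinuousOn (FF' k th t γ) (Set.Icc a b) := by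
  unfold FF'
  apply continuousOn_finsetSum
  intro h _
  apply ContinuousOn.mul continuousOn_const
  have hp : ∀ x ∈ Set.Icc a b, 0 < x := fun x hx => lt_of_lt_of_le ha hx.1
  apply ContinuousOn.mul
  · apply ContinuousOn.mul continuousOn_const
    apply Complex.continuous_ofReal.comp_continuousOn
    apply ContinuousOn.sub _ continuousOn_const
    apply ContinuousOn.mul continuousOn_const
    exact ContinuousOn.inv₀ continuousOn_id fun x hx => (hp x hx).ne'
  · apply e_continuous.comp_continuousOn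
    intro x hx
    exact (Ph_deriv t (la k th h) x (hp x hx)).continuousAt.continuousWithinAt

theorem FF'_le (hN : 1 ≤ N) (hk : 1 ≤ k) (hth0 : 0 ≤ th) (hth1 : th < 1) (ht : 0 < t)
    (hγ : ∑ h ∈ range k, ‖γ h‖ ^ 2 ≤ 1) (x : ℝ) (hx : N ≤ x) :
    ‖FF' k th t γ x‖ ≤ Real.sqrt k * (t / N + 7) := by
  have hpi := Real.pi_pos
  have hpi4 : Real.pi < 3.15 := Real.pi_lt_d2
  have hN0 : (0 : ℝ) < N := by exact_mod_cast (by omega : 0 < N)
  have hx0 : 0 < x := by linarith
  unfold FF'
  calc ‖∑ h ∈ range k, γ h * (2 * Real.pi * Complex.I * ((t / (2 * Real.pi) * x⁻¹ - la k th h : ℝ) : ℂ) *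
        e (Ph t (la k th h) x))‖ ≤ ∑ h ∈ range k, ‖γ h‖ * (t / N + 7) := by
        apply norm_sum_le_of_le
        intro h hh
        rw [mem_range] at hh
        rw [norm_mul, norm_mul, e_norm, mul_one, norm_mul, Complex.norm_real, norm_mul, Complex.norm_I, mul_one,
          norm_mul, Complex.norm_real, Complex.norm_ofNat, Real.norm_eq_abs, Real.norm_eq_abs, abs_of_pos hpi]
        apply mul_le_mul_of_nonneg_left _ (norm_nonneg _)
        have h1 := la_lt k hk th hth1 h hh
        have h2 := la_nonneg k th hth0 h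
        have h3 : |t / (2 * Real.pi) * x⁻¹ - la k th h| ≤ t / (2 * Real.pi) * (N : ℝ)⁻¹ + 1 := by
          have h4 : x⁻¹ ≤ (N : ℝ)⁻¹ := inv_anti₀ hN0 hx
          have h5 : t / (2 * Real.pi) * x⁻¹ ≤ t / (2 * Real.pi) * (N : ℝ)⁻¹ :=
            mul_le_mul_of_nonneg_left h4 (by positivity)
          have h6 : 0 ≤ t / (2 * Real.pi) * x⁻¹ := by positivity
          rw [abs_le]
          constructor <;> linarith
        calc 2 * Real.pi * |t / (2 * Real.pi) * x⁻¹ - la k th h|
            ≤ 2 * Real.pi * (t / (2 * Real.pi) * (N : ℝ)⁻¹ + 1) := mul_le_mul_of_nonneg_left h3 (by positivity)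
          _ = t / N + 2 * Real.pi := by
              field_simp
          _ ≤ t / N + 7 := by linarith
    _ = (∑ h ∈ range k, ‖γ h‖) * (t / N + 7) := by rw [sum_mul]
    _ ≤ _ := mul_le_mul_of_nonneg_right (cs1 k γ hγ) (by positivity)

theorem integral_eq (a b : ℝ) (ha : 0 < a) (hab : a ≤ b) (ν : ℤ) :
    ∫ x in a..b, FF k th t γ x * e (-((ν : ℝ) * x)) = ∑ h ∈ range k, γ h * Jf t (la k th h + ν) a b := by
  have h1 : ∫ x in a..b, FF k th t γ x * e (-((ν : ℝ) * x)) =
      ∫ x in a..b, ∑ h ∈ range k, γ h * e (Ph t (la k th h + ν) x) := by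
    apply intervalIntegral.integral_congr
    intro x _
    unfold FF
    dsimp only
    rw [sum_mul]
    apply sum_congr rfl
    intro h _
    rw [mul_assoc, ← e_add]
    congr 2
    unfold Ph
    ring
  rw [h1, intervalIntegral.integral_finsetSum]
  · apply sum_congr rfl
    intro h _
    unfold Jf
    rw [intervalIntegral.integral_const_mul]
  · intro h _
    apply ContinuousOn.intervalIntegrable
    rw [Set.uIcc_of_le hab]
    apply ContinuousOn.mul continuousOn_const
    apply e_continuous.comp_continuousOn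
    intro x hx
    exact (Ph_deriv t (la k th h + ν) x (lt_of_lt_of_le ha hx.1)).continuousAt.continuousWithinAt

end

theorem harm' (V : ℕ) : ∑ j ∈ range V, (1 : ℝ) / (1 + j) ≤ 1 + Real.log (V + 1) := by
  rcases Nat.eq_zero_or_pos V with hV | hV
  · subst hV
    simp
  · obtain ⟨V', rfl⟩ : ∃ V', V = V' + 1 := ⟨V - 1, by omega⟩
    refine (harm V').trans ?_
    have : Real.log ((V' : ℝ) + 1) ≤ Real.log (((V' + 1 : ℕ) : ℝ) + 1) := by
      apply Real.log_le_log (by positivity)
      push_cast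
      linarith
    linarith

end Pool.Agent.Helper81K1.MP
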