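import Pool.Agent.Helper81K1.MP.Refl

set_option autoImplicit false

/-!
# The reflection formula: the error term
-/

namespace Pool.Agent.Helper81K1.MP

open Finset MeasureTheory
open Pool.Agent.Helper523.UF (e e_norm e_add e_neg e_int e_nat e_zero e_comp_hasDerivAt e_continuous)

/-- bound for the frequencies outside the main range, in absolute value -/
theorem outer (N k V : ℕ) (th t a b : ℝ) (γ : ℕ → ℂ) (hN : 1 ≤ N) (hk : 1 ≤ k) (hk2 : k ^ 2 ≤ N)
    (hth0 : 0 ≤ th) (hth1 : th < 1) (ht : 1 ≤ t) (hNa : N ≤ a) (hab : a ≤ b) (hb : b ≤ 2 * N)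
    (hγ : ∑ h ∈ range k, ‖γ h‖ ^ 2 ≤ 1) (L1 L2 : ℕ) (hL1 : L1 = ⌊k * t / (16 * Real.pi * N)⌋₊)
    (hL2 : L2 = ⌊k * t / (Real.pi * N)⌋₊) (hV : L2 < k * (V + 1)) :
    ‖(∑ ν ∈ Icc (-(V : ℤ)) V, ∑ h ∈ range k, γ h * Jf t (la k th h + ν) a b) -
      ∑ l ∈ Ioc L1 L2, γ (l % k) * Jf t (la k th l) a b‖ ≤
      2 * (Real.sqrt k * (1 + Real.log (V + 1))) + 34 * (N / Real.sqrt t) := by
  classical
  have hpi := Real.pi_gt_three
  have hk0 : (0 : ℝ) < k := by exact_mod_cast (by omega : 0 < k)
  have hk1 : (1 : ℝ) ≤ k := by exact_mod_cast hk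
  have hN0 : (0 : ℝ) < N := by exact_mod_cast (by omega : 0 < N)
  have ht0 : 0 < t := by linarith
  have hst : 0 < Real.sqrt t := Real.sqrt_pos.2 ht0
  have hss : Real.sqrt t * Real.sqrt t = t := Real.mul_self_sqrt ht0.le
  have hst1 : 1 ≤ Real.sqrt t := by
    rw [Real.one_le_sqrt]
    exact ht
  obtain ⟨A, hA⟩ : ∃ A : ℝ, A = 8 * N / t := ⟨_, rfl⟩
  have hA0 : 0 < A := by rw [hA]; positivity
  obtain ⟨f, hf⟩ : ∃ f : ℕ → ℂ, f = fun l => γ (l % k) * Jf t (la k th l) a b := ⟨_, rfl⟩
  have hlog0 : 0 ≤ Real.log (V + 1) := Real.log_nonneg (by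
    have : (0 : ℝ) ≤ V := Nat.cast_nonneg V
    linarith)
  -- the square root
  have hQ : Real.sqrt (A ^ 2 + A * k * (1 + Real.log k)) ≤ 9 * (N / Real.sqrt t) := by
    rw [Real.sqrt_le_left (by positivity)]
    have h1 : 1 + Real.log k ≤ k := by
      have := Real.log_le_sub_one_of_pos hk0
      linarith
    have h2 : (k : ℝ) * (1 + Real.log k) ≤ N := by
      have h3 : (k : ℝ) ^ 2 ≤ N := by exact_mod_cast hk2
      nlinarith
    have h4 : A * k * (1 + Real.log k) ≤ A * N := by
      rw [mul_assoc]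
      exact mul_le_mul_of_nonneg_left h2 hA0.le
    have h5 : (9 * (N / Real.sqrt t)) ^ 2 = 81 * N ^ 2 / t := by
      rw [mul_pow, div_pow, Real.sq_sqrt ht0.le]
      ring
    have h6 : A * N = 8 * N ^ 2 / t := by
      rw [hA]
      ring
    have h7 : A ^ 2 ≤ 64 * N ^ 2 / t := by
      rw [hA, div_pow, div_le_div_iff₀ (by positivity) ht0]
      have h8 : t ≤ t ^ 2 := by nlinarith
      calc (8 * (N : ℝ)) ^ 2 * t = 64 * N ^ 2 * t := by ring
        _ ≤ 64 * N ^ 2 * t ^ 2 := mul_le_mul_of_nonneg_left h8 (by positivity)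
    rw [h5]
    have h8 : 64 * (N : ℝ) ^ 2 / t + 8 * N ^ 2 / t ≤ 81 * N ^ 2 / t := by
      rw [← add_div]
      apply div_le_div_of_nonneg_right _ ht0.le
      nlinarith [sq_nonneg (N : ℝ)]
    linarith
  have hwb0 : ∀ j, 0 ≤ wb A k j := by
    intro j
    unfold wb
    split_ifs
    · exact hA0.le
    · exact le_min hA0.le (by positivity)
  -- the first part
  have hpos : ∑ ν ∈ range (V + 1), ∑ h ∈ range k, γ h * Jf t (la k th h + ((ν : ℤ) : ℝ)) a b =
      ∑ l ∈ range (k * (V + 1)), f l := by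
    rw [← blocks f k (V + 1)]
    apply sum_congr rfl
    intro ν _
    apply sum_congr rfl
    intro h hh
    rw [mem_range] at hh
    rw [hf]
    dsimp only
    rw [la_block k hk, Nat.add_mul_mod_self_left, Nat.mod_eq_of_lt hh]
    push_cast
    rfl
  obtain ⟨G, hG⟩ : ∃ G : ℕ → ℝ, G = fun l => wb A k l + (if l = 0 then 16 * (N / Real.sqrt t) else 0) := ⟨_, rfl⟩
  have hG0 : ∀ l, 0 ≤ G l := by
    intro l
    rw [hG]
    have := hwb0 l
    dsimp only
    split_ifs <;> positivity
  have hfG : ∀ l, l ∉ Ioc L1 L2 → ‖f l‖ ≤ ‖γ (l % k)‖ * G l := by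
    intro l hl
    rw [hf]
    dsimp only
    rw [norm_mul]
    apply mul_le_mul_of_nonneg_left _ (norm_nonneg _)
    rw [hG]
    dsimp only
    rcases Nat.eq_zero_or_pos l with h0 | h0
    · subst h0
      rw [if_pos rfl]
      have h1 := osc2 t (la k th 0) a b (2 * N) ht0 (by linarith) hab hb
      have h2 := hwb0 0
      have h3 : 8 * (2 * (N : ℝ)) / Real.sqrt t = 16 * (N / Real.sqrt t) := by ring
      linarith
    · rw [if_neg (by omega), add_zero, hA]
      apply J_out N k th t a b hN hk hth0 hth1 ht0 hNa hab hb L1 L2 hL1 hL2 l h0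
      intro hc
      exact hl (mem_Ioc.2 hc)
  have hfirst : ‖∑ l ∈ range (k * (V + 1)), f l - ∑ l ∈ Ioc L1 L2, f l‖ ≤
      Real.sqrt k * (1 + Real.log (V + 1)) + 25 * (N / Real.sqrt t) := by
    have hsub : Ioc L1 L2 ⊆ range (k * (V + 1)) := by
      intro l hl
      rw [mem_Ioc] at hl
      rw [mem_range]
      omega
    rw [← sum_sdiff hsub, add_sub_cancel_right]
    calc ‖∑ l ∈ range (k * (V + 1)) \ Ioc L1 L2, f l‖
        ≤ ∑ l ∈ range (k * (V + 1)) \ Ioc L1 L2, ‖γ (l % k)‖ * G l := by
          apply norm_sum_le_of_le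
          intro l hl
          rw [mem_sdiff] at hl
          exact hfG l hl.2
      _ ≤ ∑ l ∈ range (k * (V + 1)), ‖γ (l % k)‖ * G l := by
          apply sum_le_sum_of_subset_of_nonneg sdiff_subset
          intro l _ _
          exact mul_nonneg (norm_nonneg _) (hG0 l)
      _ = ∑ ν ∈ range (V + 1), ∑ h ∈ range k, ‖γ h‖ * G (h + k * ν) := by
          rw [← blocks]
          apply sum_congr rfl
          intro ν _
          apply sum_congr rfl
          intro h hh
          rw [mem_range] at hh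
          rw [Nat.add_mul_mod_self_left, Nat.mod_eq_of_lt hh]
      _ = ∑ h ∈ range k, ‖γ h‖ * G (h + k * 0) + ∑ ν ∈ range V, ∑ h ∈ range k, ‖γ h‖ * G (h + k * (ν + 1)) := by
          rw [sum_range_succ', add_comm]
      _ ≤ 25 * (N / Real.sqrt t) + ∑ ν ∈ range V, Real.sqrt k * (1 / (1 + (ν : ℝ))) := by
          apply add_le_add
          · have h1 : ∑ h ∈ range k, ‖γ h‖ * G (h + k * 0) = ∑ h ∈ range k, ‖γ h‖ * wb A k h +
                ∑ h ∈ range k, ‖γ h‖ * (if h = 0 then 16 * (N / Real.sqrt t) else 0) := by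
              rw [← sum_add_distrib]
              apply sum_congr rfl
              intro h _
              rw [hG]
              dsimp only
              rw [mul_zero, add_zero, mul_add]
            rw [h1]
            have h2 := cs k γ (wb A k) hγ _ (wb_sq A hA0.le k hk)
            have h3 : ∑ h ∈ range k, ‖γ h‖ * (if h = 0 then 16 * (N / Real.sqrt t) else 0) ≤
                16 * (N / Real.sqrt t) := by
              have h4 : ∑ h ∈ range k, ‖γ h‖ * (if h = 0 then 16 * (N / Real.sqrt t) else 0) =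
                  ‖γ 0‖ * (16 * (N / Real.sqrt t)) := by
                rw [sum_eq_single_of_mem 0 (mem_range.2 (by omega))]
                · rw [if_pos rfl]
                · intro h _ hh
                  rw [if_neg hh, mul_zero]
              rw [h4]
              have h5 : ‖γ 0‖ ≤ 1 := by
                have h6 : ‖γ 0‖ ^ 2 ≤ ∑ h ∈ range k, ‖γ h‖ ^ 2 :=
                  single_le_sum (f := fun h => ‖γ h‖ ^ 2) (fun _ _ => by positivity) (mem_range.2 (by omega))
                have h7 : ‖γ 0‖ ^ 2 ≤ 1 := h6.trans hγ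
                nlinarith [norm_nonneg (γ 0)]
              have h8 : 0 ≤ 16 * (N / Real.sqrt t) := by positivity
              nlinarith
            linarith
          · apply sum_le_sum
            intro ν _
            calc ∑ h ∈ range k, ‖γ h‖ * G (h + k * (ν + 1)) ≤ ∑ h ∈ range k, ‖γ h‖ * (1 / (1 + (ν : ℝ))) := by
                  apply sum_le_sum
                  intro h _
                  apply mul_le_mul_of_nonneg_left _ (norm_nonneg _)
                  have hne : h + k * (ν + 1) ≠ 0 := by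
                    have : 0 < k * (ν + 1) := by positivity
                    omega
                  rw [hG]
                  dsimp only
                  rw [if_neg hne, add_zero]
                  unfold wb
                  rw [if_neg hne]
                  refine (min_le_right _ _).trans ?_
                  rw [div_le_div_iff₀ (by
                    have : 0 < h + k * (ν + 1) := by omega
                    exact_mod_cast this) (by positivity)]
                  push_cast
                  have : (0 : ℝ) ≤ h := Nat.cast_nonneg h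
                  linarith
              _ = (∑ h ∈ range k, ‖γ h‖) * (1 / (1 + (ν : ℝ))) := by rw [sum_mul]
              _ ≤ _ := mul_le_mul_of_nonneg_right (cs1 k γ hγ) (by positivity)
      _ ≤ _ := by
          rw [← mul_sum, add_comm]
          apply add_le_add _ le_rfl
          exact mul_le_mul_of_nonneg_left (harm' V) (Real.sqrt_nonneg _)
  -- negative frequencies
  have hneg : ‖∑ μ ∈ range V, ∑ h ∈ range k, γ h * Jf t (la k th h + ((-((μ : ℤ) + 1) : ℤ) : ℝ)) a b‖ ≤
      Real.sqrt k * (1 + Real.log (V + 1)) + 9 * (N / Real.sqrt t) := by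
    have h00 : 0 ≤ Real.sqrt k * (1 + Real.log (V + 1)) + 9 * (N / Real.sqrt t) := by positivity
    rcases Nat.eq_zero_or_pos V with hV0 | hV0
    · subst hV0
      rw [range_zero, sum_empty, norm_zero]
      simpa using h00
    obtain ⟨V', rfl⟩ : ∃ V', V = V' + 1 := ⟨V - 1, by omega⟩
    rw [sum_range_succ', add_comm]
    refine (norm_add_le _ _).trans ?_
    have h1 : ‖∑ h ∈ range k, γ h * Jf t (la k th h + ((-(((0 : ℕ) : ℤ) + 1) : ℤ) : ℝ)) a b‖ ≤
        9 * (N / Real.sqrt t) := by
      calc ‖∑ h ∈ range k, γ h * Jf t (la k th h + ((-(((0 : ℕ) : ℤ) + 1) : ℤ) : ℝ)) a b‖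
          ≤ ∑ h ∈ range k, ‖γ h‖ * wb A k (k - 1 - h) := by
            apply norm_sum_le_of_le
            intro h hh
            rw [mem_range] at hh
            rw [norm_mul]
            apply mul_le_mul_of_nonneg_left _ (norm_nonneg _)
            have h2 := la_lt k hk th hth1 h hh
            have e0 : la k th h + ((-(((0 : ℕ) : ℤ) + 1) : ℤ) : ℝ) = la k th h - 1 := by
              push_cast
              ring
            rw [e0]
            have h3 : ‖Jf t (la k th h - 1) a b‖ ≤ A := by
              rw [hA]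
              apply J_small N t a b hN ht0 hNa hab hb
              have : 0 < t / (8 * Real.pi * N) := by positivity
              linarith
            have h4 := J_neg N t a b hN ht0 hNa hab (la k th h - 1) (by linarith)
            unfold wb
            split_ifs with h5
            · exact h3
            · apply le_min h3
              refine h4.trans ?_
              have h6 : ((k - 1 - h : ℕ) : ℝ) = k - 1 - h := by
                rw [Nat.cast_sub (by omega), Nat.cast_sub (by omega)]
                push_cast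
                ring
              have h7 : (1 : ℝ) ≤ ((k - 1 - h : ℕ) : ℝ) := by exact_mod_cast (by omega : 1 ≤ k - 1 - h)
              have h8 : ((k - 1 - h : ℕ) : ℝ) / k ≤ -(la k th h - 1) := by
                unfold la
                rw [h6, div_le_iff₀ hk0]
                have : -(((h : ℝ) + th) / k - 1) * k = k - h - th := by
                  field_simp
                  ring
                rw [this]
                linarith
              calc 1 / (-(la k th h - 1)) ≤ 1 / (((k - 1 - h : ℕ) : ℝ) / k) :=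
                    one_div_le_one_div_of_le (by positivity) h8
                _ = _ := one_div_div _ _
        _ ≤ Real.sqrt (A ^ 2 + A * k * (1 + Real.log k)) := by
            apply cs k γ (fun h => wb A k (k - 1 - h)) hγ
            have := Finset.sum_range_reflect (fun j => wb A k j ^ 2) k
            rw [this]
            exact wb_sq A hA0.le k hk
        _ ≤ _ := hQ
    have h2 : ‖∑ μ ∈ range V', ∑ h ∈ range k, γ h * Jf t (la k th h + ((-(((μ + 1 : ℕ) : ℤ) + 1) : ℤ) : ℝ)) a b‖ ≤
        Real.sqrt k * (1 + Real.log (((V' + 1 : ℕ) : ℝ) + 1)) := by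
      calc ‖∑ μ ∈ range V', ∑ h ∈ range k, γ h * Jf t (la k th h + ((-(((μ + 1 : ℕ) : ℤ) + 1) : ℤ) : ℝ)) a b‖
          ≤ ∑ μ ∈ range V', Real.sqrt k * (1 / (1 + (μ : ℝ))) := by
            apply norm_sum_le_of_le
            intro μ _
            calc ‖∑ h ∈ range k, γ h * Jf t (la k th h + ((-(((μ + 1 : ℕ) : ℤ) + 1) : ℤ) : ℝ)) a b‖
                ≤ ∑ h ∈ range k, ‖γ h‖ * (1 / (1 + (μ : ℝ))) := by
                  apply norm_sum_le_of_le
                  intro h hh
                  rw [mem_range] at hh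
                  rw [norm_mul]
                  apply mul_le_mul_of_nonneg_left _ (norm_nonneg _)
                  have h2 := la_lt k hk th hth1 h hh
                  have hμ0 : (0 : ℝ) ≤ μ := Nat.cast_nonneg μ
                  have e0 : la k th h + ((-(((μ + 1 : ℕ) : ℤ) + 1) : ℤ) : ℝ) = la k th h - (μ + 2) := by
                    push_cast
                    ring
                  rw [e0]
                  refine (J_neg N t a b hN ht0 hNa hab _ (by linarith)).trans ?_
                  apply one_div_le_one_div_of_le (by linarith)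
                  linarith
              _ = (∑ h ∈ range k, ‖γ h‖) * (1 / (1 + (μ : ℝ))) := by rw [sum_mul]
              _ ≤ _ := mul_le_mul_of_nonneg_right (cs1 k γ hγ) (by positivity)
        _ ≤ _ := by
            rw [← mul_sum]
            apply mul_le_mul_of_nonneg_left _ (Real.sqrt_nonneg _)
            refine (harm' V').trans ?_
            have : Real.log ((V' : ℝ) + 1) ≤ Real.log (((V' + 1 : ℕ) : ℝ) + 1) := by
              apply Real.log_le_log (by positivity)
              push_cast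
              linarith
            linarith
    refine (add_le_add h1 h2).trans (le_of_eq ?_)
    ring
  have hsplit := int_sum (fun ν : ℤ => ∑ h ∈ range k, γ h * Jf t (la k th h + (ν : ℝ)) a b) V
  rw [hsplit]
  have e1 : (∑ ν ∈ range (V + 1), (fun ν : ℤ => ∑ h ∈ range k, γ h * Jf t (la k th h + (ν : ℝ)) a b) (ν : ℤ)) =
      ∑ l ∈ range (k * (V + 1)), f l := hpos
  rw [e1]
  have e2 : ∑ l ∈ Ioc L1 L2, γ (l % k) * Jf t (la k th l) a b = ∑ l ∈ Ioc L1 L2, f l := by rw [hf]
  rw [e2]
  have e3 : ∀ x y z : ℂ, x + y - z = (x - z) + y := fun x y z => by ring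
  rw [e3]
  refine (norm_add_le _ _).trans ?_
  refine (add_le_add hfirst hneg).trans (le_of_eq ?_)
  ring

/-- the coefficients -/
noncomputable def bb (k : ℕ) (th : ℝ) (γ : ℕ → ℂ) (n : ℕ) : ℂ := ∑ h ∈ range k, γ h * e (-(la k th h * n))

/-- the reflection formula -/
theorem refl (N k : ℕ) (th t : ℝ) (a b : ℕ) (γ : ℕ → ℂ) (hN : 1 ≤ N) (hk : 1 ≤ k) (hk2 : k ^ 2 ≤ N)
    (hth0 : 0 ≤ th) (hth1 : th < 1) (ht : 1 ≤ t) (htN : t ≤ (N : ℝ) ^ 2) (hNa : N ≤ a) (hab : a ≤ b)
    (hb : b ≤ 2 * N) (hγ : ∑ h ∈ range k, ‖γ h‖ ^ 2 ≤ 1) (hbb : ∀ n, ‖bb k th γ n‖ ≤ 1)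
    (L1 L2 : ℕ) (hL1 : L1 = ⌊k * t / (16 * Real.pi * N)⌋₊) (hL2 : L2 = ⌊k * t / (Real.pi * N)⌋₊) :
    ‖∑ n ∈ Ioc a b, bb k th γ n * e (t / (2 * Real.pi) * Real.log n) -
      ∑ l ∈ Ioc L1 L2, γ (l % k) * Jf t (la k th l) a b‖ ≤
      68 * Real.sqrt N + 34 * (N / Real.sqrt t) := by
  have hpi := Real.pi_pos
  have hpi3 := Real.pi_gt_three
  have hk0 : (0 : ℝ) < k := by exact_mod_cast (by omega : 0 < k)
  have hN0 : (0 : ℝ) < N := by exact_mod_cast (by omega : 0 < N)
  have hN1 : (1 : ℝ) ≤ N := by exact_mod_cast hN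
  have ht0 : 0 < t := by linarith
  have ha0 : (0 : ℝ) < a := by exact_mod_cast (by omega : 0 < a)
  have hNa' : (N : ℝ) ≤ a := by exact_mod_cast hNa
  have hab' : (a : ℝ) ≤ b := by exact_mod_cast hab
  have hb' : (b : ℝ) ≤ 2 * N := by exact_mod_cast hb
  have hkN : (k : ℝ) ≤ N := by
    have : k ≤ N := by nlinarith
    exact_mod_cast this
  obtain ⟨U, hU⟩ : ∃ U : ℕ, U = 32 * N ^ 3 := ⟨_, rfl⟩
  have hUr : (U : ℝ) = 32 * (N : ℝ) ^ 3 := by rw [hU]; push_cast; ring
  have hU1 : (1 : ℝ) ≤ (N : ℝ) ^ 3 := one_le_pow₀ hN1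
  have hU0 : (0 : ℝ) < U := by rw [hUr]; positivity
  obtain ⟨V, hV⟩ : ∃ V : ℕ, V = U ^ 2 := ⟨_, rfl⟩
  have hVr : (V : ℝ) = (U : ℝ) ^ 2 := by rw [hV]; push_cast; ring
  -- Poisson summation
  have hpo := poisson V (1 / U) (Real.sqrt k * (t / N + 7)) (by positivity) (by
      apply one_div_le_one_div_of_le (by norm_num)
      rw [hUr]
      linarith) a b hab (FF k th t γ) (FF' k th t γ)
    (fun x hx => FF_deriv k th t γ x (lt_of_lt_of_le ha0 hx.1)) (FF'_cont k th t γ a b ha0)
    (fun x hx => FF'_le N k th t γ hN hk hth0 hth1 ht0 hγ x (by linarith [hx.1]))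
  have hFn : ∀ n : ℕ, 1 ≤ n → FF k th t γ n = bb k th γ n * e (t / (2 * Real.pi) * Real.log n) := by
    intro n _
    unfold FF bb
    rw [sum_mul]
    apply sum_congr rfl
    intro h _
    rw [mul_assoc, ← e_add]
    congr 2
    unfold Ph
    ring
  have hFn1 : ∀ n : ℕ, 1 ≤ n → ‖FF k th t γ n‖ ≤ 1 := by
    intro n hn
    rw [hFn n hn, norm_mul, e_norm, mul_one]
    exact hbb n
  have hs1 : ∑ n ∈ Ioc a b, FF k th t γ n = ∑ n ∈ Ioc a b, bb k th γ n * e (t / (2 * Real.pi) * Real.log n) := by
    apply sum_congr rfl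
    intro n hn
    rw [mem_Ioc] at hn
    exact hFn n (by omega)
  have hs2 : ∑ ν ∈ Icc (-(V : ℤ)) V, ∫ x in (a : ℝ)..b, FF k th t γ x * e (-((ν : ℝ) * x)) =
      ∑ ν ∈ Icc (-(V : ℤ)) V, ∑ h ∈ range k, γ h * Jf t (la k th h + ν) a b := by
    apply sum_congr rfl
    intro ν _
    exact integral_eq k th t γ a b ha0 hab' ν
  rw [hs1, hs2] at hpo
  have hL2t : (L2 : ℝ) ≤ t := by
    have h1 := Nat.floor_le (a := k * t / (Real.pi * N)) (by positivity)
    rw [← hL2] at h1
    refine h1.trans ?_
    rw [div_le_iff₀ (by positivity)]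
    have h2 : (k : ℝ) * t ≤ N * t := mul_le_mul_of_nonneg_right hkN ht0.le
    have h3 : (N : ℝ) * t * 1 ≤ N * t * Real.pi := mul_le_mul_of_nonneg_left (by linarith) (by positivity)
    linarith
  have hVN : (N : ℝ) ^ 2 ≤ V := by
    rw [hVr, hUr]
    have h1 : (N : ℝ) ≤ 32 * (N : ℝ) ^ 3 := by
      have : (N : ℝ) * 1 ≤ N * N ^ 2 := mul_le_mul_of_nonneg_left (one_le_pow₀ hN1) hN0.le
      nlinarith
    exact pow_le_pow_left₀ hN0.le h1 2
  have hL2V : L2 < k * (V + 1) := by
    have h1 : L2 ≤ V := by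
      have : (L2 : ℝ) ≤ V := by linarith
      exact_mod_cast this
    have h2 : 1 * (V + 1) ≤ k * (V + 1) := Nat.mul_le_mul_right _ hk
    omega
  have hou := outer N k V th t a b γ hN hk hk2 hth0 hth1 ht hNa' hab' hb' hγ L1 L2 hL1 hL2 hL2V
  -- the error of the Poisson summation
  have herr : (‖FF k th t γ a‖ + ‖FF k th t γ b‖) / 2 + ((b : ℝ) - a) * (Real.sqrt k * (t / N + 7) *
      (3 * (1 / U) + 1 / ((2 * V + 1) * Real.pi * (1 / U)))) ≤ 2 := by
    have h1 := hFn1 a (by omega)
    have h2 := hFn1 b (by omega)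
    have h3 : (b : ℝ) - a ≤ N := by linarith
    have h4 : Real.sqrt k ≤ N := by
      rw [Real.sqrt_le_left hN0.le]
      nlinarith
    have h5 : t / N + 7 ≤ 8 * N := by
      have : t / N ≤ N := by
        rw [div_le_iff₀ hN0]
        linarith
      linarith
    have h6 : 3 * (1 / (U : ℝ)) + 1 / ((2 * V + 1) * Real.pi * (1 / U)) ≤ 4 / U := by
      have h7 : 1 / ((2 * (V : ℝ) + 1) * Real.pi * (1 / U)) ≤ 1 / U := by
        apply one_div_le_one_div_of_le hU0
        rw [hVr]
        have h8 : (U : ℝ) ≤ (2 * (U : ℝ) ^ 2) * 3 * (1 / U) := by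
          field_simp
          norm_num
        refine h8.trans ?_
        apply mul_le_mul_of_nonneg_right _ (by positivity)
        apply mul_le_mul _ hpi3.le (by norm_num) (by positivity)
        linarith
      have h9 : 3 * (1 / (U : ℝ)) + 1 / U = 4 / U := by ring
      linarith
    have h10 : ((b : ℝ) - a) * (Real.sqrt k * (t / N + 7) * (3 * (1 / (U : ℝ)) + 1 / ((2 * V + 1) * Real.pi * (1 / U)))) ≤
        N * (N * (8 * N) * (4 / U)) := by
      apply mul_le_mul h3 _ (by positivity) hN0.le
      apply mul_le_mul _ h6 (by positivity) (by positivity)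
      exact mul_le_mul h4 h5 (by positivity) hN0.le
    have h11 : (N : ℝ) * (N * (8 * N) * (4 / U)) = 1 := by
      rw [hUr]
      field_simp
      norm_num
    linarith
  -- the logarithm
  have hlogk : 2 * (Real.sqrt k * (1 + Real.log (V + 1))) ≤ 66 * Real.sqrt N := by
    obtain ⟨r, hr⟩ : ∃ r : ℝ, r = Real.sqrt (Real.sqrt N) := ⟨_, rfl⟩
    have hsN : 1 ≤ Real.sqrt N := Real.one_le_sqrt.2 hN1
    have hr2 : r ^ 2 = Real.sqrt N := by rw [hr, Real.sq_sqrt (Real.sqrt_nonneg _)]
    have hr4 : r ^ 4 = N := by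
      have : r ^ 4 = (r ^ 2) ^ 2 := by ring
      rw [this, hr2, Real.sq_sqrt hN0.le]
    have hr1 : 1 ≤ r := by rw [hr]; exact Real.one_le_sqrt.2 hsN
    have hkr : Real.sqrt k ≤ r := by
      rw [hr]
      apply Real.sqrt_le_sqrt
      apply Real.le_sqrt_of_sq_le
      exact_mod_cast hk2
    have hV2 : (V : ℝ) + 1 ≤ 2048 * r ^ 24 := by
      have h1 : (V : ℝ) = 1024 * r ^ 24 := by
        rw [hVr, hUr, ← hr4]
        ring
      have h2 : 1 ≤ r ^ 24 := one_le_pow₀ hr1
      rw [h1]
      linarith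
    have hlogV : Real.log (V + 1) ≤ 7 + 24 * r + 1 := by
      have h1 : Real.log (V + 1) ≤ Real.log (2048 * r ^ 24) := Real.log_le_log (by positivity) hV2
      have h2 : Real.log (2048 * r ^ 24) = 11 * Real.log 2 + 24 * Real.log r := by
        rw [Real.log_mul (by norm_num) (by positivity), Real.log_pow]
        have : (2048 : ℝ) = 2 ^ 11 := by norm_num
        rw [this, Real.log_pow]
        push_cast
        ring
      have h3 := Real.log_two_lt_d9
      have h4 := Real.log_le_sub_one_of_pos (by linarith : 0 < r)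
      rw [h2] at h1
      linarith
    calc 2 * (Real.sqrt k * (1 + Real.log (V + 1))) ≤ 2 * (r * (9 + 24 * r)) := by
          apply mul_le_mul_of_nonneg_left _ (by norm_num)
          apply mul_le_mul hkr (by linarith) _ (by linarith)
          have : 0 ≤ Real.log ((V : ℝ) + 1) := Real.log_nonneg (by
            have : (0 : ℝ) ≤ V := Nat.cast_nonneg V
            linarith)
          linarith
      _ ≤ 66 * r ^ 2 := by nlinarith
      _ = 66 * Real.sqrt N := by rw [hr2]
  have e1 : ∀ x y z : ℂ, x - z = (x - y) + (y - z) := fun x y z => by ring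
  rw [e1 _ (∑ ν ∈ Icc (-(V : ℤ)) V, ∑ h ∈ range k, γ h * Jf t (la k th h + ν) a b) _]
  refine (norm_add_le _ _).trans ?_
  have hsN : 1 ≤ Real.sqrt N := Real.one_le_sqrt.2 hN1
  have h1 := hpo.trans herr
  linarith

end Pool.Agent.Helper81K1.MP
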