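import Pool.Agent.Helper81K1.MP.Osc

set_option autoImplicit false

/-!
# The variation of the weights of the dual sum
-/

namespace Pool.Agent.Helper81K1.MP

open Finset MeasureTheory
open Pool.Agent.Helper523.UF (e e_norm e_add e_neg e_int e_nat e_zero)

theorem harm (R : ℕ) : ∑ j ∈ range (R + 1), (1 : ℝ) / (1 + j) ≤ 1 + Real.log (R + 1) := by
  have h := harmonic_le_one_add_log (R + 1)
  unfold harmonic at h
  push_cast at h
  refine le_trans (le_of_eq ?_) h
  apply sum_congr rfl
  intro j _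
  rw [one_div, add_comm]

theorem recip_sum (S : Finset ℕ) (l0 : ℤ) (R : ℕ) (h : ∀ l ∈ S, |(l : ℤ) - l0| ≤ R) :
    ∑ l ∈ S, (1 : ℝ) / (1 + |(l : ℝ) - l0|) ≤ 2 * (1 + Real.log (R + 1)) := by
  classical
  have hsub : ∀ (S' : Finset ℕ) (φ : ℕ → ℕ), Set.InjOn φ S' → (∀ l ∈ S', φ l ≤ R) →
      (∀ l ∈ S', (φ l : ℝ) = |(l : ℝ) - l0|) → ∑ l ∈ S', (1 : ℝ) / (1 + |(l : ℝ) - l0|) ≤ 1 + Real.log (R + 1) := by
    intro S' φ hinj hR hφ
    calc ∑ l ∈ S', (1 : ℝ) / (1 + |(l : ℝ) - l0|) = ∑ l ∈ S', (1 : ℝ) / (1 + (φ l : ℝ)) := by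
          apply sum_congr rfl
          intro l hl
          rw [hφ l hl]
      _ = ∑ j ∈ S'.image φ, (1 : ℝ) / (1 + (j : ℝ)) := by
          rw [sum_image]
          exact hinj
      _ ≤ ∑ j ∈ range (R + 1), (1 : ℝ) / (1 + (j : ℝ)) := by
          apply sum_le_sum_of_subset_of_nonneg
          · intro j hj
            rw [mem_image] at hj
            obtain ⟨l, hl, rfl⟩ := hj
            rw [mem_range]
            have := hR l hl
            omega
          · intro j _ _
            positivity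
      _ ≤ _ := harm R
  rw [← sum_filter_add_sum_filter_not S (fun l : ℕ => l0 ≤ (l : ℤ))]
  have h1 := hsub (S.filter (fun l : ℕ => l0 ≤ (l : ℤ))) (fun l => ((l : ℤ) - l0).toNat) (by
      intro l hl l' hl' hll
      rw [mem_coe, mem_filter] at hl hl'
      have : ((l : ℤ) - l0).toNat = ((l' : ℤ) - l0).toNat := hll
      omega) (by
      intro l hl
      rw [mem_filter] at hl
      have := h l hl.1
      rw [abs_le] at this
      omega) (by
      intro l hl
      rw [mem_filter] at hl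
      have h2 : (((((l : ℤ) - l0).toNat : ℕ) : ℤ) : ℝ) = ((l : ℤ) - l0 : ℤ) := by
        rw [Int.toNat_of_nonneg (by omega)]
      push_cast at h2
      rw [abs_of_nonneg]
      · exact h2
      · have : (l0 : ℝ) ≤ l := by exact_mod_cast hl.2
        linarith)
  have h3 := hsub (S.filter (fun l : ℕ => ¬ l0 ≤ (l : ℤ))) (fun l => (l0 - (l : ℤ)).toNat) (by
      intro l hl l' hl' hll
      rw [mem_coe, mem_filter] at hl hl'
      have : (l0 - (l : ℤ)).toNat = (l0 - (l' : ℤ)).toNat := hll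
      omega) (by
      intro l hl
      rw [mem_filter] at hl
      have := h l hl.1
      rw [abs_le] at this
      omega) (by
      intro l hl
      rw [mem_filter] at hl
      have h2 : ((((l0 - (l : ℤ)).toNat : ℕ) : ℤ) : ℝ) = (l0 - (l : ℤ) : ℤ) := by
        rw [Int.toNat_of_nonneg (by omega)]
      push_cast at h2
      rw [abs_of_nonpos]
      · rw [neg_sub]
        exact h2
      · have : (l : ℝ) < l0 := by
          have := hl.2
          rw [not_le] at this
          exact_mod_cast this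
        linarith)
  linarith

/-- the frequencies -/
noncomputable def la (k : ℕ) (th : ℝ) (l : ℕ) : ℝ := (l + th) / k

theorem la_succ (k : ℕ) (th : ℝ) (l : ℕ) : la k th (l + 1) = la k th l + 1 / k := by
  unfold la
  push_cast
  ring

/-- one step -/
theorem step (k l : ℕ) (th t n : ℝ) (hk : 1 ≤ k) (hl : 1 ≤ l) (hth0 : 0 ≤ th) (ht : 0 < t)
    (hn : 0 < n) (hstep : Real.sqrt t ≤ n / k) (hR : la k th (l + 1) * n ≤ 4 * t / Real.pi) (l0 : ℤ)
    (hl0 : l0 = ⌊k * (t / (2 * Real.pi)) / n - th⌋) :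
    ‖Jf t 1 (la k th l * n) (la k th (l + 1) * n)‖ ≤ 22 * Real.sqrt t / (1 + |(l : ℝ) - l0|) := by
  have hpi := Real.pi_pos
  have hpi3 := Real.pi_gt_three
  have hk0 : (0 : ℝ) < k := by exact_mod_cast (by omega : 0 < k)
  have hl1 : (1 : ℝ) ≤ l := by exact_mod_cast hl
  have hst : 0 < Real.sqrt t := Real.sqrt_pos.2 ht
  have hla0 : 0 < la k th l := by unfold la; positivity
  have hA : 0 < la k th l * n := by positivity
  have hAB : la k th l * n ≤ la k th (l + 1) * n := by
    apply mul_le_mul_of_nonneg_right _ hn.le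
    rw [la_succ]
    have : (0 : ℝ) < 1 / k := by positivity
    linarith
  have hss : Real.sqrt t * Real.sqrt t = t := Real.mul_self_sqrt ht.le
  have hfl1 : (l0 : ℝ) ≤ k * (t / (2 * Real.pi)) / n - th := by rw [hl0]; exact Int.floor_le _
  have hfl2 : k * (t / (2 * Real.pi)) / n - th < l0 + 1 := by rw [hl0]; exact Int.lt_floor_add_one _
  have hx1 : (l0 + th) * (n / k) ≤ t / (2 * Real.pi) := by
    have h1 : (l0 + th) ≤ k * (t / (2 * Real.pi)) / n := by linarith
    calc (l0 + th) * (n / k) ≤ (k * (t / (2 * Real.pi)) / n) * (n / k) :=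
          mul_le_mul_of_nonneg_right h1 (by positivity)
      _ = _ := by field_simp
  have hx2 : t / (2 * Real.pi) ≤ (l0 + 1 + th) * (n / k) := by
    have h1 : k * (t / (2 * Real.pi)) / n ≤ l0 + 1 + th := by linarith
    calc t / (2 * Real.pi) = (k * (t / (2 * Real.pi)) / n) * (n / k) := by field_simp
      _ ≤ _ := mul_le_mul_of_nonneg_right h1 (by positivity)
  have hlan : ∀ j : ℕ, la k th j * n = (j + th) * (n / k) := by
    intro j
    unfold la
    field_simp
  have hfar : ∀ D : ℝ, 0 < D → (t / (2 * Real.pi) + D * (n / k) ≤ la k th l * n ∨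
      la k th (l + 1) * n ≤ t / (2 * Real.pi) - D * (n / k)) →
      ‖Jf t 1 (la k th l * n) (la k th (l + 1) * n)‖ ≤ Real.sqrt t / D := by
    intro D hD h
    refine (osc_far t _ _ (D * (n / k)) _ ht hA hAB hR (by positivity) h).trans ?_
    rw [div_div, div_le_div_iff₀ (by positivity) hD]
    have h2 : D * Real.sqrt t ≤ D * (n / k) := mul_le_mul_of_nonneg_left hstep hD.le
    have h3 : Real.pi * Real.pi ≥ 4 := by nlinarith
    calc 4 * t * D = 4 * (Real.sqrt t * Real.sqrt t) * D := by rw [hss]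
      _ = 4 * (Real.sqrt t * (D * Real.sqrt t)) := by ring
      _ ≤ (Real.pi * Real.pi) * (Real.sqrt t * (D * (n / k))) := by
          apply mul_le_mul h3 _ (by positivity) (by positivity)
          exact mul_le_mul_of_nonneg_left h2 hst.le
      _ = Real.sqrt t * (Real.pi * (Real.pi * (D * (n / k)))) := by ring
  rcases le_or_gt (l0 + 2) (l : ℤ) with h1 | h1
  · have h1' : (l0 : ℝ) + 2 ≤ l := by exact_mod_cast h1
    have h2 := hfar (l - l0 - 1) (by linarith) (by
      left
      rw [hlan]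
      have : (l + th) * (n / k) = (l0 + 1 + th) * (n / k) + (l - l0 - 1) * (n / k) := by ring
      rw [this]
      linarith)
    refine h2.trans ?_
    rw [abs_of_nonneg (by linarith), div_le_div_iff₀ (by linarith) (by linarith)]
    nlinarith
  rcases le_or_gt ((l : ℤ) + 2) l0 with h3 | h3
  · have h3' : (l : ℝ) + 2 ≤ l0 := by exact_mod_cast h3
    have h2 := hfar (l0 - l - 1) (by linarith) (by
      right
      rw [hlan]
      have : ((l + 1 : ℕ) + th) * (n / k) = (l0 + th) * (n / k) - (l0 - l - 1) * (n / k) := by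
        push_cast
        ring
      rw [this]
      linarith)
    refine h2.trans ?_
    rw [abs_of_nonpos (by linarith), div_le_div_iff₀ (by linarith) (by linarith)]
    nlinarith
  · have h4 : |(l : ℝ) - l0| ≤ 1 := by
      rw [abs_le]
      have h5 : (l : ℤ) - l0 ≤ 1 := by omega
      have h6 : -1 ≤ (l : ℤ) - l0 := by omega
      constructor
      · exact_mod_cast h6
      · exact_mod_cast h5
    have h7 := osc2 t 1 _ _ _ ht hA hAB hR
    refine h7.trans ?_
    have h8 : 8 * (4 * t / Real.pi) / Real.sqrt t = 32 / Real.pi * Real.sqrt t := by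
      rw [← hss]
      field_simp
      ring_nf
      rw [Real.sqrt_sq hst.le]
    rw [h8]
    have h9 : 32 / Real.pi ≤ 11 := by
      rw [div_le_iff₀ hpi]
      linarith
    calc 32 / Real.pi * Real.sqrt t ≤ 11 * Real.sqrt t := mul_le_mul_of_nonneg_right h9 hst.le
      _ = 22 * Real.sqrt t / 2 := by ring
      _ ≤ _ := by
          apply div_le_div_of_nonneg_left (by positivity) (by positivity)
          linarith

/-- the integral of the dual sum -/
noncomputable def Wf (k : ℕ) (th t a b : ℝ) (l : ℕ) : ℂ := Jf t 1 (la k th l * a) (la k th l * b)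

theorem Wf_diff (k : ℕ) (th t a b : ℝ) (l : ℕ) (hk : 1 ≤ k) (hl : 1 ≤ l) (hth0 : 0 ≤ th) (ha : 0 < a) (hb : 0 < b) :
    Wf k th t a b (l + 1) - Wf k th t a b l =
      Jf t 1 (la k th l * b) (la k th (l + 1) * b) - Jf t 1 (la k th l * a) (la k th (l + 1) * a) := by
  have hk0 : (0 : ℝ) < k := by exact_mod_cast (by omega : 0 < k)
  have hl0 : (0 : ℝ) < l := by exact_mod_cast (by omega : 0 < l)
  have h1 : 0 < la k th l := by unfold la; positivity
  have h2 : 0 < la k th (l + 1) := by unfold la; positivity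
  have e1 := Jf_add t 1 (la k th l * a) (la k th l * b) (la k th (l + 1) * b) (by positivity) (by positivity)
    (by positivity)
  have e2 := Jf_add t 1 (la k th l * a) (la k th (l + 1) * a) (la k th (l + 1) * b) (by positivity) (by positivity)
    (by positivity)
  unfold Wf
  linear_combination e2 - e1

/-- the weights -/
noncomputable def vf (k : ℕ) (th t a b : ℝ) (l : ℕ) : ℂ := (((la k th l)⁻¹ : ℝ) : ℂ) * Wf k th t a b l

/-- the total variation of the weights -/
theorem tv (N k : ℕ) (th t a b : ℝ) (hN : 1 ≤ N) (hk : 1 ≤ k) (hth0 : 0 ≤ th) (hth1 : th < 1) (ht : 1 ≤ t)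
    (hkt : k * Real.sqrt t ≤ N) (hkN : k ≤ N) (hNa : N ≤ a) (hab : a ≤ b) (hb : b ≤ 2 * N) (L1 L2 : ℕ)
    (hL1 : L1 = ⌊k * t / (16 * Real.pi * N)⌋₊) (hL2 : L2 = ⌊k * t / (Real.pi * N)⌋₊) (hL : L1 < L2) :
    ‖vf k th t a b L2‖ + ∑ l ∈ Ico (L1 + 1) L2, ‖vf k th t a b (l + 1) - vf k th t a b l‖ ≤
      6171 * (N / Real.sqrt t) * (1 + Real.log (t + 3)) := by
  have hpi := Real.pi_pos
  have hpi3 := Real.pi_gt_three
  have hpi4 : Real.pi < 3.15 := Real.pi_lt_d2
  have hk0 : (0 : ℝ) < k := by exact_mod_cast (by omega : 0 < k)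
  have hN0 : (0 : ℝ) < N := by exact_mod_cast (by omega : 0 < N)
  have ht0 : 0 < t := by linarith
  have ha0 : 0 < a := by linarith
  have hb0 : 0 < b := by linarith
  have hst : 0 < Real.sqrt t := Real.sqrt_pos.2 ht0
  have hss : Real.sqrt t * Real.sqrt t = t := Real.mul_self_sqrt ht0.le
  have hkN' : (k : ℝ) ≤ N := by exact_mod_cast hkN
  obtain ⟨Λ, hΛ⟩ : ∃ Λ : ℝ, Λ = 16 * Real.pi * N / t := ⟨_, rfl⟩
  have hΛ0 : 0 < Λ := by rw [hΛ]; positivity
  -- the frequencies
  have hlow : ∀ l : ℕ, L1 < l → k * t / (16 * Real.pi * N) < l := by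
    intro l hl
    have h1 := Nat.lt_floor_add_one (k * t / (16 * Real.pi * N))
    rw [← hL1] at h1
    have h2 : (L1 : ℝ) + 1 ≤ l := by exact_mod_cast hl
    linarith
  have hup : ∀ l : ℕ, l ≤ L2 → (l : ℝ) ≤ k * t / (Real.pi * N) := by
    intro l hl
    have h1 := Nat.floor_le (a := k * t / (Real.pi * N)) (by positivity)
    rw [← hL2] at h1
    have h2 : (l : ℝ) ≤ L2 := by exact_mod_cast hl
    linarith
  have hlapos : ∀ l : ℕ, L1 < l → 0 < la k th l := by
    intro l hl
    have : (0 : ℝ) < l := by exact_mod_cast (by omega : 0 < l)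
    unfold la
    positivity
  have hlainv : ∀ l : ℕ, L1 < l → (la k th l)⁻¹ ≤ Λ := by
    intro l hl
    have h1 := hlow l hl
    rw [inv_le_comm₀ (hlapos l hl) hΛ0, hΛ]
    unfold la
    have h2 : (16 * Real.pi * N / t)⁻¹ = (k * t / (16 * Real.pi * N)) / k := by
      field_simp
    rw [h2]
    apply div_le_div_of_nonneg_right _ hk0.le
    linarith
  have hlaup : ∀ l : ℕ, L1 < l → l ≤ L2 → ∀ x : ℝ, 0 ≤ x → x ≤ 2 * N → la k th l * x ≤ 4 * t / Real.pi := by
    intro l hl hl2 x hx0 hx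
    have h1 := hup l hl2
    have h2 : (1 : ℝ) ≤ l := by exact_mod_cast (by omega : 1 ≤ l)
    have h3 : la k th l ≤ 2 * t / (Real.pi * N) := by
      unfold la
      rw [div_le_div_iff₀ hk0 (by positivity)]
      rw [le_div_iff₀ (by positivity)] at h1
      have h4 : ((l : ℝ) + th) * (Real.pi * N) ≤ 2 * (l * (Real.pi * N)) := by
        have : 0 < Real.pi * N := by positivity
        nlinarith
      nlinarith
    calc la k th l * x ≤ (2 * t / (Real.pi * N)) * (2 * N) :=
          mul_le_mul h3 hx hx0 (by positivity)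
      _ = _ := by
          field_simp
          ring
  have hW : ∀ l : ℕ, L1 < l → l ≤ L2 → ‖Wf k th t a b l‖ ≤ 11 * Real.sqrt t := by
    intro l hl hl2
    have h0 := hlapos l hl
    have h1 := osc2 t 1 (la k th l * a) (la k th l * b) (4 * t / Real.pi) ht0 (by positivity)
      (mul_le_mul_of_nonneg_left hab h0.le) (hlaup l hl hl2 b hb0.le hb)
    unfold Wf
    refine h1.trans ?_
    have h8 : 8 * (4 * t / Real.pi) / Real.sqrt t = 32 / Real.pi * Real.sqrt t := by
      rw [div_eq_iff hst.ne']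
      calc 8 * (4 * t / Real.pi) = 32 / Real.pi * t := by ring
        _ = 32 / Real.pi * (Real.sqrt t * Real.sqrt t) := by rw [hss]
        _ = _ := by ring
    rw [h8]
    apply mul_le_mul_of_nonneg_right _ hst.le
    rw [div_le_iff₀ hpi]
    linarith
  obtain ⟨pa, hpa⟩ : ∃ p : ℤ, p = ⌊k * (t / (2 * Real.pi)) / a - th⌋ := ⟨_, rfl⟩
  obtain ⟨pb, hpb⟩ : ∃ p : ℤ, p = ⌊k * (t / (2 * Real.pi)) / b - th⌋ := ⟨_, rfl⟩
  have hstepd : ∀ x : ℝ, N ≤ x → Real.sqrt t ≤ x / k := by
    intro x hx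
    rw [le_div_iff₀ hk0]
    linarith
  have hterm : ∀ l ∈ Ico (L1 + 1) L2, ‖vf k th t a b (l + 1) - vf k th t a b l‖ ≤
      Λ * Real.sqrt t * (11 * (1 / (1 + |(l : ℝ) - (0 : ℤ)|)) + 22 * (1 / (1 + |(l : ℝ) - pa|)) +
        22 * (1 / (1 + |(l : ℝ) - pb|))) := by
    intro l hl
    rw [mem_Ico] at hl
    have hl1 : L1 < l := by omega
    have hl1' : L1 < l + 1 := by omega
    have hl2 : l ≤ L2 := by omega
    have hl2' : l + 1 ≤ L2 := by omega
    have hl0 : (1 : ℝ) ≤ l := by exact_mod_cast (by omega : 1 ≤ l)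
    have hp := hlapos l hl1
    have hp' := hlapos (l + 1) hl1'
    have e1 : vf k th t a b (l + 1) - vf k th t a b l =
        ((((la k th (l + 1))⁻¹ - (la k th l)⁻¹ : ℝ)) : ℂ) * Wf k th t a b (l + 1) +
          (((la k th l)⁻¹ : ℝ) : ℂ) * (Wf k th t a b (l + 1) - Wf k th t a b l) := by
      unfold vf
      push_cast
      ring
    have hs1 := step k l th t a hk (by omega) hth0 ht0 ha0 (hstepd a hNa)
      (hlaup (l + 1) hl1' hl2' a ha0.le (by linarith)) pa hpa
    have hs2 := step k l th t b hk (by omega) hth0 ht0 hb0 (hstepd b (by linarith))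
      (hlaup (l + 1) hl1' hl2' b hb0.le hb) pb hpb
    have hd : |(la k th (l + 1))⁻¹ - (la k th l)⁻¹| ≤ Λ * (1 / (1 + l)) := by
      have e2 : (la k th l)⁻¹ - (la k th (l + 1))⁻¹ = (la k th l)⁻¹ * (1 / (l + 1 + th)) := by
        unfold la
        push_cast
        field_simp
        ring
      have h3 : 0 ≤ (la k th l)⁻¹ * (1 / (l + 1 + th)) := by positivity
      rw [abs_sub_comm, e2, abs_of_nonneg h3]
      apply mul_le_mul (hlainv l hl1) _ (by positivity) hΛ0.le
      apply one_div_le_one_div_of_le (by positivity)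
      linarith
    rw [e1]
    refine (norm_add_le _ _).trans ?_
    rw [norm_mul, norm_mul, Complex.norm_real, Complex.norm_real, Real.norm_eq_abs, Real.norm_eq_abs,
      abs_of_pos (by positivity : 0 < (la k th l)⁻¹), Wf_diff k th t a b l hk (by omega) hth0 ha0 hb0]
    have h4 : |(la k th (l + 1))⁻¹ - (la k th l)⁻¹| * ‖Wf k th t a b (l + 1)‖ ≤
        (Λ * (1 / (1 + l))) * (11 * Real.sqrt t) :=
      mul_le_mul hd (hW (l + 1) hl1' hl2') (norm_nonneg _) (by positivity)
    have h5 : (la k th l)⁻¹ * ‖Jf t 1 (la k th l * b) (la k th (l + 1) * b) -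
        Jf t 1 (la k th l * a) (la k th (l + 1) * a)‖ ≤
        Λ * (22 * Real.sqrt t / (1 + |(l : ℝ) - pb|) + 22 * Real.sqrt t / (1 + |(l : ℝ) - pa|)) := by
      apply mul_le_mul (hlainv l hl1) _ (norm_nonneg _) hΛ0.le
      exact (norm_sub_le _ _).trans (add_le_add hs2 hs1)
    refine (add_le_add h4 h5).trans (le_of_eq ?_)
    have e3 : |(l : ℝ) - ((0 : ℤ) : ℝ)| = l := by
      push_cast
      rw [sub_zero, abs_of_nonneg (by linarith)]
    rw [e3]
    ring
  obtain ⟨R, hR⟩ : ∃ R : ℕ, R = ⌈t⌉₊ + 1 := ⟨_, rfl⟩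
  have hRt : t + 1 ≤ R := by
    rw [hR]
    push_cast
    linarith [Nat.le_ceil t]
  have hRt' : (R : ℝ) + 1 ≤ t + 3 := by
    rw [hR]
    push_cast
    linarith [Nat.ceil_lt_add_one ht0.le]
  have hkt1 : k * t / (Real.pi * N) ≤ t := by
    rw [div_le_iff₀ (by positivity)]
    have h1 : (k : ℝ) * t ≤ N * t := mul_le_mul_of_nonneg_right hkN' ht0.le
    have h2 : (N : ℝ) * t * 1 ≤ N * t * Real.pi := mul_le_mul_of_nonneg_left (by linarith) (by positivity)
    linarith
  have hp0 : ∀ x : ℝ, N ≤ x → ∀ p : ℤ, p = ⌊k * (t / (2 * Real.pi)) / x - th⌋ → ((p : ℝ) ≤ t ∧ -1 ≤ (p : ℝ)) := by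
    intro x hx p hp
    have hx0 : 0 < x := by linarith
    constructor
    · have h1 : (p : ℝ) ≤ k * (t / (2 * Real.pi)) / x - th := by rw [hp]; exact Int.floor_le _
      have h2 : k * (t / (2 * Real.pi)) / x ≤ t := by
        rw [div_le_iff₀ hx0]
        have h3 : t / (2 * Real.pi) ≤ t := by
          rw [div_le_iff₀ (by positivity)]
          nlinarith
        calc k * (t / (2 * Real.pi)) ≤ x * t := mul_le_mul (by linarith) h3 (by positivity) hx0.le
          _ = _ := by ring
      linarith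
    · have h1 : -1 ≤ p := by
        rw [hp, Int.le_floor]
        have : 0 ≤ k * (t / (2 * Real.pi)) / x := by positivity
        push_cast
        linarith
      exact_mod_cast h1
  have hsum : ∀ p : ℤ, ((p : ℝ) ≤ t ∧ -1 ≤ (p : ℝ)) →
      ∑ l ∈ Ico (L1 + 1) L2, (1 : ℝ) / (1 + |(l : ℝ) - p|) ≤ 2 * (1 + Real.log (t + 3)) := by
    intro p hp
    have h1 := recip_sum (Ico (L1 + 1) L2) p R (by
      intro l hl
      rw [mem_Ico] at hl
      have h2 := hup l (by omega)
      have h3 : |(l : ℝ) - p| ≤ R := by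
        rw [abs_le]
        constructor
        · have : (0 : ℝ) ≤ l := Nat.cast_nonneg l
          linarith [hp.1]
        · linarith [hp.2]
      exact_mod_cast h3)
    refine h1.trans ?_
    have : Real.log (R + 1) ≤ Real.log (t + 3) := Real.log_le_log (by positivity) hRt'
    linarith
  have hlog : 0 ≤ Real.log (t + 3) := Real.log_nonneg (by linarith)
  have hS : ∑ l ∈ Ico (L1 + 1) L2, ‖vf k th t a b (l + 1) - vf k th t a b l‖ ≤
      Λ * Real.sqrt t * (110 * (1 + Real.log (t + 3))) := by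
    refine (sum_le_sum hterm).trans ?_
    rw [← mul_sum, sum_add_distrib, sum_add_distrib, ← mul_sum, ← mul_sum, ← mul_sum]
    apply mul_le_mul_of_nonneg_left _ (by positivity)
    have h1 := hsum 0 ⟨by push_cast; linarith, by norm_num⟩
    have h2 := hsum pa (hp0 a hNa pa hpa)
    have h3 := hsum pb (hp0 b (by linarith) pb hpb)
    linarith
  have hlast : ‖vf k th t a b L2‖ ≤ Λ * (11 * Real.sqrt t) := by
    unfold vf
    rw [norm_mul, Complex.norm_real, Real.norm_eq_abs, abs_of_pos (by have := hlapos L2 hL; positivity)]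
    exact mul_le_mul (hlainv L2 hL) (hW L2 hL le_rfl) (norm_nonneg _) hΛ0.le
  have hΛs : Λ * Real.sqrt t ≤ 51 * (N / Real.sqrt t) := by
    have e4 : Λ * Real.sqrt t = 16 * Real.pi * (N / Real.sqrt t) := by
      rw [hΛ]
      have : t = Real.sqrt t * Real.sqrt t := hss.symm
      field_simp
      rw [Real.sq_sqrt ht0.le]
    rw [e4]
    apply mul_le_mul_of_nonneg_right _ (by positivity)
    linarith
  calc ‖vf k th t a b L2‖ + ∑ l ∈ Ico (L1 + 1) L2, ‖vf k th t a b (l + 1) - vf k th t a b l‖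
      ≤ Λ * (11 * Real.sqrt t) + Λ * Real.sqrt t * (110 * (1 + Real.log (t + 3))) := add_le_add hlast hS
    _ ≤ Λ * Real.sqrt t * (121 * (1 + Real.log (t + 3))) := by
        have : 0 < Λ * Real.sqrt t := by positivity
        nlinarith
    _ ≤ (51 * (N / Real.sqrt t)) * (121 * (1 + Real.log (t + 3))) := by
        apply mul_le_mul_of_nonneg_right hΛs (by positivity)
    _ = _ := by ring

end Pool.Agent.Helper81K1.MP
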